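import Pool.Agent.Y690.W.Main1
import Pool.Agent.Y690.X.Single

/-!
# The nonvanishing theorem
-/

set_option autoImplicit false
set_option linter.unusedSectionVars false
set_option linter.unusedVariables false

open Filter IsDedekindDomain
open scoped Topology PeriodPair

namespace Pool.Agent.Y690.AW

open H667R3 Pool.Agent.TH936.CW Pool.Agent.W192.HK Pool.Agent.Y690.NV
open Pool.Agent.TH936.CM (IsLat out_sub)

open Complex (I)

variable {R : Subring ℂ} (hR : ∀ z : ℂ, z ∈ R ↔ ∃ x y : ℤ, z = x + y * I)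

include hR in
/-- distinct primes congruent to one modulo four are not associated -/
lemma dst_of {S : Finset R} (hS : ∀ p ∈ S, Prime p ∧ Pri p) : Dst S := by
  intro p hp s hs hps h
  apply hps
  rw [Ideal.mem_span_singleton] at h
  have h1 := (hS s hs).1.associated_of_dvd (hS p hp).1 h
  have h2 : sp p = sp s := by
    rw [Ideal.span_singleton_eq_span_singleton]
    exact h1.symm
  exact gen_uni hR h2 ((hS p hp).2.ff hR) ((hS s hs).2.ff hR)

open Classical in
/-- an admissible set of primes -/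
def Adm1 (hR : ∀ z : ℂ, z ∈ R ↔ ∃ x y : ℤ, z = x + y * I) (S : Finset R) : Prop :=
  (∀ p ∈ S, Prime p ∧ Pri p) ∧ (Mx (tt hR) aa S).det = 1

open Classical in
theorem tw1_main (hbasic : H_BASIC) (hfp : H_FP) (hcnt : H_CNT) (hdec : H_DEC) (hafe : H_AFE)
    {S : Finset R} (hS : Adm1 hR S) (e : ℕ) :
    HC (2 * e + 1) (sp (f2 hR * dd S)) (tw1 hR (2 * e + 1) S) ∧
      NVan e (tw1 hR (2 * e + 1) S) := by
  obtain ⟨L, Ω, q, hL, hCM, g2, hq, hT⟩ := exists_base (qr hR)
  have hd := dst_of hR hS.1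
  have hQ : ∀ p ∈ S, QC p := fun p hp => mkQC hR hbasic (hS.1 p hp).1 (hS.1 p hp).2
  have hHC := hc_tw1 hR hbasic (2 * e + 1) S hS.1 hd
  refine ⟨hHC, nonvan1 hR hbasic hfp hcnt hdec hafe hL hCM hq (dd_od hR hQ) hHC (χ := ch S)
    (fun r hr => tw1_gen hR _ S hr) (fun r s hrs => ch_per hQ hrs)
    (fun r s => ch_mul hQ r s) ?_ (sum_ne hR hL hCM g2 hq hT hbasic e hS.1 hd hS.2)⟩
  unfold ch
  refine Finset.prod_ne_zero_iff.mpr fun p hp => ?_
  rw [Ne, (hQ p hp).zero]
  intro h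
  obtain ⟨a, b, hab⟩ := cop_f2_pri hR (hQ p hp).od
  apply (hQ p hp).max.ne_top
  rw [Ideal.eq_top_iff_one, ← hab]
  exact (sp p).add_mem ((sp p).mul_mem_left a (Ideal.mem_span_singleton_self p))
    ((sp p).mul_mem_left b h)

lemma kc_odd (S : Finset R) (α : R) {n : ℕ} (hn : Odd n) :
    (kp hR α * ((ch S α : ℤ) : ℂ)) ^ n = kp hR α * ((ch S α : ℤ) : ℂ) := by
  have h1 : kp hR α ^ n = kp hR α := by
    have : kp hR α = 1 ∨ kp hR α = -1 := by
      unfold kp
      rcases sg_pm hR α with h | h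
      · left; rw [h, Int.cast_one]
      · right; rw [h, Int.cast_neg, Int.cast_one]
    rcases this with h | h
    · rw [h, one_pow]
    · rw [h, hn.neg_one_pow]
  have h2 : ch S α ^ n = ch S α := by
    unfold ch
    rw [← Finset.prod_pow]
    refine Finset.prod_congr rfl fun p _ => ?_
    rcases qs_three p α with h | h | h
    · rw [h, zero_pow hn.pos.ne']
    · rw [h, one_pow]
    · rw [h, hn.neg_one_pow]
  rw [mul_pow, h1, ← Int.cast_pow, h2]

/-- relation of the two descriptions -/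
lemma tw1_rel (hbasic : H_BASIC) {S : Finset R} (hS : ∀ p ∈ S, Prime p ∧ Pri p) {a b : ℕ}
    (hab : b ≤ a) (hodd : Odd (a + b)) (J : Ideal R) :
    tw1 hR 1 S J ^ a * (starRingEnd ℂ) (tw1 hR 1 S J) ^ b =
      tw1 hR (a - b) S J * (nm J : ℂ) ^ b := by
  by_cases hJ : ∃ α : R, α - 1 ∈ sp (ff hR) ∧ J = sp α
  · obtain ⟨α, hα, rfl⟩ := hJ
    obtain ⟨b1, b2, b3, b4, b5, b6, b7, -⟩ := hbasic R I (qr hR)
    rw [tw1_gen hR 1 S hα, tw1_gen hR _ S hα, b5, ← Complex.mul_conj, pow_one,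
      map_mul, map_mul, kp_conj, map_intCast, mul_pow, mul_pow, mul_pow (α : ℂ)]
    have h1 : (kp hR α * ((ch S α : ℤ) : ℂ)) ^ a * (kp hR α * ((ch S α : ℤ) : ℂ)) ^ b =
        kp hR α * ((ch S α : ℤ) : ℂ) := by
      rw [← pow_add]
      exact kc_odd hR S α hodd
    have h2 : (α : ℂ) ^ a = (α : ℂ) ^ (a - b) * (α : ℂ) ^ b := by
      rw [← pow_add, Nat.sub_add_cancel hab]
    rw [h2]
    linear_combination ((α : ℂ) ^ (a - b) * (α : ℂ) ^ b * (starRingEnd ℂ) (α : ℂ) ^ b) * h1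
  · rw [tw1_zero hR S 1 hJ, tw1_zero hR S _ hJ, zero_mul]
    have ha : a ≠ 0 := by
      rintro rfl
      have : b = 0 := by omega
      subst this
      simp at hodd
    rw [zero_pow ha, zero_mul]

theorem single1 (hbasic : H_BASIC) (hfp : H_FP) (hcnt : H_CNT) (hdec : H_DEC) (hafe : H_AFE)
    {S : Finset R} (hS : Adm1 hR S) (k a b : ℕ)
    (h1 : a + b = 2 * k - 1) (hk : 1 ≤ k) : Sg1 (tw1 hR 1 S) k a b := by
  have key : ∀ a b e : ℕ, a + b = 2 * k - 1 → a = b + (2 * e + 1) → Sg1 (tw1 hR 1 S) k a b := by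
    intro a b e h1 h2
    obtain ⟨hHC, F, hF1, hF2, hF3⟩ := tw1_main hR hbasic hfp hcnt hdec hafe hS e
    have hke : k = e + 1 + b := by omega
    have hodd : Odd (a + b) := ⟨k - 1, by omega⟩
    have hab : a - b = 2 * e + 1 := by omega
    obtain ⟨b1, b2, b3, b4, b5, b6, b7, -⟩ := hbasic R I (qr hR)
    have hbot : tw1 hR (2 * e + 1) S ⊥ = 0 := (hHC.zero ⊥).2 (Or.inl rfl)
    refine ⟨fun s => F (s - b), by fun_prop, fun s hs => ?_, ?_⟩
    · have hz' : ((e + 1 : ℕ) : ℝ) + 1 / 2 < (s - b).re := by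
        rw [Complex.sub_re, Complex.natCast_re]
        rw [hke] at hs
        push_cast at hs ⊢
        linarith
      have h6 : (fun J : Ideal R => tw1 hR 1 S J ^ a * (starRingEnd ℂ) (tw1 hR 1 S J) ^ b *
          (nm J : ℂ) ^ (-s)) = fun J : Ideal R => tw1 hR (2 * e + 1) S J *
          (nm J : ℂ) ^ (-(s - b)) := by
        funext J
        rw [tw1_rel hR hbasic hS.1 (by omega) hodd, hab]
        by_cases hI : J = ⊥
        · rw [hI, hbot, zero_mul, zero_mul, zero_mul]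
        · have h7 : (nm J : ℂ) ≠ 0 := by
            have h8 := b3 J hI
            have : nm J ≠ 0 := by linarith
            exact_mod_cast this
          have h8 : (nm J : ℂ) ^ (-(s - b)) = (nm J : ℂ) ^ (-s) * (nm J : ℂ) ^ b := by
            rw [show -(s - (b : ℂ)) = -s + b by ring, Complex.cpow_add _ _ h7,
              Complex.cpow_natCast]
          rw [h8]
          ring
      rw [h6]
      exact hF2 (s - b) hz'
    · have h7 : (k : ℂ) - b = ((e + 1 : ℕ) : ℂ) := by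
        rw [hke]
        push_cast
        ring
      simp only
      rw [h7]
      exact hF3
  rcases lt_or_ge b a with h2 | h2
  · obtain ⟨e, he⟩ : ∃ e, a = b + (2 * e + 1) := ⟨(a - b - 1) / 2, by omega⟩
    exact key a b e h1 he
  · obtain ⟨e, he⟩ : ∃ e, b = a + (2 * e + 1) := ⟨(b - a - 1) / 2, by omega⟩
    exact (key b a e (by omega) he).swap

/-- **Finite direct sums.** -/
theorem family1 (hbasic : H_BASIC) (hfp : H_FP) (hcnt : H_CNT) (hdec : H_DEC) (hafe : H_AFE)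
    (n : ℕ) {S : Fin n → Finset R} (hS : ∀ i, Adm1 hR (S i)) (k : ℕ) (hk : 1 ≤ k)
    (a b : Fin n → ℕ) (hab : ∀ i, a i + b i = 2 * k - 1) :
    ∃ L : ℂ → ℂ, Differentiable ℂ L ∧
      (∀ s : ℂ, (k : ℝ) + 1 / 2 < s.re → HasProd (fun v : HeightOneSpectrum R =>
        ∏ i, (1 - tw1 hR 1 (S i) v.asIdeal ^ a i * (starRingEnd ℂ) (tw1 hR 1 (S i) v.asIdeal) ^ b i *
          (nm v.asIdeal : ℂ) ^ (-s))⁻¹) (L s)) ∧
      L (k : ℂ) ≠ 0 := by
  have h1 : ∀ i, Sg1 (tw1 hR 1 (S i)) k (a i) (b i) := fun i =>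
    single1 hR hbasic hfp hcnt hdec hafe (hS i) k (a i) (b i) (hab i) hk
  choose F hF1 hF2 hF3 using h1
  have hHC := fun i => (tw1_main hR hbasic hfp hcnt hdec hafe (hS i) 0).1
  have hbot : ∀ i, tw1 hR 1 (S i) ⊥ = 0 := fun i => ((hHC i).zero ⊥).2 (Or.inl rfl)
  have htop : ∀ i, tw1 hR 1 (S i) ⊤ = 1 := by
    intro i
    have h3 := (hHC i).princ 1 one_ne_zero (by
      rw [sub_self]; exact (sp (f2 hR * dd (S i))).zero_mem)
    rwa [sp, Ideal.span_singleton_one, Subring.coe_one, one_pow] at h3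
  refine ⟨fun s => ∏ i, F i s, ?_, fun s hs => ?_, ?_⟩
  · exact Differentiable.fun_finsetProd fun i _ => hF1 i
  · refine hasProd_prod fun i _ => ?_
    refine euler_one hbasic (qr hR) (hbot i) (htop i) (hHC i).mul ?_ s _ (hF2 i s hs)
    have := hab i
    omega
  · exact Finset.prod_ne_zero_iff.mpr fun i _ => hF3 i

/-- products of signs -/
lemma prod_sign {ι : Type*} [DecidableEq ι] (s : Finset ι) (x : ι → ℤ) (hx : ∀ i ∈ s, x i = 1 ∨ x i = -1) :
    ∏ i ∈ s, x i = if ∑ i ∈ s, (if x i = -1 then (1 : ZMod 2) else 0) = 1 then -1 else 1 := by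
  induction s using Finset.induction_on with
  | empty => simp
  | insert i s hi ih =>
    rw [Finset.prod_insert hi, Finset.sum_insert hi,
      ih fun j hj => hx j (Finset.mem_insert_of_mem hj)]
    generalize ∑ i ∈ s, (if x i = -1 then (1 : ZMod 2) else 0) = y
    have key : ∀ y : ZMod 2, (1 : ℤ) * (if y = 1 then -1 else 1) =
        (if (if (1 : ℤ) = -1 then (1 : ZMod 2) else 0) + y = 1 then -1 else 1) ∧
        (-1 : ℤ) * (if y = 1 then -1 else 1) =
        (if (if (-1 : ℤ) = -1 then (1 : ZMod 2) else 0) + y = 1 then -1 else 1) := by decide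
    rcases hx i (Finset.mem_insert_self _ _) with h | h
    · rw [h]
      exact (key y).1
    · rw [h]
      exact (key y).2

open Classical in
/-- the criterion in terms of symbols -/
theorem adm1_of (hbasic : H_BASIC) {S : Finset R} (hS : ∀ p ∈ S, Prime p ∧ Pri p)
    (h : ∀ V ⊆ S, V.Nonempty → (∃ p ∈ V, sg hR p * ∏ l ∈ S \ V, qs l p = -1) ∨
      (∃ p ∈ S \ V, ∏ l ∈ V, qs l p = -1)) : Adm1 hR S := by
  refine ⟨hS, det_one _ _ fun V hV hne => ?_⟩
  have hd := dst_of hR hS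
  have hQ : ∀ p ∈ S, QC p := fun p hp => mkQC hR hbasic (hS p hp).1 (hS p hp).2
  have hsg : ∀ p, sg hR p = 1 ∨ sg hR p = -1 := by
    intro p
    unfold sg
    split_ifs
    · exact Or.inl rfl
    · exact Or.inr rfl
  rcases h V hV hne with ⟨p, hp, h1⟩ | ⟨p, hp, h1⟩
  · left
    refine ⟨p, hp, ?_⟩
    have h2 := prod_sign (S \ V) (fun l => qs l p) (fun l hl => by
      rw [Finset.mem_sdiff] at hl
      exact (hQ l hl.1).pm p (hd p (hV hp) l hl.1 fun hpl => hl.2 (hpl ▸ hp)))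
    rw [h2] at h1
    have e : ∑ l ∈ S \ V, aa p l = ∑ l ∈ S \ V, (if qs l p = -1 then (1 : ZMod 2) else 0) := by
      refine Finset.sum_congr rfl fun l _ => ?_
      unfold aa
      split_ifs <;> rfl
    rw [e]
    unfold tt
    generalize ∑ l ∈ S \ V, (if qs l p = -1 then (1 : ZMod 2) else 0) = y at h1 ⊢
    have key : ∀ y : ZMod 2, ((1 : ℤ) * (if y = 1 then -1 else 1) = -1 →
        (if (1 : ℤ) = -1 then (1 : ZMod 2) else 0) + y = 1) ∧
        ((-1 : ℤ) * (if y = 1 then -1 else 1) = -1 →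
        (if (-1 : ℤ) = -1 then (1 : ZMod 2) else 0) + y = 1) := by decide
    rcases hsg p with h3 | h3
    · rw [h3] at h1 ⊢
      exact (key y).1 (by convert h1)
    · rw [h3] at h1 ⊢
      exact (key y).2 (by convert h1)
  · right
    refine ⟨p, hp, ?_⟩
    rw [Finset.mem_sdiff] at hp
    have h2 := prod_sign V (fun l => qs l p) (fun l hl =>
      (hQ l (hV hl)).pm p (hd p hp.1 l (hV hl) fun hpl => hp.2 (hpl ▸ hl)))
    rw [h2] at h1
    have e : ∑ l ∈ V, aa p l = ∑ l ∈ V, (if qs l p = -1 then (1 : ZMod 2) else 0) := by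
      refine Finset.sum_congr rfl fun l _ => ?_
      unfold aa
      split_ifs <;> rfl
    rw [e]
    by_contra hcon
    rw [if_neg hcon] at h1
    norm_num at h1

end Pool.Agent.Y690.AW
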