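import Pool.Agent.Y690.X.Heat2

/-!
# The combination of the universal polynomials over the points of order two
-/

set_option autoImplicit false
set_option linter.unusedSimpArgs false
set_option linter.unusedSectionVars false

namespace Pool.Agent.Y690.AW

open MvPolynomial Pool.Agent.Y690.NV

/-- polynomials in `E`, `f₁`, `f₂`, `f₃` -/
abbrev B4 := MvPolynomial (Fin 4) ℂ

noncomputable def bE : B4 := X 0
noncomputable def b1 : B4 := X 1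
noncomputable def b2 : B4 := X 2
noncomputable def b3 : B4 := X 3
noncomputable def bX : B4 := C (1 / 3) * (b1 ^ 2 + b2 ^ 2 + b3 ^ 2)
noncomputable def bG : B4 := C (1 / 6) * (b1 ^ 4 + b2 ^ 4 + b3 ^ 4) - C (1 / 2) * bX ^ 2
noncomputable def bK : B4 := bX ^ 3 - 3 * bG * bX - (b1 * b2 * b3) ^ 2

/-- the derivation with respect to the modulus -/
noncomputable def db : Derivation ℂ B4 B4 :=
  mkDerivation ℂ ![-(bE * bX) + b1 * b2 * b3, -(bE * b2 * b3) + b1 * (2 * bX - b1 ^ 2),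
    -(bE * b1 * b3) + b2 * (2 * bX - b2 ^ 2), -(bE * b1 * b2) + b3 * (2 * bX - b3 ^ 2)]

lemma db_E : db bE = -(bE * bX) + b1 * b2 * b3 := mkDerivation_X _ _ _
lemma db_1 : db b1 = -(bE * b2 * b3) + b1 * (2 * bX - b1 ^ 2) := mkDerivation_X _ _ _
lemma db_2 : db b2 = -(bE * b1 * b3) + b2 * (2 * bX - b2 ^ 2) := mkDerivation_X _ _ _
lemma db_3 : db b3 = -(bE * b1 * b2) + b3 * (2 * bX - b3 ^ 2) := mkDerivation_X _ _ _

lemma b_ofNat (n : ℕ) [n.AtLeastTwo] : db (OfNat.ofNat n : B4) = 0 := by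
  have h2 : (OfNat.ofNat n : B4) = ((OfNat.ofNat n : ℕ) : B4) := (Nat.cast_ofNat).symm
  rw [h2, Derivation.map_natCast]

lemma b_mul (a b : B4) : db (a * b) = a * db b + b * db a := by
  rw [Derivation.leibniz, smul_eq_mul, smul_eq_mul]

lemma b_pow (a : B4) (n : ℕ) : db (a ^ n) = n * a ^ (n - 1) * db a := by
  rw [Derivation.leibniz_pow, smul_eq_mul, nsmul_eq_mul]
  ring

lemma b_C (a : ℂ) : db (C a : B4) = 0 := by
  have h := db.map_algebraMap a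
  rwa [algebraMap_eq] at h

lemma db_X : db bX = -(2 * bE * (b1 * b2 * b3)) + 2 * bX ^ 2 - 4 * bG := by
  have h : db bX = C (1 / 3) * (2 * b1 * db b1 + 2 * b2 * db b2 + 2 * b3 * db b3) := by
    conv_lhs => unfold bX
    rw [b_mul, b_C, map_add, map_add, b_pow, b_pow, b_pow]
    push_cast
    ring
  rw [h, db_1, db_2, db_3]
  refine MvPolynomial.funext fun v => ?_
  simp only [bG, bX, b1, b2, b3, bE, map_add, map_sub, map_mul, map_neg, map_pow, map_one,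
    map_ofNat, eval_X, eval_C, map_zero]
  ring

lemma db_G : db bG = 2 * bK := by
  have h : db bG = C (1 / 6) * (4 * b1 ^ 3 * db b1 + 4 * b2 ^ 3 * db b2 + 4 * b3 ^ 3 * db b3) -
      C (1 / 2) * (2 * bX * db bX) := by
    conv_lhs => unfold bG
    rw [map_sub, b_mul, b_mul, b_C, b_C, map_add, map_add, b_pow, b_pow, b_pow, b_pow]
    push_cast
    ring
  rw [h, db_1, db_2, db_3, db_X]
  refine MvPolynomial.funext fun v => ?_
  simp only [bK, bG, bX, b1, b2, b3, bE, map_add, map_sub, map_mul, map_neg, map_pow, map_one,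
    map_ofNat, eval_X, eval_C, map_zero]
  ring

lemma db_K : db bK = 12 * bG ^ 2 := by
  have h : db bK = 3 * bX ^ 2 * db bX - 3 * (bG * db bX + bX * db bG) -
      2 * (b1 * b2 * b3) * (b1 * b2 * db b3 + b1 * b3 * db b2 + b2 * b3 * db b1) := by
    conv_lhs => unfold bK
    rw [map_sub, map_sub, b_pow, b_pow, b_mul, b_mul, b_mul, b_mul, b_ofNat]
    push_cast
    ring
  rw [h, db_1, db_2, db_3, db_X, db_G]
  refine MvPolynomial.funext fun v => ?_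
  simp only [bK, bG, bX, b1, b2, b3, bE, map_add, map_sub, map_mul, map_neg, map_pow, map_one,
    map_ofNat, eval_X, eval_C, map_zero]
  ring

/-- the four substitutions -/
noncomputable def hs (s₁ s₂ s₃ : ℂ) : U →ₐ[ℂ] B4 := aeval
  ![C (1 / 2) * (bE + C s₁ * b1 + C s₂ * b2 + C s₃ * b3),
    bX + C s₃ * (b1 * b2) + C s₂ * (b1 * b3) + C s₁ * (b2 * b3),
    -((C s₁ * b1 + C s₂ * b2) * (C s₁ * b1 + C s₃ * b3) * (C s₂ * b2 + C s₃ * b3)), bG]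

lemma hs_E (s₁ s₂ s₃ : ℂ) : hs s₁ s₂ s₃ vE =
    C (1 / 2) * (bE + C s₁ * b1 + C s₂ * b2 + C s₃ * b3) := by unfold hs vE; rw [aeval_X]; rfl
lemma hs_X (s₁ s₂ s₃ : ℂ) : hs s₁ s₂ s₃ vX =
    bX + C s₃ * (b1 * b2) + C s₂ * (b1 * b3) + C s₁ * (b2 * b3) := by
  unfold hs vX; rw [aeval_X]; rfl
lemma hs_Y (s₁ s₂ s₃ : ℂ) : hs s₁ s₂ s₃ vY =
    -((C s₁ * b1 + C s₂ * b2) * (C s₁ * b1 + C s₃ * b3) * (C s₂ * b2 + C s₃ * b3)) := by
  unfold hs vY; rw [aeval_X]; rfl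
lemma hs_G (s₁ s₂ s₃ : ℂ) : hs s₁ s₂ s₃ vG = bG := by unfold hs vG; rw [aeval_X]; rfl

/-- compatibility is checked on the variables -/
lemma compatB {F : U →ₐ[ℂ] B4} (hE : db (F vE) = F (dt vE)) (hX : db (F vX) = F (dt vX))
    (hY : db (F vY) = F (dt vY)) (hG : db (F vG) = F (dt vG)) (u : U) :
    db (F u) = F (dt u) := by
  induction u using MvPolynomial.induction_on with
  | C a =>
    have h1 : dt (C a) = 0 := by
      have h := dt.map_algebraMap a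
      rwa [algebraMap_eq] at h
    have h2 : F (C a) = algebraMap ℂ B4 a := by
      rw [← algebraMap_eq, AlgHom.commutes]
    rw [h1, h2, db.map_algebraMap, map_zero]
  | add p q hp hq => rw [map_add, map_add, map_add, map_add, hp, hq]
  | mul_X p i hp =>
    have hi : db (F (X i)) = F (dt (X i)) := by
      fin_cases i
      · exact hE
      · exact hX
      · exact hY
      · exact hG
    rw [D_mul, map_mul, b_mul, map_add, map_mul, map_mul, hp, hi]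

/-- the sign vectors -/
def Sgn (s₁ s₂ s₃ : ℂ) : Prop := (s₁ = 1 ∧ s₂ = 1 ∧ s₃ = 1) ∨ (s₁ = 1 ∧ s₂ = -1 ∧ s₃ = -1) ∨
  (s₁ = -1 ∧ s₂ = 1 ∧ s₃ = -1) ∨ (s₁ = -1 ∧ s₂ = -1 ∧ s₃ = 1)

lemma cE {s₁ s₂ s₃ : ℂ} (h : Sgn s₁ s₂ s₃) : db (hs s₁ s₂ s₃ vE) = hs s₁ s₂ s₃ (dt vE) := by
  have h1 : db (hs s₁ s₂ s₃ vE) = C (1 / 2) * (db bE + C s₁ * db b1 + C s₂ * db b2 + C s₃ * db b3) := by
    rw [hs_E]
    simp only [b_mul, b_C, map_add]
    ring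
  rw [h1, db_E, db_1, db_2, db_3, dt_E, map_neg, map_add, map_mul, hs_E, hs_X, hs_Y]
  refine MvPolynomial.funext fun v => ?_
  rcases h with ⟨rfl, rfl, rfl⟩ | ⟨rfl, rfl, rfl⟩ | ⟨rfl, rfl, rfl⟩ | ⟨rfl, rfl, rfl⟩ <;>
  · simp only [bK, bG, bX, b1, b2, b3, bE, map_add, map_sub, map_mul, map_neg, map_pow, map_one,
      map_ofNat, eval_X, eval_C, map_zero]
    ring

lemma cX {s₁ s₂ s₃ : ℂ} (h : Sgn s₁ s₂ s₃) : db (hs s₁ s₂ s₃ vX) = hs s₁ s₂ s₃ (dt vX) := by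
  have h1 : db (hs s₁ s₂ s₃ vX) = db bX + C s₃ * (b1 * db b2 + b2 * db b1) +
      C s₂ * (b1 * db b3 + b3 * db b1) + C s₁ * (b2 * db b3 + b3 * db b2) := by
    rw [hs_X]
    simp only [b_mul, b_C, map_add]
    ring
  rw [h1, db_X, db_1, db_2, db_3, dt_X]
  simp only [map_sub, map_add, map_mul, map_pow, map_ofNat, hs_E, hs_X, hs_Y, hs_G]
  refine MvPolynomial.funext fun v => ?_
  rcases h with ⟨rfl, rfl, rfl⟩ | ⟨rfl, rfl, rfl⟩ | ⟨rfl, rfl, rfl⟩ | ⟨rfl, rfl, rfl⟩ <;>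
  · simp only [bK, bG, bX, b1, b2, b3, bE, map_add, map_sub, map_mul, map_neg, map_pow, map_one,
      map_ofNat, eval_X, eval_C, map_zero]
    ring

lemma cY {s₁ s₂ s₃ : ℂ} (h : Sgn s₁ s₂ s₃) : db (hs s₁ s₂ s₃ vY) = hs s₁ s₂ s₃ (dt vY) := by
  have h1 : db (hs s₁ s₂ s₃ vY) = -(
      (C s₁ * db b1 + C s₂ * db b2) * (C s₁ * b1 + C s₃ * b3) * (C s₂ * b2 + C s₃ * b3) +
      (C s₁ * b1 + C s₂ * b2) * (C s₁ * db b1 + C s₃ * db b3) * (C s₂ * b2 + C s₃ * b3) +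
      (C s₁ * b1 + C s₂ * b2) * (C s₁ * b1 + C s₃ * b3) * (C s₂ * db b2 + C s₃ * db b3)) := by
    rw [hs_Y, map_neg]
    simp only [b_mul, b_C, map_add]
    ring
  rw [h1, db_1, db_2, db_3, dt_Y]
  simp only [map_sub, map_add, map_mul, map_pow, map_ofNat, hs_E, hs_X, hs_Y, hs_G]
  refine MvPolynomial.funext fun v => ?_
  rcases h with ⟨rfl, rfl, rfl⟩ | ⟨rfl, rfl, rfl⟩ | ⟨rfl, rfl, rfl⟩ | ⟨rfl, rfl, rfl⟩ <;>
  · simp only [bK, bG, bX, b1, b2, b3, bE, map_add, map_sub, map_mul, map_neg, map_pow, map_one,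
      map_ofNat, eval_X, eval_C, map_zero]
    ring

lemma cG {s₁ s₂ s₃ : ℂ} (h : Sgn s₁ s₂ s₃) : db (hs s₁ s₂ s₃ vG) = hs s₁ s₂ s₃ (dt vG) := by
  rw [hs_G, db_G, dt_G]
  unfold vK
  simp only [map_sub, map_add, map_mul, map_pow, map_ofNat, hs_E, hs_X, hs_Y, hs_G]
  refine MvPolynomial.funext fun v => ?_
  rcases h with ⟨rfl, rfl, rfl⟩ | ⟨rfl, rfl, rfl⟩ | ⟨rfl, rfl, rfl⟩ | ⟨rfl, rfl, rfl⟩ <;>
  · simp only [bK, bG, bX, b1, b2, b3, bE, map_add, map_sub, map_mul, map_neg, map_pow, map_one,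
      map_ofNat, eval_X, eval_C, map_zero]
    ring

lemma hs_dt {s₁ s₂ s₃ : ℂ} (h : Sgn s₁ s₂ s₃) (u : U) :
    db (hs s₁ s₂ s₃ u) = hs s₁ s₂ s₃ (dt u) := compatB (cE h) (cX h) (cY h) (cG h) u

/-- the combination -/
noncomputable def Kn (n : ℕ) : B4 := hs 1 1 1 (Dn n) - hs 1 (-1) (-1) (Dn n) +
  hs (-1) 1 (-1) (Dn n) - hs (-1) (-1) 1 (Dn n)

lemma Kn_zero : Kn 0 = 2 * b2 := by
  unfold Kn
  rw [Dn_zero, hs_E, hs_E, hs_E, hs_E]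
  refine MvPolynomial.funext fun v => ?_
  simp only [map_add, map_sub, map_mul, map_ofNat, eval_C]
  ring

lemma Kn_one : Kn 1 = db (Kn 0) := by
  unfold Kn
  rw [Dn_one, Dn_zero, map_sub, map_add, map_sub, hs_dt (Or.inl ⟨rfl, rfl, rfl⟩),
    hs_dt (Or.inr (Or.inl ⟨rfl, rfl, rfl⟩)), hs_dt (Or.inr (Or.inr (Or.inl ⟨rfl, rfl, rfl⟩))),
    hs_dt (Or.inr (Or.inr (Or.inr ⟨rfl, rfl, rfl⟩)))]

lemma Kn_rec (n : ℕ) : Kn (n + 2) = db (Kn (n + 1)) - (n + 1) ^ 2 * (bG * Kn n) := by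
  have key : ∀ s₁ s₂ s₃ : ℂ, Sgn s₁ s₂ s₃ → hs s₁ s₂ s₃ (Dn (n + 2)) =
      db (hs s₁ s₂ s₃ (Dn (n + 1))) - (n + 1) ^ 2 * (bG * hs s₁ s₂ s₃ (Dn n)) := by
    intro s₁ s₂ s₃ h
    rw [Dn_rec, map_sub, hs_dt h]
    simp only [map_add, map_mul, map_pow, map_natCast, map_one, hs_G]
  unfold Kn
  rw [key _ _ _ (Or.inl ⟨rfl, rfl, rfl⟩), key _ _ _ (Or.inr (Or.inl ⟨rfl, rfl, rfl⟩)),
    key _ _ _ (Or.inr (Or.inr (Or.inl ⟨rfl, rfl, rfl⟩))),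
    key _ _ _ (Or.inr (Or.inr (Or.inr ⟨rfl, rfl, rfl⟩))), map_sub, map_add, map_sub]
  ring

/-! ### scaling -/

/-- polynomials in `R`, `e`, `a₁`, `a₂`, `a₃`, `x`, `g`, `k` -/
abbrev Q8 := MvPolynomial (Fin 8) ℤ

noncomputable def qR : Q8 := X 0
noncomputable def qe : Q8 := X 1
noncomputable def q1 : Q8 := X 2
noncomputable def q2 : Q8 := X 3
noncomputable def q3 : Q8 := X 4
noncomputable def qx : Q8 := X 5
noncomputable def qg : Q8 := X 6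
noncomputable def qk : Q8 := X 7

noncomputable def d8 : Derivation ℤ Q8 Q8 :=
  mkDerivation ℤ ![0, qR ^ 2 * (-(qe * qx) + qR ^ 4 * (q1 * q2 * q3)),
    -(qe * q2 * q3) + q1 * (2 * qR ^ 2 * qx - qR ^ 4 * q1 ^ 2),
    -(qe * q1 * q3) + q2 * (2 * qR ^ 2 * qx - qR ^ 4 * q2 ^ 2),
    qR ^ 2 * (-(qe * q1 * q2) + q3 * (2 * qx - q3 ^ 2)),
    qR ^ 2 * (-(2 * qe * (q1 * q2 * q3)) + 2 * qx ^ 2 - 4 * qg),
    qR ^ 2 * (2 * qk), qR ^ 2 * (12 * qg ^ 2)]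

lemma d8_R : d8 qR = 0 := mkDerivation_X _ _ _
lemma d8_e : d8 qe = qR ^ 2 * (-(qe * qx) + qR ^ 4 * (q1 * q2 * q3)) := mkDerivation_X _ _ _
lemma d8_1 : d8 q1 = -(qe * q2 * q3) + q1 * (2 * qR ^ 2 * qx - qR ^ 4 * q1 ^ 2) :=
  mkDerivation_X _ _ _
lemma d8_2 : d8 q2 = -(qe * q1 * q3) + q2 * (2 * qR ^ 2 * qx - qR ^ 4 * q2 ^ 2) :=
  mkDerivation_X _ _ _
lemma d8_3 : d8 q3 = qR ^ 2 * (-(qe * q1 * q2) + q3 * (2 * qx - q3 ^ 2)) := mkDerivation_X _ _ _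
lemma d8_x : d8 qx = qR ^ 2 * (-(2 * qe * (q1 * q2 * q3)) + 2 * qx ^ 2 - 4 * qg) :=
  mkDerivation_X _ _ _
lemma d8_g : d8 qg = qR ^ 2 * (2 * qk) := mkDerivation_X _ _ _
lemma d8_k : d8 qk = qR ^ 2 * (12 * qg ^ 2) := mkDerivation_X _ _ _

lemma q_mul (a b : Q8) : d8 (a * b) = a * d8 b + b * d8 a := by
  rw [Derivation.leibniz, smul_eq_mul, smul_eq_mul]

lemma q_pow (a : Q8) (n : ℕ) : d8 (a ^ n) = n * a ^ (n - 1) * d8 a := by
  rw [Derivation.leibniz_pow, smul_eq_mul, nsmul_eq_mul]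
  ring

/-- the sequence -/
noncomputable def Gs : ℕ → Q8
  | 0 => q2
  | 1 => d8 q2
  | n + 2 => d8 (Gs (n + 1)) - (n + 1) ^ 2 * (qR ^ 4 * qg * Gs n)

lemma Gs_zero : Gs 0 = q2 := by rw [Gs]
lemma Gs_one : Gs 1 = d8 q2 := by rw [Gs]
lemma Gs_rec (n : ℕ) : Gs (n + 2) = d8 (Gs (n + 1)) - (n + 1) ^ 2 * (qR ^ 4 * qg * Gs n) := by
  rw [Gs]

lemma dm (u : Q8) : d8 (qR ^ 2 * u) = qR ^ 2 * d8 u := by
  rw [q_mul, q_pow, d8_R]
  ring

/-- the structure of the sequence -/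
lemma Gs_struct (m : ℕ) : (∃ u, Gs (2 * m) = (qe * q3) ^ (2 * m) * q2 + qR ^ 2 * u) ∧
    ∃ w, Gs (2 * m + 1) = -((qe * q3) ^ (2 * m + 1) * q1) + qR ^ 2 * w := by
  have hp : ∀ k : ℕ, ∃ w, d8 ((qe * q3) ^ k) = qR ^ 2 * w := by
    intro k
    refine ⟨k * (qe * q3) ^ (k - 1) * (qe * (-(qe * q1 * q2) + q3 * (2 * qx - q3 ^ 2)) +
      q3 * (-(qe * qx) + qR ^ 4 * (q1 * q2 * q3))), ?_⟩
    rw [q_pow, q_mul, d8_e, d8_3]
    ring
  have step1 : ∀ k u, d8 ((qe * q3) ^ k * q2 + qR ^ 2 * u) ∈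
      {y | ∃ w, y = -((qe * q3) ^ (k + 1) * q1) + qR ^ 2 * w} := by
    intro k u
    obtain ⟨w, hw⟩ := hp k
    refine ⟨(qe * q3) ^ k * (q2 * (2 * qx - qR ^ 2 * q2 ^ 2)) + q2 * w + d8 u, ?_⟩
    rw [map_add, dm, q_mul, hw, d8_2]
    ring
  have step2 : ∀ k u, d8 (-((qe * q3) ^ k * q1) + qR ^ 2 * u) ∈
      {y | ∃ w, y = (qe * q3) ^ (k + 1) * q2 + qR ^ 2 * w} := by
    intro k u
    obtain ⟨w, hw⟩ := hp k
    refine ⟨-((qe * q3) ^ k * (q1 * (2 * qx - qR ^ 2 * q1 ^ 2))) - q1 * w + d8 u, ?_⟩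
    rw [map_add, dm, map_neg, q_mul, hw, d8_1]
    ring
  induction m with
  | zero =>
    refine ⟨⟨0, by rw [mul_zero, Gs_zero]; ring⟩, ?_⟩
    obtain ⟨w, hw⟩ := step1 0 0
    refine ⟨w, ?_⟩
    rw [mul_zero, zero_add, Gs_one, ← hw]
    congr 1
    ring
  | succ m ih =>
    obtain ⟨⟨u, hu⟩, w, hw⟩ := ih
    have h1 : ∃ u', Gs (2 * (m + 1)) = (qe * q3) ^ (2 * (m + 1)) * q2 + qR ^ 2 * u' := by
      obtain ⟨y, hy⟩ := step2 (2 * m + 1) w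
      refine ⟨y - (2 * m + 1) ^ 2 * (qR ^ 2 * qg * Gs (2 * m)), ?_⟩
      rw [show 2 * (m + 1) = 2 * m + 2 by ring, Gs_rec, hw, hy]
      push_cast
      ring
    refine ⟨h1, ?_⟩
    obtain ⟨u', hu'⟩ := h1
    obtain ⟨y, hy⟩ := step1 (2 * (m + 1)) u'
    refine ⟨y - (2 * m + 1 + 1) ^ 2 * (qR ^ 2 * qg * Gs (2 * m + 1)), ?_⟩
    rw [show 2 * (m + 1) + 1 = (2 * m + 1) + 2 by ring, Gs_rec,
      show 2 * m + 1 + 1 = 2 * (m + 1) by ring, hu', hy]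
    push_cast
    ring

section kappa

variable (ρ : ℂ)

/-- the substitution -/
noncomputable def κ8 : Q8 →+* B4 := eval₂Hom (Int.castRingHom B4)
  ![C ρ, C (ρ ^ 4) * bE, C ρ * b1, C ρ * b2, C (ρ ^ 2) * b3, C (ρ ^ 4) * bX, C (ρ ^ 8) * bG,
    C (ρ ^ 12) * bK]

lemma κ_R : κ8 ρ qR = C ρ := eval₂Hom_X' _ _ _
lemma κ_e : κ8 ρ qe = C (ρ ^ 4) * bE := eval₂Hom_X' _ _ _
lemma κ_1 : κ8 ρ q1 = C ρ * b1 := eval₂Hom_X' _ _ _
lemma κ_2 : κ8 ρ q2 = C ρ * b2 := eval₂Hom_X' _ _ _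
lemma κ_3 : κ8 ρ q3 = C (ρ ^ 2) * b3 := eval₂Hom_X' _ _ _
lemma κ_x : κ8 ρ qx = C (ρ ^ 4) * bX := eval₂Hom_X' _ _ _
lemma κ_g : κ8 ρ qg = C (ρ ^ 8) * bG := eval₂Hom_X' _ _ _
lemma κ_k : κ8 ρ qk = C (ρ ^ 12) * bK := eval₂Hom_X' _ _ _

lemma κ_d (u : Q8) : κ8 ρ (d8 u) = C (ρ ^ 6) * db (κ8 ρ u) := by
  induction u using MvPolynomial.induction_on with
  | C a =>
    have h1 : d8 (C a) = 0 := by
      have h := d8.map_algebraMap a
      rwa [algebraMap_eq] at h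
    have h2 : κ8 ρ (C a) = (a : B4) := by unfold κ8; rw [eval₂Hom_C]; rfl
    rw [h1, h2, map_zero, Derivation.map_intCast, mul_zero]
  | add p q hp hq => rw [map_add, map_add, map_add, map_add, hp, hq]; ring
  | mul_X p i hp =>
    have hi : κ8 ρ (d8 (X i)) = C (ρ ^ 6) * db (κ8 ρ (X i)) := by
      fin_cases i
      · show κ8 ρ (d8 qR) = C (ρ ^ 6) * db (κ8 ρ qR)
        rw [d8_R, κ_R, b_C, map_zero, mul_zero]
      · show κ8 ρ (d8 qe) = C (ρ ^ 6) * db (κ8 ρ qe)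
        rw [d8_e, κ_e, b_mul, b_C, db_E]
        simp only [map_add, map_sub, map_mul, map_neg, map_one, map_pow, map_ofNat, κ_R, κ_e, κ_1,
          κ_2, κ_3, κ_x, κ_g, κ_k]
        ring
      · show κ8 ρ (d8 q1) = C (ρ ^ 6) * db (κ8 ρ q1)
        rw [d8_1, κ_1, b_mul, b_C, db_1]
        simp only [map_add, map_sub, map_mul, map_neg, map_one, map_pow, map_ofNat, κ_R, κ_e, κ_1,
          κ_2, κ_3, κ_x, κ_g, κ_k]
        ring
      · show κ8 ρ (d8 q2) = C (ρ ^ 6) * db (κ8 ρ q2)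
        rw [d8_2, κ_2, b_mul, b_C, db_2]
        simp only [map_add, map_sub, map_mul, map_neg, map_one, map_pow, map_ofNat, κ_R, κ_e, κ_1,
          κ_2, κ_3, κ_x, κ_g, κ_k]
        ring
      · show κ8 ρ (d8 q3) = C (ρ ^ 6) * db (κ8 ρ q3)
        rw [d8_3, κ_3, b_mul, b_C, db_3]
        simp only [map_add, map_sub, map_mul, map_neg, map_one, map_pow, map_ofNat, κ_R, κ_e, κ_1,
          κ_2, κ_3, κ_x, κ_g, κ_k]
        ring
      · show κ8 ρ (d8 qx) = C (ρ ^ 6) * db (κ8 ρ qx)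
        rw [d8_x, κ_x, b_mul, b_C, db_X]
        simp only [map_add, map_sub, map_mul, map_neg, map_one, map_pow, map_ofNat, κ_R, κ_e, κ_1,
          κ_2, κ_3, κ_x, κ_g, κ_k]
        ring
      · show κ8 ρ (d8 qg) = C (ρ ^ 6) * db (κ8 ρ qg)
        rw [d8_g, κ_g, b_mul, b_C, db_G]
        simp only [map_add, map_sub, map_mul, map_neg, map_one, map_pow, map_ofNat, κ_R, κ_e, κ_1,
          κ_2, κ_3, κ_x, κ_g, κ_k]
        ring
      · show κ8 ρ (d8 qk) = C (ρ ^ 6) * db (κ8 ρ qk)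
        rw [d8_k, κ_k, b_mul, b_C, db_K]
        simp only [map_add, map_sub, map_mul, map_neg, map_one, map_pow, map_ofNat, κ_R, κ_e, κ_1,
          κ_2, κ_3, κ_x, κ_g, κ_k]
        ring
    rw [q_mul, map_add, map_mul, map_mul, hp, hi, map_mul, b_mul]
    ring

/-- the scaled sequence -/
lemma Kn_scale (n : ℕ) : C ρ * (C (ρ ^ 6) ^ n * Kn n) = 2 * κ8 ρ (Gs n) ∧
    C ρ * (C (ρ ^ 6) ^ (n + 1) * Kn (n + 1)) = 2 * κ8 ρ (Gs (n + 1)) := by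
  have hd : ∀ (m : ℕ) (y : B4), db (C ρ * (C (ρ ^ 6) ^ m * y)) = C ρ * (C (ρ ^ 6) ^ m * db y) := by
    intro m y
    rw [b_mul, b_C, b_mul, ← map_pow, b_C]
    ring
  have hd2 : ∀ y : B4, db (2 * y) = 2 * db y := by
    intro y
    rw [b_mul, b_ofNat]
    ring
  induction n with
  | zero =>
    refine ⟨?_, ?_⟩
    · rw [Kn_zero, Gs_zero, κ_2]
      ring
    · rw [zero_add, Kn_one, Gs_one, κ_d, κ_2, Kn_zero, hd2, b_mul, b_C]
      ring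
  | succ n ih =>
    refine ⟨ih.2, ?_⟩
    have h1 := congrArg (fun y => C (ρ ^ 6) * db y) ih.2
    rw [hd, hd2] at h1
    rw [show n + 1 + 1 = n + 2 from rfl, Kn_rec, Gs_rec, map_sub, κ_d]
    simp only [map_mul, map_pow, map_add, map_natCast, map_one, κ_R, κ_g]
    have h2 := ih.1
    simp only [map_pow] at h1 h2 ⊢
    linear_combination h1 - ((n + 1) ^ 2 * (C ρ ^ 4 * (C ρ ^ 8 * bG))) * h2

end kappa

end Pool.Agent.Y690.AW
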