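import Mathlib.LinearAlgebra.Matrix.ToLinearEquiv
import Mathlib.LinearAlgebra.Matrix.Block
import Mathlib.LinearAlgebra.Matrix.Determinant.Basic
import Mathlib.Data.ZMod.Basic
import Mathlib.Algebra.CharP.Two
import Mathlib.Algebra.Field.ZMod

/-!
# A determinant identity over the field with two elements
-/

set_option autoImplicit false
set_option linter.unusedSectionVars false
set_option linter.unusedSimpArgs false

namespace Pool.Agent.Y690.AW

open Matrix

variable {α : Type*} [DecidableEq α] (t : α → ZMod 2) (a : α → α → ZMod 2)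

/-- the matrix of a set -/
def Mx (V : Finset α) : Matrix V V (ZMod 2) := Matrix.of fun j k =>
  (if j = k then t j + ∑ l ∈ V, a j l else 0) + a j k

/-- the extended matrix -/
def Nx (U V : Finset α) : Matrix U U (ZMod 2) := Matrix.of fun j k =>
  (if j = k then t j + ∑ l ∈ V, a j l else 0) + (if (k : α) ∈ V then a j k else 0)

lemma Mx_apply (V : Finset α) (j k : V) : Mx t a V j k =
    (if j = k then t j + ∑ l ∈ V, a j l else 0) + a j k := rfl

lemma Nx_apply (U V : Finset α) (j k : U) : Nx t a U V j k =
    (if j = k then t j + ∑ l ∈ V, a j l else 0) + (if (k : α) ∈ V then a j k else 0) := rfl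

lemma two_zero (x : ZMod 2) : x + x = 0 := CharTwo.add_self_eq_zero x

lemma det_Nx {U V : Finset α} (h : V ⊆ U) :
    (Nx t a U V).det = (∏ p ∈ U \ V, (t p + ∑ l ∈ V, a p l)) * (Mx t a V).det := by
  have h1 := Matrix.twoBlockTriangular_det' (Nx t a U V) (fun j : U => (j : α) ∈ V) (by
    intro i hi j hj
    rw [Nx_apply, if_neg (c := ((j : α) ∈ V)) hj, add_zero, if_neg]
    rintro rfl
    exact hj hi)
  rw [h1, mul_comm]
  congr 1
  · have e1 : toSquareBlockProp (Nx t a U V) (fun i => ¬ ((i : α) ∈ V)) =
        Matrix.diagonal (fun j : {j : U // ¬ ((j : α) ∈ V)} => t j.1 + ∑ l ∈ V, a j.1 l) := by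
      ext i j
      have e2 : toSquareBlockProp (Nx t a U V) (fun i => ¬ ((i : α) ∈ V)) i j =
        Nx t a U V i.1 j.1 := rfl
      rw [e2, Nx_apply, if_neg (c := ((j.1 : α) ∈ V)) j.2, add_zero, Matrix.diagonal_apply]
      by_cases hij : i = j
      · subst hij
        rw [if_pos rfl, if_pos rfl]
      · rw [if_neg hij, if_neg (fun h3 => hij (Subtype.ext h3))]
    rw [e1, Matrix.det_diagonal]
    refine Finset.prod_bij' (fun j _ => (j.1 : α)) (fun j hj => ⟨⟨j, (Finset.mem_sdiff.mp hj).1⟩,
      (Finset.mem_sdiff.mp hj).2⟩) ?_ ?_ ?_ ?_ ?_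
    · intro j _
      exact Finset.mem_sdiff.mpr ⟨j.1.2, j.2⟩
    · intro j _
      exact Finset.mem_univ _
    · intro j _
      rfl
    · intro j _
      rfl
    · intro j _
      rfl
  · set e : {j : U // (j : α) ∈ V} ≃ V :=
      { toFun := fun j => ⟨j.1, j.2⟩
        invFun := fun j => ⟨⟨j, h j.2⟩, j.2⟩
        left_inv := fun _ => rfl
        right_inv := fun _ => rfl } with he
    rw [← Matrix.det_submatrix_equiv_self e (Mx t a V)]
    congr 1
    ext i j
    have e2 : toSquareBlockProp (Nx t a U V) (fun i => ((i : α) ∈ V)) i j =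
      Nx t a U V i.1 j.1 := rfl
    rw [e2, Nx_apply, submatrix_apply, Mx_apply, if_pos (c := ((j.1 : α) ∈ V)) j.2]
    have e3 : ∀ i, ((e i : V) : α) = i.1 := fun _ => rfl
    rw [e3, e3]
    congr 1
    by_cases hij : i = j
    · subst hij
      rw [if_pos rfl, if_pos rfl]
    · rw [if_neg (fun h3 => hij (e.injective h3)), if_neg (fun h3 => hij (Subtype.ext h3))]

/-- the weight -/
def wt (U V : Finset α) : Option U → ZMod 2
  | none => 1
  | some l => if (l : α) ∈ V then 1 else 0

lemma wt_some (U V : Finset α) (l : U) : wt U V (some l) = if (l : α) ∈ V then 1 else 0 := rfl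

/-- the rows -/
def rw' (U : Finset α) (j : U) : Option U → (U → ZMod 2)
  | none => t j • Pi.single j 1
  | some l => a j l • (Pi.single j 1 + Pi.single l 1)

lemma sum_sub {U V : Finset α} (h : V ⊆ U) (f : α → ZMod 2) :
    ∑ l : U, (if (l : α) ∈ V then f l else 0) = ∑ l ∈ V, f l := by
  rw [Finset.sum_coe_sort U (fun l => if l ∈ V then f l else 0), ← Finset.sum_filter]
  congr 1
  ext x
  rw [Finset.mem_filter]
  exact ⟨fun hx => hx.2, fun hx => ⟨h hx, hx⟩⟩

lemma Nx_row {U V : Finset α} (h : V ⊆ U) (j : U) :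
    (fun k => Nx t a U V j k) = ∑ o : Option U, wt U V o • rw' t a U j o := by
  rw [Fintype.sum_option]
  unfold wt rw'
  simp only [one_smul]
  ext k
  rw [Pi.add_apply, Finset.sum_apply, Nx_apply]
  simp only [Pi.smul_apply, Pi.add_apply, smul_eq_mul, Pi.single_apply]
  have e1 : ∑ l : U, ((if (l : α) ∈ V then (1 : ZMod 2) else 0) *
      (a j l * ((if k = j then 1 else 0) + if k = l then 1 else 0))) =
      (if k = j then 1 else 0) * ∑ l ∈ V, a j l + (if (k : α) ∈ V then a j k else 0) := by
    have e2 : ∑ l : U, ((if (l : α) ∈ V then (1 : ZMod 2) else 0) *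
        (a j l * ((if k = j then 1 else 0) + if k = l then 1 else 0))) =
        ∑ l : U, (if k = j then 1 else 0) * ((if (l : α) ∈ V then a j l else 0)) +
        ∑ l : U, if k = l then (if (l : α) ∈ V then a j l else 0) else 0 := by
      rw [← Finset.sum_add_distrib]
      refine Finset.sum_congr rfl fun l _ => ?_
      split_ifs <;> ring
    rw [e2, ← Finset.mul_sum, Finset.sum_ite_eq Finset.univ k, if_pos (Finset.mem_univ _),
      sum_sub h]
  rw [e1]
  by_cases hjk : j = k
  · subst hjk
    rw [if_pos rfl, if_pos rfl]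
    ring
  · rw [if_neg hjk, if_neg (fun h3 : k = j => hjk h3.symm)]
    ring

/-- the expansion of the determinant -/
lemma det_exp {U V : Finset α} (h : V ⊆ U) : (Nx t a U V).det =
    ∑ φ : U → Option U, (∏ j, wt U V (φ j)) * (Matrix.of fun j => rw' t a U j (φ j)).det := by
  have e1 : (Nx t a U V).det = Matrix.detRowAlternating.toMultilinearMap
      (fun j => ∑ o : Option U, wt U V o • rw' t a U j o) := by
    show (Nx t a U V).det = (Matrix.of fun j => ∑ o : Option U, wt U V o • rw' t a U j o).det
    congr 1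
    ext j k
    have := congrFun (Nx_row t a h j) k
    exact this
  rw [e1, MultilinearMap.map_sum]
  refine Finset.sum_congr rfl fun φ _ => ?_
  rw [MultilinearMap.map_smul_univ]
  rfl

/-- the vanishing sum -/
theorem sum_Nx {U : Finset α} (hU : U.Nonempty) : ∑ V ∈ U.powerset, (Nx t a U V).det = 0 := by
  rw [Finset.sum_congr rfl (fun V hV => det_exp t a (Finset.mem_powerset.mp hV)), Finset.sum_comm]
  refine Finset.sum_eq_zero fun φ _ => ?_
  rw [← Finset.sum_mul]
  by_cases hφ : ∀ l : U, ∃ j, φ j = some l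
  · have hn : ∀ j, φ j ≠ none := by
      choose g hg using hφ
      have hinj : Function.Injective g := fun x y hxy => by
        have h1 := hg x
        rw [hxy, hg y] at h1
        exact (Option.some.inj h1).symm
      have hsur := Finite.surjective_of_injective hinj
      intro j
      obtain ⟨l, rfl⟩ := hsur j
      rw [hg l]
      exact Option.some_ne_none l
    have hdet : (Matrix.of fun j => rw' t a U j (φ j)).det = 0 := by
      refine Matrix.exists_mulVec_eq_zero_iff.mp ⟨fun _ => 1, ?_, ?_⟩
      · intro h1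
        obtain ⟨x, hx⟩ := hU
        have := congrFun h1 ⟨x, hx⟩
        exact one_ne_zero this
      · ext j
        obtain ⟨l, hl⟩ := Option.ne_none_iff_exists'.mp (hn j)
        have h1 : (Matrix.of (fun j => rw' t a U j (φ j)) *ᵥ fun _ => 1) j =
            ∑ k, rw' t a U j (φ j) k * 1 := rfl
        rw [h1, hl]
        unfold rw'
        simp only [mul_one, Pi.smul_apply, Pi.add_apply, smul_eq_mul, Pi.single_apply]
        rw [← Finset.mul_sum, Finset.sum_add_distrib, Finset.sum_ite_eq' Finset.univ j,
          Finset.sum_ite_eq' Finset.univ l, if_pos (Finset.mem_univ _), if_pos (Finset.mem_univ _),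
          two_zero, mul_zero]
        rfl
    rw [hdet, mul_zero]
  · push Not at hφ
    obtain ⟨l, hl⟩ := hφ
    have h0 : ∑ V ∈ U.powerset, ∏ j, wt U V (φ j) = 0 := by
      have key : ∀ V, ∏ j, wt U (symmDiff V {(l : α)}) (φ j) = ∏ j, wt U V (φ j) := by
        intro V
        refine Finset.prod_congr rfl fun j _ => ?_
        rcases hj : φ j with _ | m
        · rfl
        · have hm : (m : α) ≠ l := by
            intro h1
            apply hl j
            rw [hj]
            congr 1
            exact Subtype.ext h1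
          rw [wt_some, wt_some]
          have : (m : α) ∈ symmDiff V {(l : α)} ↔ (m : α) ∈ V := by
            rw [Finset.mem_symmDiff, Finset.mem_singleton]
            tauto
          by_cases h2 : (m : α) ∈ V
          · rw [if_pos h2, if_pos (this.mpr h2)]
          · rw [if_neg h2, if_neg (fun h3 => h2 (this.mp h3))]
      refine Finset.sum_involution (fun V _ => symmDiff V {(l : α)}) ?_ ?_ ?_ ?_
      · intro V _
        rw [key]
        exact two_zero _
      · intro V _ _ h1
        have h2 : ((l : α) ∈ symmDiff V {(l : α)}) ↔ (l : α) ∈ V := by rw [h1]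
        rw [Finset.mem_symmDiff, Finset.mem_singleton] at h2
        tauto
      · intro V hV
        rw [Finset.mem_powerset] at hV ⊢
        intro x hx
        rw [Finset.mem_symmDiff, Finset.mem_singleton] at hx
        rcases hx with hx | hx
        · exact hV hx.1
        · rw [hx.1]
          exact l.2
      · intro V _
        exact symmDiff_symmDiff_cancel_right _ _
    rw [h0, zero_mul]

/-- the recursion for the determinants -/
theorem det_rec {U : Finset α} (hU : U.Nonempty) :
    ∑ V ∈ U.powerset, (∏ p ∈ U \ V, (t p + ∑ l ∈ V, a p l)) * (Mx t a V).det = 0 := by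
  rw [← sum_Nx t a hU]
  exact Finset.sum_congr rfl fun V hV => (det_Nx t a (Finset.mem_powerset.mp hV)).symm

lemma det_empty : (Mx t a ∅).det = 1 := Matrix.det_isEmpty

/-- the criterion -/
theorem det_one {U : Finset α} (h : ∀ V ⊆ U, V.Nonempty →
    (∃ p ∈ V, t p + ∑ l ∈ U \ V, a p l = 1) ∨ (∃ p ∈ U \ V, ∑ l ∈ V, a p l = 1)) :
    (Mx t a U).det = 1 := by
  have h1 : (Mx t a U).det ≠ 0 := by
    intro h0
    obtain ⟨x, hx, hx2⟩ := Matrix.exists_mulVec_eq_zero_iff.mpr h0
    set V := U.filter (fun p => ∃ hp : p ∈ U, x ⟨p, hp⟩ = 1) with hV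
    have hVU : V ⊆ U := Finset.filter_subset _ _
    have hxv : ∀ p : U, x p = if (p : α) ∈ V then 1 else 0 := by
      intro p
      by_cases hp : x p = 1
      · rw [if_pos, hp]
        rw [hV, Finset.mem_filter]
        exact ⟨p.2, p.2, hp⟩
      · rw [if_neg]
        · have : ∀ y : ZMod 2, y ≠ 1 → y = 0 := by decide
          exact this _ hp
        · rw [hV, Finset.mem_filter]
          rintro ⟨-, h2, h3⟩
          exact hp h3
    have hne : V.Nonempty := by
      by_contra hcon
      rw [Finset.not_nonempty_iff_eq_empty] at hcon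
      apply hx
      ext p
      rw [hxv, hcon]
      simp
    have hrow : ∀ p : U, (t p + ∑ l ∈ U, a p l) * x p + ∑ l ∈ V, a p l = 0 := by
      intro p
      have h2 := congrFun hx2 p
      have h3 : (Mx t a U *ᵥ x) p = ∑ k, Mx t a U p k * x k := rfl
      rw [h3, Pi.zero_apply] at h2
      rw [← h2]
      simp only [Mx_apply, add_mul, Finset.sum_add_distrib, ite_mul, zero_mul]
      rw [Finset.sum_ite_eq Finset.univ p, if_pos (Finset.mem_univ _)]
      congr 1
      rw [← sum_sub hVU]
      refine Finset.sum_congr rfl fun l _ => ?_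
      rw [hxv]
      split_ifs <;> ring
    rcases h V hVU hne with ⟨p, hp, h2⟩ | ⟨p, hp, h2⟩
    · have h3 := hrow ⟨p, hVU hp⟩
      rw [hxv, if_pos (c := ((⟨p, hVU hp⟩ : U) : α) ∈ V) hp, mul_one] at h3
      simp only at h3
      rw [← Finset.sum_sdiff hVU] at h3
      have h4 : t p + (∑ l ∈ U \ V, a p l + ∑ l ∈ V, a p l) + ∑ l ∈ V, a p l =
          (t p + ∑ l ∈ U \ V, a p l) + (∑ l ∈ V, a p l + ∑ l ∈ V, a p l) := by ring
      rw [h4, two_zero, add_zero, h2] at h3
      exact one_ne_zero h3
    · rw [Finset.mem_sdiff] at hp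
      have h3 := hrow ⟨p, hp.1⟩
      rw [hxv, if_neg (c := ((⟨p, hp.1⟩ : U) : α) ∈ V) hp.2, mul_zero, zero_add] at h3
      simp only at h3
      rw [h2] at h3
      exact one_ne_zero h3
  have : ∀ y : ZMod 2, y ≠ 0 → y = 1 := by decide
  exact this _ h1

end Pool.Agent.Y690.AW
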