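import Pool.Agent.Y690.W.Hp

/-!
# The normalised combination at the points `T' + Ω r / D`
-/

set_option autoImplicit false
set_option linter.unusedSectionVars false
set_option linter.unusedSimpArgs false

open scoped PeriodPair

namespace Pool.Agent.Y690.AW

open H667R3 Pool.Agent.TH936.CW MvPolynomial Pool.Agent.Y690.NV Pool.Agent.W192.HK
open Pool.Agent.TH936.CM (IsLat out_sub)
open Complex (I)

variable {L : PeriodPair} {q Ω : ℂ} {R : Subring ℂ}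
  (hR : ∀ z : ℂ, z ∈ R ↔ ∃ x y : ℤ, z = x + y * I)

section per

variable {u₁ u₂ u₃ e₁ e₂ e₃ : ℂ}
variable (hq : ∀ l ∈ L.lattice, eta L l = 0 * l + q * (starRingEnd ℂ) l)

include hq in
lemma FF_per (h1 : H2 L q u₁ e₁) (h2 : H2 L q u₂ e₂) (h3 : H2 L q u₃ e₃) (n : ℕ) {z w : ℂ}
    (hz : 2 * z ∉ L.lattice) (h : w - z ∈ L.lattice) : FF L q u₁ u₂ u₃ n w = FF L q u₁ u₂ u₃ n z := by
  unfold FF
  rw [ek_per hq n (two_mul_notMem_of L hz) h,
    ek_per hq n (h1.add hz) (w := w + u₁) (by rwa [add_sub_add_right_eq_sub]),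
    ek_per hq n (h2.add hz) (w := w + u₂) (by rwa [add_sub_add_right_eq_sub]),
    ek_per hq n (h3.add hz) (w := w + u₃) (by rwa [add_sub_add_right_eq_sub])]

include hq in
lemma FF_three (h1 : H2 L q u₁ e₁) (h2 : H2 L q u₂ e₂) (h3 : H2 L q u₃ e₃)
    (h12 : u₃ - (u₁ + u₂) ∈ L.lattice) (n : ℕ) {z : ℂ} (hz : 2 * z ∉ L.lattice) :
    FF L q u₁ u₂ u₃ n (z + u₃) = -FF L q u₁ u₂ u₃ n z := by
  unfold FF
  rw [ek_per hq n (h2.add hz) (w := z + u₃ + u₁) (by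
      convert add_mem h12 h1.two using 1; ring),
    ek_per hq n (h1.add hz) (w := z + u₃ + u₂) (by
      convert add_mem h12 h2.two using 1; ring),
    ek_per hq n (two_mul_notMem_of L hz) (w := z + u₃ + u₃) (by
      convert h3.two using 1; ring)]
  ring

include hq in
lemma FF_one (h1 : H2 L q u₁ e₁) (h2 : H2 L q u₂ e₂) (h3 : H2 L q u₃ e₃)
    (h12 : u₃ - (u₁ + u₂) ∈ L.lattice) (n : ℕ) {z : ℂ} (hz : 2 * z ∉ L.lattice) :
    FF L q u₁ u₂ u₃ n (z + u₁) = -FF L q u₁ u₂ u₃ n z := by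
  unfold FF
  rw [ek_per hq n (two_mul_notMem_of L hz) (w := z + u₁ + u₁) (by
      convert h1.two using 1; ring),
    ek_per hq n (h3.add hz) (w := z + u₁ + u₂) (by
      convert neg_mem h12 using 1; ring),
    ek_per hq n (h2.add hz) (w := z + u₁ + u₃) (by
      convert add_mem h12 h1.two using 1; ring)]
  ring

include hq in
lemma FF_two (h1 : H2 L q u₁ e₁) (h2 : H2 L q u₂ e₂) (h3 : H2 L q u₃ e₃)
    (h12 : u₃ - (u₁ + u₂) ∈ L.lattice) (n : ℕ) {z : ℂ} (hz : 2 * z ∉ L.lattice) :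
    FF L q u₁ u₂ u₃ n (z + u₂) = FF L q u₁ u₂ u₃ n z := by
  unfold FF
  rw [ek_per hq n (h3.add hz) (w := z + u₂ + u₁) (by
      convert neg_mem h12 using 1; ring),
    ek_per hq n (two_mul_notMem_of L hz) (w := z + u₂ + u₂) (by
      convert h2.two using 1; ring),
    ek_per hq n (h1.add hz) (w := z + u₂ + u₃) (by
      convert add_mem h12 h2.two using 1; ring)]
  ring

lemma mul_half (hL : IsLat L R Ω) {u e : ℂ} (h : H2 L q u e) {μ r : R} (hr : μ = 1 + 2 * r) :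
    (μ : ℂ) * u - u ∈ L.lattice := by
  have h1 := hL.mul r _ h.two
  have h2 : ((2 : R) : ℂ) = 2 := rfl
  convert h1 using 1
  rw [hr]
  push_cast
  rw [h2]
  ring

include hq in
lemma ek_shift (hL : IsLat L R Ω) (hCM : CM L) (n : ℕ) {μ r : R} (hr : μ = 1 + 2 * r) (hμ : μ ≠ 0)
    [Fintype (R ⧸ sp μ)] {z u e : ℂ} (h : H2 L q u e)
    (hz : 2 * ((μ : ℂ) * z) ∉ L.lattice) {N : ℕ} (hN : 0 < N)
    (hNz : (N : ℂ) * z ∈ L.lattice) :
    ∑ y : R ⧸ sp μ, ek L 0 q n (z + Ω * y.out / μ + u) =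
      gm n (μ : ℂ) * ek L 0 q n ((μ : ℂ) * z + u) := by
  have h1 := mul_half hL h hr
  have h2 : (μ : ℂ) * (z + u) ∉ L.lattice := by
    intro h3
    have h4 := sub_mem h3 h1
    apply h.add hz
    convert h4 using 1
    ring
  have h5 := ek_dist hCM hq hL n μ hμ h2 (N := 2 * N) (by omega) (by
    have h6 := add_mem (nsmul_mem hNz 2) (nsmul_mem h.two N)
    rw [nsmul_eq_mul, nsmul_eq_mul] at h6
    convert h6 using 1
    push_cast
    ring)
  have h7 : ek L 0 q n ((μ : ℂ) * (z + u)) = ek L 0 q n ((μ : ℂ) * z + u) := by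
    refine ek_per hq n (h.add hz) ?_
    convert h1 using 1
    ring
  rw [h7] at h5
  rw [← h5]
  refine Finset.sum_congr rfl fun y _ => ?_
  congr 1
  ring

include hq in
lemma FF_dist (hL : IsLat L R Ω) (hCM : CM L) (h1 : H2 L q u₁ e₁) (h2 : H2 L q u₂ e₂)
    (h3 : H2 L q u₃ e₃) (n : ℕ) {μ r : R} (hr : μ = 1 + 2 * r) (hμ : μ ≠ 0)
    [Fintype (R ⧸ sp μ)] {z : ℂ}
    (hz : 2 * ((μ : ℂ) * z) ∉ L.lattice) {N : ℕ} (hN : 0 < N)
    (hNz : (N : ℂ) * z ∈ L.lattice) :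
    ∑ y : R ⧸ sp μ, FF L q u₁ u₂ u₃ n (z + Ω * y.out / μ) =
      gm n (μ : ℂ) * FF L q u₁ u₂ u₃ n ((μ : ℂ) * z) := by
  unfold FF
  rw [Finset.sum_sub_distrib, Finset.sum_add_distrib, Finset.sum_sub_distrib,
    ek_shift hq hL hCM n hr hμ h1 hz hN hNz, ek_shift hq hL hCM n hr hμ h2 hz hN hNz,
    ek_shift hq hL hCM n hr hμ h3 hz hN hNz,
    ek_dist hCM hq hL n μ hμ (two_mul_notMem_of L hz) hN hNz]
  ring

end per

lemma ffn : ff hR ≠ 0 := by
  intro h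
  have h1 := congrArg Subtype.val h
  rw [ff_coe] at h1
  exact one_ne h1

/-- congruent to one modulo `2 + 2 i` -/
def Pri (D : R) : Prop := ∃ d : R, (D : ℂ) = 1 + (2 + 2 * I) * d

lemma Pri.form {D : R} (h : Pri D) : ∃ d : R, D = 1 + ff hR * d := by
  obtain ⟨d, hd⟩ := h
  exact ⟨d, Subtype.ext (by push_cast; rw [ff_coe, hd])⟩

lemma Pri.of_form {D d : R} (h : D = 1 + ff hR * d) : Pri D :=
  ⟨d, by rw [h]; push_cast; rw [ff_coe]⟩

lemma Pri.one : Pri (1 : R) := ⟨0, by push_cast; ring⟩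

include hR in
lemma Pri.mul {D E : R} (h : Pri D) (h' : Pri E) : Pri (D * E) := by
  obtain ⟨d, rfl⟩ := h.form hR
  obtain ⟨e, rfl⟩ := h'.form hR
  exact Pri.of_form hR (d := d + e + ff hR * (d * e)) (by ring)

include hR in
lemma Pri.prod {s : Finset R} {f : R → R} (h : ∀ p ∈ s, Pri (f p)) : Pri (∏ p ∈ s, f p) := by
  classical
  induction s using Finset.induction_on with
  | empty => rw [Finset.prod_empty]; exact Pri.one
  | insert a s ha ih =>
    rw [Finset.prod_insert ha]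
    exact (h a (Finset.mem_insert_self _ _)).mul hR
      (ih fun p hp => h p (Finset.mem_insert_of_mem hp))

include hR in
lemma Pri.nat {D : R} (h : Pri D) : ∃ (N : ℕ) (D' : R), Odd N ∧ (N : ℂ) = D * D' := by
  obtain ⟨d, hd⟩ := h
  obtain ⟨a, b, rfl⟩ := exists_xy hR d
  refine ⟨((1 + 2 * a - 2 * b) ^ 2 + (2 * a + 2 * b) ^ 2).natAbs,
    mkz hR (1 + 2 * a - 2 * b) (-(2 * a + 2 * b)), ?_, ?_⟩
  · rw [Int.natAbs_odd]
    refine ⟨2 * a - 2 * b + 4 * a ^ 2 + 4 * b ^ 2, by ring⟩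
  · have h0 : 0 ≤ (1 + 2 * a - 2 * b) ^ 2 + (2 * a + 2 * b) ^ 2 := by positivity
    have h1 : ((((1 + 2 * a - 2 * b) ^ 2 + (2 * a + 2 * b) ^ 2).natAbs : ℕ) : ℂ) =
        (((1 + 2 * a - 2 * b) ^ 2 + (2 * a + 2 * b) ^ 2 : ℤ) : ℂ) := by
      rw [← Int.cast_natCast, Int.natAbs_of_nonneg h0]
    rw [h1, hd, mkz_coe, mkz_coe]
    push_cast
    linear_combination ((2 * (a : ℂ) + 2 * b) ^ 2 - 2 * b * ((1 + 2 * a - 2 * b) -
      (2 * a + 2 * b) * I)) * Complex.I_sq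

include hR in
lemma Pri.ne {D : R} (h : Pri D) : D ≠ 0 := by
  obtain ⟨N, D', h1, h2⟩ := h.nat hR
  rintro rfl
  rw [Subring.coe_zero, zero_mul] at h2
  have : N = 0 := by exact_mod_cast h2
  subst this
  simp at h1

include hR in
lemma Pri.OT (hL : IsLat L R Ω) {D : R} (h : Pri D) {r : R} (hr : r ∉ sp D) :
    OT L (2 * (Ω * r / D)) := by
  refine OT.two ⟨fun h1 => hr ((lat_dm_iff hL D (h.ne hR) _).1 h1), ?_⟩
  obtain ⟨N, D', h1, h2⟩ := h.nat hR
  refine ⟨N, h1, ?_⟩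
  have h3 := coe_ne (h.ne hR)
  have : (N : ℂ) * (Ω * r / D) = Ω * ((D' * r : R) : ℂ) := by
    rw [h2]
    push_cast
    field_simp
  rw [this]
  exact hL.mem_mul _

lemma four_ne : (4 + 4 * I : ℂ) ≠ 0 := by
  intro h
  have := congrArg Complex.re h
  simp at this

/-- twice the point -/
lemma two_T (Ω : ℂ) : 2 * (Ω / (4 + 4 * I)) = Ω / (2 + 2 * I) := by
  rw [mul_div_assoc', div_eq_div_iff four_ne one_ne]
  ring

section main

variable (hL : IsLat L R Ω) (hCM : CM L) (g2 : L.g₂ = -1)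
  (hq : ∀ l ∈ L.lattice, eta L l = 0 * l + q * (starRingEnd ℂ) l)
  (hT : TP L q 1 (Ω / (2 + 2 * I)))

include hR hL hT in
lemma zz_notMem {D : R} (h : Pri D) (r : R) : 2 * (Ω / (4 + 4 * I) + Ω * r / D) ∉ L.lattice := by
  rw [mul_add, two_T]
  by_cases hr : r ∈ sp D
  · have h1 := (lat_dm_iff hL D (h.ne hR) _).2 hr
    intro h2
    have h3 := sub_mem (sub_mem h2 h1) h1
    refine two_mul_notMem_of L hT.nm ?_
    convert h3 using 1
    ring
  · exact hT.add (h.OT hR hL hr)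

/-- the combination -/
noncomputable def Fx (L : PeriodPair) (q Ω : ℂ) (n : ℕ) (z : ℂ) : ℂ :=
  FF L q (Ω / 2) (Ω * I / 2) (Ω * (1 + I) / 2) n z

/-- the normalised value -/
noncomputable def Gf (L : PeriodPair) (q Ω ρ : ℂ) (n : ℕ) (D r : R) : ℂ :=
  ρ * ((ρ ^ 6) ^ n * ((n.factorial : ℂ) * Fx L q Ω n (Ω / (4 + 4 * I) + Ω * r / D))) / 2

include hR hL hCM g2 hq hT in
/-- the values are congruent to one -/
theorem Gf_one {Γ : Type*} [LinearOrderedCommGroupWithZero Γ] {v : Valuation ℂ Γ} {ρ : ℂ}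
    (hρ : ρ ^ 4 = 2) (hr : v ρ < 1) (n : ℕ) {D : R} (hD : Pri D) (r : R) :
    N1 v (Gf L q Ω ρ n D r) := by
  obtain ⟨j, hj⟩ := exists_H3 hR hL hCM g2 hq
  have hz := zz_notMem hR hL hT hD r
  have hnear : v (ρ ^ 2 * (℘[L] (2 * (Ω / (4 + 4 * I) + Ω * r / D)) - 1 / 2)) < 1 ∧
      N1 v (2 * E1 L 0 q (2 * (Ω / (4 + 4 * I) + Ω * r / D))) := by
    by_cases hrD : r ∈ sp D
    · have h1 := (lat_dm_iff hL D (hD.ne hR) _).2 hrD
      have h2 : 2 * (Ω / (4 + 4 * I) + Ω * r / D) - Ω / (2 + 2 * I) ∈ L.lattice := by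
        have h3 := add_mem h1 h1
        convert h3 using 1
        rw [mul_add, two_T]
        ring
      have h4 := Pool.Agent.W245.EB.wp_add_lattice L (u := Ω / (2 + 2 * I)) h2
      rw [add_sub_cancel] at h4
      rw [h4, E1_per' hq (two_mul_notMem_of L hT.nm) h2]
      exact near_zero hT
    · rw [mul_add, two_T]
      exact near_add hρ hr hCM g2 hq hT (hD.OT hR hL hrD)
  obtain ⟨w, hw1, hw2⟩ := W_near hρ hr hj hCM g2 hz hnear.1 hnear.2 n
  have : Gf L q Ω ρ n D r = w := by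
    unfold Gf Fx
    rw [hw2]
    ring
  rw [this]
  exact hw1

include hR hL hCM g2 hq hT in
theorem Gf_per {ρ : ℂ} (n : ℕ) {D : R} (hD : Pri D) {r s : R} (h : r - s ∈ sp D) :
    Gf L q Ω ρ n D r = Gf L q Ω ρ n D s := by
  obtain ⟨j, hj⟩ := exists_H3 hR hL hCM g2 hq
  have hz := zz_notMem hR hL hT hD s
  unfold Gf Fx
  rw [FF_per hq hj.a1 hj.a2 hj.a3 n hz (w := Ω / (4 + 4 * I) + Ω * r / D)]
  have h1 := (lat_dm_iff hL D (hD.ne hR) _).2 h
  convert h1 using 1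
  push_cast
  ring

include hR in
theorem Gf_mul {ρ : ℂ} (n : ℕ) {D p : R} (hD : Pri D) (hp : Pri p) (r : R) :
    Gf L q Ω ρ n (D * p) (p * r) = Gf L q Ω ρ n D r := by
  unfold Gf
  have h1 := coe_ne (hD.ne hR)
  have h2 := coe_ne (hp.ne hR)
  have : Ω * ((p * r : R) : ℂ) / ((D * p : R) : ℂ) = Ω * r / D := by
    push_cast
    field_simp
  rw [this]

open Classical in
/-- the sign of a number congruent to one modulo `2 + 2 i` -/
noncomputable def sg (hR : ∀ z : ℂ, z ∈ R ↔ ∃ x y : ℤ, z = x + y * I) (p : R) : ℤ :=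
  if ∃ x y : ℤ, Even x ∧ p = 1 + ff hR * mkz hR x y then 1 else -1

open Classical in
lemma sg_eq {x y : ℤ} {α : R} (h : α = 1 + ff hR * mkz hR x y) :
    sg hR α = if Even x then 1 else -1 := by
  unfold sg
  by_cases hx : Even x
  · rw [if_pos hx, if_pos ⟨x, y, hx, h⟩]
  · rw [if_neg hx, if_neg]
    rintro ⟨x', y', hx', h'⟩
    rw [h] at h'
    have h1 : mkz hR x y = mkz hR x' y' := mul_left_cancel₀ (ffn hR) (add_left_cancel h')
    have h2 := congrArg Subtype.val h1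
    rw [mkz_coe, mkz_coe] at h2
    obtain ⟨h3, h4⟩ := mkz_inj h2
    rw [h3] at hx
    exact hx hx'

include hR hL hCM g2 hq in
/-- the translation by points of order two -/
theorem Fx_shift {n : ℕ} {z : ℂ} (hz : 2 * z ∉ L.lattice) (x y : ℤ) :
    Fx L q Ω n (z + Ω * ((x : ℂ) + y * I) / 2) = (((if Even x then 1 else -1 : ℤ)) : ℂ) *
      Fx L q Ω n z := by
  obtain ⟨j, hj⟩ := exists_H3 hR hL hCM g2 hq
  have h12 : Ω * (1 + I) / 2 - (Ω / 2 + Ω * I / 2) ∈ L.lattice := by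
    have : Ω * (1 + I) / 2 - (Ω / 2 + Ω * I / 2) = 0 := by ring
    rw [this]
    exact zero_mem _
  have key : ∀ (w u : ℂ), 2 * u ∈ L.lattice → w - (z + u) ∈ L.lattice →
      Fx L q Ω n w = Fx L q Ω n (z + u) := by
    intro w u hu hw
    refine FF_per hq hj.a1 hj.a2 hj.a3 n (fun h5 => hz ?_) hw
    have := sub_mem h5 hu
    convert this using 1
    ring
  have hmem : ∀ a b : ℤ, Ω * ((a : ℂ) + b * I) ∈ L.lattice := fun a b =>
    (hL.mem _).mpr ⟨mkz hR a b, by rw [mkz_coe]⟩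
  rcases Int.even_or_odd' x with ⟨a, rfl | rfl⟩ <;> rcases Int.even_or_odd' y with ⟨b, rfl | rfl⟩
  · rw [if_pos (even_two_mul a), Int.cast_one, one_mul]
    have := key (z + Ω * (((2 * a : ℤ) : ℂ) + ((2 * b : ℤ) : ℂ) * I) / 2) 0 (by
      rw [mul_zero]; exact zero_mem _) (by
      convert hmem a b using 1; push_cast; ring)
    rw [add_zero] at this
    exact this
  · rw [if_pos (even_two_mul a), Int.cast_one, one_mul]
    rw [key (z + Ω * (((2 * a : ℤ) : ℂ) + ((2 * b + 1 : ℤ) : ℂ) * I) / 2) (Ω * I / 2) hj.a2.two (by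
      convert hmem a b using 1; push_cast; ring)]
    exact FF_two hq hj.a1 hj.a2 hj.a3 h12 n hz
  · rw [if_neg (by rw [Int.not_even_iff_odd]; exact odd_two_mul_add_one a), Int.cast_neg,
      Int.cast_one, neg_one_mul]
    rw [key (z + Ω * (((2 * a + 1 : ℤ) : ℂ) + ((2 * b : ℤ) : ℂ) * I) / 2) (Ω / 2) hj.a1.two (by
      convert hmem a b using 1; push_cast; ring)]
    exact FF_one hq hj.a1 hj.a2 hj.a3 h12 n hz
  · rw [if_neg (by rw [Int.not_even_iff_odd]; exact odd_two_mul_add_one a), Int.cast_neg,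
      Int.cast_one, neg_one_mul]
    rw [key (z + Ω * (((2 * a + 1 : ℤ) : ℂ) + ((2 * b + 1 : ℤ) : ℂ) * I) / 2) (Ω * (1 + I) / 2)
      hj.a3.two (by convert hmem a b using 1; push_cast; ring)]
    exact FF_three hq hj.a1 hj.a2 hj.a3 h12 n hz

include hL hCM g2 hq hT in
theorem Fx_T {n : ℕ} {D p : R} (hD : Pri D) (hp : Pri p) (w : R) :
    Fx L q Ω n ((p : ℂ) * (Ω / (4 + 4 * I)) + Ω * w / D) =
      ((sg hR p : ℤ) : ℂ) * Fx L q Ω n (Ω / (4 + 4 * I) + Ω * w / D) := by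
  have hz := zz_notMem hR hL hT hD w
  obtain ⟨d, hd⟩ := hp.form hR
  obtain ⟨x, y, rfl⟩ := exists_xy hR d
  rw [sg_eq hR hd, ← Fx_shift hR hL hCM g2 hq hz x y]
  congr 1
  rw [hd]
  push_cast
  rw [ff_coe, mkz_coe]
  have h5 : (4 + 4 * I : ℂ) = 2 * (2 + 2 * I) := by ring
  have h6 := one_ne
  rw [h5]
  generalize (2 + 2 * I : ℂ) = c at h6 ⊢
  field_simp
  ring

include hL hCM g2 hq hT in
theorem Gf_dist {ρ : ℂ} (n : ℕ) {D p : R} (hD : Pri D) (hp : Pri p) [Fintype (R ⧸ sp p)] (w : R) :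
    ∑ y : R ⧸ sp p, Gf L q Ω ρ n (D * p) (w + D * y.out) =
      gm n (p : ℂ) * ((sg hR p : ℤ) : ℂ) * Gf L q Ω ρ n D w := by
  obtain ⟨j, hj⟩ := exists_H3 hR hL hCM g2 hq
  obtain ⟨d, hd⟩ := hp.form hR
  have hpd : p = 1 + 2 * ((1 + ii hR) * d) := by rw [hd]; unfold ff; ring
  have hp0 := hp.ne hR
  have hpC := coe_ne hp0
  have hDC := coe_ne (hD.ne hR)
  set z : ℂ := Ω / (4 + 4 * I) + Ω * w / ((D * p : R) : ℂ) with hz
  have e1 : (p : ℂ) * z = (p : ℂ) * (Ω / (4 + 4 * I)) + Ω * w / D := by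
    rw [hz]
    push_cast
    field_simp
  have hz2 : 2 * ((p : ℂ) * z) ∉ L.lattice := by
    intro h
    apply zz_notMem hR hL hT hD w
    have h1 := sub_mem h (hL.mem_mul d)
    convert h1 using 1
    have h5 : (4 + 4 * I : ℂ) = 2 * (2 + 2 * I) := by ring
    have h6 := one_ne
    rw [e1, hd, h5]
    push_cast
    rw [ff_coe]
    generalize (2 + 2 * I : ℂ) = c at h6 ⊢
    field_simp
    ring
  obtain ⟨M, M', hM, hMM⟩ := (hD.mul hR hp).nat hR
  have hDp := coe_ne ((hD.mul hR hp).ne hR)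
  have hNz : ((8 * M : ℕ) : ℂ) * z ∈ L.lattice := by
    have h1 := nsmul_mem hT.fo M
    have h2 := hL.mem_mul (8 * (M' * w))
    rw [nsmul_eq_mul] at h1
    have h3 := add_mem h1 h2
    have h8 : ((8 : R) : ℂ) = 8 := rfl
    convert h3 using 1
    rw [hz, ← two_T, mul_add]
    have e2 : ((8 * M : ℕ) : ℂ) * (Ω * w / ((D * p : R) : ℂ)) = Ω * ((8 * (M' * w) : R) : ℂ) := by
      push_cast at hMM hDp ⊢
      rw [hMM, h8]
      field_simp
    rw [e2]
    push_cast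
    ring
  have key := FF_dist hq hL hCM hj.a1 hj.a2 hj.a3 n hpd hp0 hz2 (N := 8 * M) (by
    have := hM.pos
    omega) hNz
  have e3 : FF L q (Ω / 2) (Ω * I / 2) (Ω * (1 + I) / 2) n ((p : ℂ) * z) =
      Fx L q Ω n ((p : ℂ) * (Ω / (4 + 4 * I)) + Ω * w / D) := by
    rw [e1]
    rfl
  rw [e3, Fx_T hR hL hCM g2 hq hT hD hp] at key
  unfold Gf
  rw [← Finset.sum_div, ← Finset.mul_sum, ← Finset.mul_sum, ← Finset.mul_sum]
  have e4 : ∑ y : R ⧸ sp p, Fx L q Ω n (Ω / (4 + 4 * I) +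
      Ω * ((w + D * y.out : R) : ℂ) / ((D * p : R) : ℂ)) = gm n (p : ℂ) * (((sg hR p : ℤ) : ℂ) *
      Fx L q Ω n (Ω / (4 + 4 * I) + Ω * w / D)) := by
    rw [← key]
    refine Finset.sum_congr rfl fun y _ => ?_
    unfold Fx
    congr 1
    rw [hz]
    push_cast
    field_simp
    ring
  rw [e4]
  ring

end main

end Pool.Agent.Y690.AW
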