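import Pool.Agent.Y690.W.Inst

/-!
# The Hecke characters of the elliptic curves `(1 + i) D y² = x³ - x`
-/

set_option autoImplicit false
set_option linter.unusedSectionVars false

namespace Pool.Agent.Y690.AW

open Pool.Agent.W192.HK Pool.Agent.Y690.NV
open Pool.Agent.TH936.CM (IsLat out_sub)

open Complex (I)

variable {R : Subring ℂ} (hR : ∀ z : ℂ, z ∈ R ↔ ∃ x y : ℤ, z = x + y * I)

/-- the modulus `4 + 4 i` -/
def f2 (hR : ∀ z : ℂ, z ∈ R ↔ ∃ x y : ℤ, z = x + y * I) : R := 2 * ff hR

lemma f2_coe : ((f2 hR : R) : ℂ) = 4 + 4 * I := by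
  have h : ((2 : R) : ℂ) = 2 := rfl
  unfold f2
  push_cast
  rw [ff_coe, h]
  ring

lemma f2_ne : f2 hR ≠ 0 := by
  intro h
  have h1 := congrArg Subtype.val h
  rw [f2_coe] at h1
  exact four_ne h1

lemma mem_f2_ff {r : R} (h : r ∈ sp (f2 hR)) : r ∈ sp (ff hR) := mem_sp_mul_right h

/-- the sign as a complex number -/
noncomputable def kp (hR : ∀ z : ℂ, z ∈ R ↔ ∃ x y : ℤ, z = x + y * I) (α : R) : ℂ :=
  ((sg hR α : ℤ) : ℂ)

open Classical in
lemma kp_eq {x y : ℤ} {α : R} (h : α = 1 + ff hR * mkz hR x y) :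
    kp hR α = if Even x then 1 else -1 := by
  unfold kp
  rw [sg_eq hR h]
  split_ifs
  · rw [Int.cast_one]
  · rw [Int.cast_neg, Int.cast_one]

lemma sg_pm (α : R) : sg hR α = 1 ∨ sg hR α = -1 := by
  unfold sg
  split_ifs
  · exact Or.inl rfl
  · exact Or.inr rfl

lemma kp_form {α : R} (h : α - 1 ∈ sp (ff hR)) : ∃ x y : ℤ, α = 1 + ff hR * mkz hR x y := by
  rw [Ideal.mem_span_singleton'] at h
  obtain ⟨c, hc⟩ := h
  obtain ⟨x, y, rfl⟩ := exists_xy hR c
  exact ⟨x, y, by linear_combination -hc⟩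

lemma kp_sq (α : R) : kp hR α * kp hR α = 1 := by
  unfold kp
  rcases sg_pm hR α with h | h <;> rw [h] <;> norm_num

lemma kp_conj (α : R) : (starRingEnd ℂ) (kp hR α) = kp hR α := map_intCast _ _

lemma kp_mul {α β : R} (hα : α - 1 ∈ sp (ff hR)) (hβ : β - 1 ∈ sp (ff hR)) :
    kp hR (α * β) = kp hR α * kp hR β := by
  obtain ⟨x, y, h1⟩ := kp_form hR hα
  obtain ⟨x', y', h2⟩ := kp_form hR hβ
  have h3 : α * β = 1 + ff hR * mkz hR (x + x' + 2 * (x * x' - y * y' - x * y' - x' * y))
      (y + y' + 2 * (x * x' - y * y' + x * y' + x' * y)) := by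
    rw [h1, h2]
    unfold mkz ff
    push_cast
    linear_combination ((2 + 2 * ii hR) ^ 2 * (y : R) * y' +
      (2 + 2 * ii hR) * (2 * (x : R) * y' + 2 * x' * y)) * ii_sq hR
  rw [kp_eq hR h1, kp_eq hR h2, kp_eq hR h3]
  by_cases hx : Even x <;> by_cases hx' : Even x'
  · rw [if_pos hx, if_pos hx', if_pos ((hx.add hx').add (even_two_mul _)), one_mul]
  · rw [if_pos hx, if_neg hx', if_neg, one_mul]
    rw [Int.even_add, Int.even_add]
    have := even_two_mul (x * x' - y * y' - x * y' - x' * y)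
    tauto
  · rw [if_neg hx, if_pos hx', if_neg, mul_one]
    rw [Int.even_add, Int.even_add]
    have := even_two_mul (x * x' - y * y' - x * y' - x' * y)
    tauto
  · rw [if_neg hx, if_neg hx', if_pos]
    · norm_num
    · rw [Int.even_add, Int.even_add]
      have := even_two_mul (x * x' - y * y' - x * y' - x' * y)
      tauto

lemma kp_one : kp hR 1 = 1 := by
  rw [kp_eq hR (x := 0) (y := 0) (by unfold mkz; push_cast; ring)]
  rw [if_pos (by decide)]

lemma kp_per {α β : R} (hα : α - 1 ∈ sp (ff hR)) (h : α - β ∈ sp (f2 hR)) :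
    kp hR α = kp hR β := by
  obtain ⟨x, y, h1⟩ := kp_form hR hα
  rw [Ideal.mem_span_singleton'] at h
  obtain ⟨c, hc⟩ := h
  obtain ⟨a, b, rfl⟩ := exists_xy hR c
  have h2 : β = 1 + ff hR * mkz hR (x - 2 * a) (y - 2 * b) := by
    have : β = α - mkz hR a b * f2 hR := by linear_combination hc
    rw [this, h1]
    unfold mkz f2
    push_cast
    ring
  rw [kp_eq hR h1, kp_eq hR h2]
  have : Even (x - 2 * a) ↔ Even x := by
    rw [Int.even_sub]
    have := even_two_mul a
    tauto
  by_cases hx : Even x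
  · rw [if_pos hx, if_pos (this.mpr hx)]
  · rw [if_neg hx, if_neg (fun h3 => hx (this.mp h3))]

open Classical in
/-- the twisted character -/
noncomputable def tw1 (n : ℕ) (S : Finset R) (J : Ideal R) : ℂ :=
  if h : ∃ α : R, J = sp α ∧ α - 1 ∈ sp (ff hR) then
    kp hR (Classical.choose h) * ((ch S (Classical.choose h) : ℤ) : ℂ) *
      ((Classical.choose h : R) : ℂ) ^ n else 0

lemma tw1_gen (n : ℕ) (S : Finset R) {α : R} (hα : α - 1 ∈ sp (ff hR)) :
    tw1 hR n S (sp α) = kp hR α * ((ch S α : ℤ) : ℂ) * (α : ℂ) ^ n := by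
  have h : ∃ β : R, sp α = sp β ∧ β - 1 ∈ sp (ff hR) := ⟨α, rfl, hα⟩
  unfold tw1
  rw [dif_pos h]
  obtain ⟨h1, h2⟩ := Classical.choose_spec h
  rw [← gen_uni hR h1 hα h2]

lemma tw1_zero' (n : ℕ) (S : Finset R) {J : Ideal R} (h : ¬ (J ≠ ⊥ ∧ IsCoprime J (sp (ff hR)))) :
    tw1 hR n S J = 0 := by
  rw [← gen_iff hR] at h
  unfold tw1
  rw [dif_neg h]

lemma cop_f2 (J : Ideal R) : IsCoprime J (sp (f2 hR)) ↔ IsCoprime J (sp (ff hR)) := by
  have h1 : sp (f2 hR) = sp (2 : R) * sp (ff hR) := (Ideal.span_singleton_mul_span_singleton _ _).symm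
  have h2 : sp (ff hR) = sp (1 + ii hR) * sp (2 : R) := by
    rw [ff_eq]
    exact (Ideal.span_singleton_mul_span_singleton _ _).symm
  rw [h1, IsCoprime.mul_right_iff]
  constructor
  · exact fun h => h.2
  · intro h
    refine ⟨?_, h⟩
    rw [h2] at h
    exact (IsCoprime.mul_right_iff.mp h).2

/-- the decomposition of an element -/
lemma even_or (x : R) : (∃ a b : ℤ, ¬ 2 ∣ a + b ∧ x = mkz hR a b) ∨
    ∃ z : R, x = (1 + ii hR) * z := by
  obtain ⟨a, b, rfl⟩ := exists_xy hR x
  by_cases h : 2 ∣ a + b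
  · exact Or.inr (even_div hR a b h)
  · exact Or.inl ⟨a, b, h, rfl⟩

include hR in
lemma cop_f2_pri {p : R} (h : Pri p) : IsCoprime p (f2 hR) := by
  obtain ⟨d, rfl⟩ := h.form hR
  have h1 : IsCoprime (1 + ff hR * d) (2 : R) := ⟨1, -(1 + ii hR) * d, by unfold ff; ring⟩
  refine (h1.pow_right (n := 3)).of_isCoprime_of_dvd_right ⟨1 - ii hR, ?_⟩
  unfold f2 ff
  linear_combination (4 : R) * ii_sq hR

lemma pri_iff (α : R) : α - 1 ∈ sp (ff hR) ↔ Pri α := by
  constructor
  · intro h
    rw [Ideal.mem_span_singleton'] at h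
    obtain ⟨c, hc⟩ := h
    exact Pri.of_form hR (d := c) (by linear_combination -hc)
  · exact fun h => h.ff hR

lemma cop_dd {S : Finset R} (hS : ∀ p ∈ S, QC p) (α : R) :
    IsCoprime (sp α) (sp (dd S)) ↔ ∀ p ∈ S, α ∉ sp p := by
  rw [Ideal.isCoprime_span_singleton_iff]
  unfold dd
  rw [IsCoprime.prod_right_iff]
  refine forall₂_congr fun p hp => ?_
  rw [← Ideal.isCoprime_span_singleton_iff]
  constructor
  · intro h h2
    have h1 : sp α ≤ sp p := (Ideal.span_singleton_le_iff_mem _).mpr h2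
    have h3 := Ideal.isCoprime_iff_sup_eq.mp h
    rw [sup_eq_right.mpr h1] at h3
    exact (hS p hp).max.ne_top h3
  · intro h2
    rw [Ideal.isCoprime_iff_sup_eq]
    refine (hS p hp).max.out.2 _ (lt_of_le_of_ne le_sup_right fun h => h2 ?_)
    rw [h]
    exact Ideal.mem_sup_left (Ideal.mem_span_singleton_self α)

lemma ch_one {S : Finset R} (hS : ∀ p ∈ S, QC p) : ch S 1 = 1 :=
  Finset.prod_eq_one fun p hp => (hS p hp).one

lemma ch_zero {S : Finset R} (hS : ∀ p ∈ S, QC p) (α : R) : ch S α = 0 ↔ ∃ p ∈ S, α ∈ sp p := by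
  unfold ch
  rw [Finset.prod_eq_zero_iff]
  exact exists_congr fun p => and_congr_right fun hp => (hS p hp).zero α

include hR in
/-- a nonresidue -/
lemma nonres (hbasic : H_BASIC) {p : R} (hp : Prime p) (h : Pri p) : ∃ u : R, qs p u = -1 := by
  obtain ⟨hmax, hfin⟩ := prime_data1 hR hbasic hp
  have := Fintype.ofFinite (R ⧸ sp p)
  obtain ⟨-, -, -, -, b5, -⟩ := hbasic R I (qr hR)
  refine qs_ex p ?_
  obtain ⟨a, b, hab⟩ := h.coe hR
  have hc : (Nat.card (R ⧸ sp p) : ℝ) = Complex.normSq (p : ℂ) := b5 p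
  have h1 : Complex.normSq (p : ℂ) =
      ((1 + 2 * (2 * a - 2 * b + 4 * a ^ 2 + 4 * b ^ 2) : ℤ) : ℝ) := by
    have h2 : (p : ℂ) = ((1 + 2 * a - 2 * b : ℤ) : ℂ) + ((2 * a + 2 * b : ℤ) : ℂ) * I := by
      rw [hab]
      push_cast
      linear_combination (2 * (b : ℂ)) * Complex.I_sq
    rw [h2, Complex.normSq_apply]
    simp
    ring
  rw [h1] at hc
  have h3 : ((Nat.card (R ⧸ sp p) : ℕ) : ℤ) = 1 + 2 * (2 * a - 2 * b + 4 * a ^ 2 + 4 * b ^ 2) := by
    exact_mod_cast hc
  rw [Nat.card_eq_fintype_card] at h3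
  rw [← Int.odd_coe_nat, h3]
  exact ⟨2 * a - 2 * b + 4 * a ^ 2 + 4 * b ^ 2, by ring⟩

open Classical in
theorem hc_tw1 (hbasic : H_BASIC) (n : ℕ) (S : Finset R)
    (hS : ∀ p ∈ S, Prime p ∧ Pri p) (hd : Dst S) :
    HC n (sp (f2 hR * dd S)) (tw1 hR n S) := by
  have := pid hR
  have hQ : ∀ p ∈ S, QC p := fun p hp => mkQC hR hbasic (hS p hp).1 (hS p hp).2
  have hdd := dd_od hR hQ
  have hsp : sp (f2 hR * dd S) = sp (f2 hR) * sp (dd S) :=
    (Ideal.span_singleton_mul_span_singleton _ _).symm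
  refine ⟨?_, ?_, ?_, ?_, ?_⟩
  · rw [Ne, Ideal.span_singleton_eq_bot]
    exact mul_ne_zero (f2_ne hR) (hdd.ne hR)
  · intro A B
    by_cases hA : A ≠ ⊥ ∧ IsCoprime A (sp (ff hR))
    · by_cases hB : B ≠ ⊥ ∧ IsCoprime B (sp (ff hR))
      · obtain ⟨α, rfl, hα⟩ := (gen_iff hR A).mpr hA
        obtain ⟨β, rfl, hβ⟩ := (gen_iff hR B).mpr hB
        rw [Ideal.span_singleton_mul_span_singleton, tw1_gen hR n S hα, tw1_gen hR n S hβ, tw1_gen,
          kp_mul hR hα hβ, ch_mul hQ]
        · push_cast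
          rw [mul_pow]
          ring
        · have h := (sp (ff hR)).add_mem ((sp (ff hR)).mul_mem_left α hβ) hα
          convert h using 1
          ring
      · rw [tw1_zero' hR n S hB, mul_zero]
        refine tw1_zero' hR n S fun h => hB ⟨?_, h.2.of_mul_left_right⟩
        rintro rfl
        exact h.1 (by rw [Ideal.mul_bot])
    · rw [tw1_zero' hR n S hA, zero_mul]
      refine tw1_zero' hR n S fun h => hA ⟨?_, h.2.of_mul_left_left⟩
      rintro rfl
      exact h.1 (by rw [Ideal.bot_mul])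
  · intro A
    rw [hsp, IsCoprime.mul_right_iff, cop_f2]
    by_cases hA : A ≠ ⊥ ∧ IsCoprime A (sp (ff hR))
    · obtain ⟨α, rfl, hα⟩ := (gen_iff hR A).mpr hA
      rw [tw1_gen hR n S hα, cop_dd hQ]
      have h0 : kp hR α ≠ 0 := left_ne_zero_of_mul_eq_one (kp_sq hR α)
      have h1 : (α : ℂ) ^ n ≠ 0 := pow_ne_zero _ (coe_ne (((pri_iff hR α).mp hα).ne hR))
      have h2 : (kp hR α * ((ch S α : ℤ) : ℂ) * (α : ℂ) ^ n = 0) ↔ ch S α = 0 := by
        constructor
        · intro h
          have h3 := (mul_eq_zero.mp h).resolve_right h1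
          exact_mod_cast (mul_eq_zero.mp h3).resolve_left h0
        · intro h
          rw [h, Int.cast_zero, mul_zero, zero_mul]
      rw [h2, ch_zero hQ]
      constructor
      · rintro ⟨p, hp, h3⟩
        exact Or.inr fun h4 => h4.2 p hp h3
      · rintro (h | h)
        · exact absurd h hA.1
        · by_contra hcon
          push Not at hcon
          exact h ⟨hA.2, hcon⟩
    · rw [tw1_zero' hR n S hA]
      simp only [true_iff]
      tauto
  · intro α _ hα
    have h1 := mem_f2_ff hR (mem_sp_mul_left hα)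
    rw [tw1_gen hR n S h1, kp_per hR h1 (β := 1) (mem_sp_mul_left hα), kp_one,
      ch_per hQ (mem_sp_mul_right hα), ch_one hQ, Int.cast_one, one_mul, one_mul]
  · intro q' hq'
    obtain ⟨δ, rfl⟩ := (IsPrincipalIdealRing.principal q').principal
    have hle : f2 hR * dd S ∈ (Submodule.span R {δ} : Ideal R) :=
      hq'.le (Ideal.mem_span_singleton_self _)
    have hle' : f2 hR * dd S ∈ sp δ := hle
    rw [Ideal.mem_span_singleton] at hle'
    obtain ⟨ε, hε⟩ := hle'
    have hδq : δ ∈ (Submodule.span R {δ} : Ideal R) := Submodule.mem_span_singleton_self δ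
    have hεu : ¬ IsUnit ε := by
      intro hu
      obtain ⟨w, hw⟩ := hu.exists_right_inv
      apply not_le_of_gt hq'
      have h1 : δ ∈ sp (f2 hR * dd S) := by
        rw [Ideal.mem_span_singleton]
        exact ⟨w, by rw [hε, mul_assoc, hw, mul_one]⟩
      exact (Ideal.span_singleton_le_iff_mem _).mpr h1
    have hfin : ∀ α : R, Pri α → α - 1 ∈ (Submodule.span R {δ} : Ideal R) →
        (∀ p ∈ S, α ∉ sp p) → kp hR α * ((ch S α : ℤ) : ℂ) = -1 →
        ∃ α : R, α ≠ 0 ∧ α - 1 ∈ (Submodule.span R {δ} : Ideal R) ∧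
          IsCoprime (sp α) (sp (f2 hR * dd S)) ∧ tw1 hR n S (sp α) ≠ (α : ℂ) ^ n := by
      intro α h1 h2 h3 h4
      refine ⟨α, h1.ne hR, h2, ?_, ?_⟩
      · rw [hsp, IsCoprime.mul_right_iff, cop_dd hQ, Ideal.isCoprime_span_singleton_iff]
        exact ⟨cop_f2_pri hR h1, h3⟩
      · rw [tw1_gen hR n S (h1.ff hR), h4, neg_one_mul]
        intro h5
        have h6 : (α : ℂ) ^ n = 0 := by linear_combination (-1 / 2) * h5
        exact pow_ne_zero n (coe_ne (h1.ne hR)) h6
    by_cases hcase : ∃ p ∈ S, p ∣ ε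
    · obtain ⟨p, hp, ε', hε'⟩ := hcase
      obtain ⟨u, hu⟩ := nonres hR hbasic (hS p hp).1 (hS p hp).2
      set m := f2 hR * dd (S.erase p) with hm
      have hp0 := (hS p hp).2.ne hR
      have hmm : f2 hR * dd S = m * p := by
        rw [hm]
        unfold dd
        rw [← Finset.mul_prod_erase S (fun x => x) hp]
        ring
      have hmδ : m = δ * ε' := by
        refine mul_right_cancel₀ hp0 ?_
        rw [← hmm, hε, hε']
        ring
      have hcop : IsCoprime m p := by
        rw [hm]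
        refine IsCoprime.mul_left (cop_f2_pri hR (hS p hp).2).symm ?_
        refine IsCoprime.prod_left fun s hs => ?_
        rw [Finset.mem_erase] at hs
        rw [← Ideal.isCoprime_span_singleton_iff]
        have h5 := (cop_dd (S := {p}) (fun x hx => by
          rw [Finset.mem_singleton] at hx
          rw [hx]
          exact hQ p hp) s).mpr (fun x hx => by
          rw [Finset.mem_singleton] at hx
          rw [hx]
          exact hd s hs.2 p hp hs.1)
        have h6 : dd ({p} : Finset R) = p := Finset.prod_singleton _ _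
        rwa [h6] at h5
      obtain ⟨a, b, hab⟩ := hcop
      set α := 1 + m * (a * (u - 1)) with hα
      have h1 : α - 1 ∈ sp m := by
        rw [hα, add_sub_cancel_left]
        exact (sp m).mul_mem_right _ (Ideal.mem_span_singleton_self m)
      have h2 : α - u ∈ sp p := by
        have : α - u = p * (-(b * (u - 1))) := by
          rw [hα]
          linear_combination (u - 1) * hab
        rw [this]
        exact (sp p).mul_mem_right _ (Ideal.mem_span_singleton_self p)
      have h3 : α - 1 ∈ sp (f2 hR) := mem_sp_mul_left h1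
      have h4 := mem_f2_ff hR h3
      have hup : u ∉ sp p := by
        intro h5
        rw [((hQ p hp).zero u).mpr h5] at hu
        norm_num at hu
      refine hfin α ((pri_iff hR α).mp h4) ?_ ?_ ?_
      · have h5 : δ * (ε' * (a * (u - 1))) ∈ (Submodule.span R {δ} : Ideal R) :=
          Ideal.mul_mem_right _ _ hδq
        convert h5 using 1
        rw [hα, hmδ]
        ring
      · intro s hs h5
        by_cases hsp' : s = p
        · rw [hsp'] at h5
          have := (sp p).sub_mem h5 h2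
          rw [sub_sub_cancel] at this
          exact hup this
        · have h6 : α - 1 ∈ sp s := mem_dd (Finset.mem_erase.mpr ⟨hsp', hs⟩) (mem_sp_mul_right h1)
          have := (sp s).sub_mem h5 h6
          rw [sub_sub_cancel] at this
          exact (hQ s hs).max.ne_top ((Ideal.eq_top_iff_one _).mpr this)
      · have h5 : ch S α = -1 := by
          unfold ch
          rw [← Finset.mul_prod_erase S (fun x => qs x α) hp, (hQ p hp).per α u h2, hu,
            Finset.prod_eq_one, mul_one]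
          intro s hs
          rw [(hQ s (Finset.mem_of_mem_erase hs)).per α 1 (mem_dd hs (mem_sp_mul_right h1)),
            (hQ s (Finset.mem_of_mem_erase hs)).one]
        rw [h5, kp_per hR h4 (β := 1) h3, kp_one]
        push_cast
        ring
    · push Not at hcase
      have hεdd : IsCoprime ε (dd S) := by
        rw [← Ideal.isCoprime_span_singleton_iff, cop_dd hQ]
        intro p hp h5
        exact hcase p hp (Ideal.mem_span_singleton.mp h5)
      have hεf : ε ∣ f2 hR := hεdd.dvd_of_dvd_mul_right ⟨δ, by rw [hε]; ring⟩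
      rcases even_or hR ε with ⟨a, b, hab, hmk⟩ | ⟨z, hz⟩
      · exfalso
        obtain ⟨j, -, hj⟩ := odd_unit hR a b hab
        rw [← hmk] at hj
        have h5 := cop_f2_pri hR ((pri_iff hR _).mp hj)
        have h6 : IsCoprime ε (f2 hR) := h5.of_mul_left_right
        exact hεu (h6.isUnit_of_dvd' dvd_rfl hεf)
      · obtain ⟨d, hdd'⟩ := hdd.form hR
        obtain ⟨x, y, hxy⟩ := exists_xy hR d
        set α := 1 + 4 * dd S with hα
        have h1 : α = 1 + ff hR * mkz hR (1 + 4 * x) (-1 + 4 * y) := by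
          rw [hα, hdd', hxy]
          unfold ff mkz
          push_cast
          linear_combination (2 : R) * ii_sq hR
        have h2 : 4 * dd S = δ * z := by
          have h3 : (1 + ii hR) ≠ 0 := by
            intro h4
            apply ffn hR
            rw [ff_eq, h4, zero_mul]
          refine mul_left_cancel₀ h3 ?_
          have h4 : f2 hR * dd S = (1 + ii hR) * (4 * dd S) := by unfold f2 ff; ring
          rw [← h4, hε, hz]
          ring
        have h3 : α - 1 ∈ sp (dd S) := by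
          rw [hα, add_sub_cancel_left]
          exact (sp (dd S)).mul_mem_left 4 (Ideal.mem_span_singleton_self _)
        refine hfin α (Pri.of_form hR h1) ?_ ?_ ?_
        · rw [hα, add_sub_cancel_left, h2]
          exact Ideal.mul_mem_right _ _ hδq
        · intro s hs h5
          have := (sp s).sub_mem h5 (mem_dd hs h3)
          rw [sub_sub_cancel] at this
          exact (hQ s hs).max.ne_top ((Ideal.eq_top_iff_one _).mpr this)
        · rw [kp_eq hR h1, if_neg (by
            rw [Int.not_even_iff_odd]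
            exact ⟨2 * x, by ring⟩), ch_per hQ h3, ch_one hQ]
          push_cast
          ring

lemma tw1_zero (S : Finset R) (n : ℕ) {J : Ideal R}
    (hJ : ¬ ∃ α : R, α - 1 ∈ sp (ff hR) ∧ J = sp α) : tw1 hR n S J = 0 := by
  refine tw1_zero' hR n S fun h => hJ ?_
  obtain ⟨α, h2, h3⟩ := (gen_iff hR J).mpr h
  exact ⟨α, h3, h2⟩

end Pool.Agent.Y690.AW
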