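import Pool.Agent.Y690.W.Near
import Pool.Agent.Y690.X.Sne

/-!
# The points of order two and the points near the fixed point
-/

set_option autoImplicit false
set_option linter.unusedSectionVars false
set_option linter.unusedSimpArgs false

open scoped PeriodPair

namespace Pool.Agent.Y690.AW

open H667R3 Pool.Agent.TH936.CW MvPolynomial Pool.Agent.Y690.NV Pool.Agent.W192.HK
open Pool.Agent.TH936.CM (IsLat out_sub)
open Complex (I)

variable {L : PeriodPair} {q Ω : ℂ} {R : Subring ℂ}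
  (hR : ∀ z : ℂ, z ∈ R ↔ ∃ x y : ℤ, z = x + y * I)

include hR in
lemma half_notMem (hL : IsLat L R Ω) {x y : ℤ} (h : ¬ (2 ∣ x ∧ 2 ∣ y)) :
    Ω * ((x : ℂ) + y * I) / 2 ∉ L.lattice := by
  rw [hL.mem]
  rintro ⟨r, hr⟩
  have h3 : ((x : ℂ) + y * I) = 2 * (r : ℂ) := by
    refine mul_left_cancel₀ hL.ne ?_
    linear_combination 2 * hr
  obtain ⟨a, b, hab⟩ := (hR r).mp r.2
  rw [hab] at h3
  have h4 : (x : ℂ) + y * I = ((2 * a : ℤ) : ℂ) + ((2 * b : ℤ) : ℂ) * I := by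
    rw [h3]; push_cast; ring
  obtain ⟨h5, h6⟩ := mkz_inj h4
  exact h ⟨⟨a, h5⟩, ⟨b, h6⟩⟩

include hR in
lemma half_two (hL : IsLat L R Ω) (x y : ℤ) : 2 * (Ω * ((x : ℂ) + y * I) / 2) ∈ L.lattice := by
  rw [hL.mem]
  exact ⟨mkz hR x y, by rw [mkz_coe]; ring⟩

include hR in
/-- a half point -/
lemma mkH2 (hL : IsLat L R Ω) (hq : ∀ l ∈ L.lattice, eta L l = 0 * l + q * (starRingEnd ℂ) l)
    {x y : ℤ} (h : ¬ (2 ∣ x ∧ 2 ∣ y)) {e : ℂ} (he : ℘[L] (Ω * ((x : ℂ) + y * I) / 2) = e) :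
    H2 L q (Ω * ((x : ℂ) + y * I) / 2) e := by
  have h1 := half_notMem hR hL h
  have h2 := half_two hR hL x y
  refine ⟨h1, h2, he, ?_, ?_⟩
  · have h3 : Ω * ((x : ℂ) + y * I) ∈ L.lattice := by
      convert h2 using 1
      ring
    exact wp'_half_eq_zero L h3
  · have h3 : E1 L 0 q (-(Ω * ((x : ℂ) + y * I) / 2)) = E1 L 0 q (Ω * ((x : ℂ) + y * I) / 2) := by
      refine E1_per' hq h1 ?_
      have := neg_mem h2
      convert this using 1
      ring
    rw [Pool.Agent.Y690.NV.E1_neg] at h3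
    linear_combination (-1 / 2) * h3

include hR in
theorem exists_H3 (hL : IsLat L R Ω) (hCM : CM L) (g2 : L.g₂ = -1)
    (hq : ∀ l ∈ L.lattice, eta L l = 0 * l + q * (starRingEnd ℂ) l) :
    ∃ j : ℂ, H3 L q j (Ω / 2) (Ω * I / 2) (Ω * (1 + I) / 2) := by
  have e1 : Ω * (((1 : ℤ) : ℂ) + ((0 : ℤ) : ℂ) * I) / 2 = Ω / 2 := by push_cast; ring
  have e2 : Ω * (((0 : ℤ) : ℂ) + ((1 : ℤ) : ℂ) * I) / 2 = Ω * I / 2 := by push_cast; ring
  have e3 : Ω * (((1 : ℤ) : ℂ) + ((1 : ℤ) : ℂ) * I) / 2 = Ω * (1 + I) / 2 := by push_cast; ring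
  have n1 := half_notMem hR hL (x := 1) (y := 0) (by omega)
  have n3 := half_notMem hR hL (x := 1) (y := 1) (by omega)
  rw [e1] at n1
  rw [e3] at n3
  have p3 : ℘[L] (Ω * (1 + I) / 2) = 0 := by
    have h3 : I * (Ω * (1 + I) / 2) - Ω * (1 + I) / 2 ∈ L.lattice := by
      have : I * (Ω * (1 + I) / 2) - Ω * (1 + I) / 2 = Ω * ((-1 : R) : ℂ) := by
        push_cast
        linear_combination (Ω / 2) * Complex.I_sq
      rw [this]
      exact hL.mem_mul _
    have h4 := Pool.Agent.W245.EB.wp_add_lattice L (u := Ω * (1 + I) / 2) h3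
    rw [add_sub_cancel, wp_I_mul hCM] at h4
    linear_combination (-1 / 2) * h4
  have p2 : ℘[L] (Ω * I / 2) = -℘[L] (Ω / 2) := by
    rw [← wp_I_mul hCM]
    congr 1
    ring
  have r1 : ∀ e : ℂ, ℘[L] (Ω / 2) = e → H2 L q (Ω / 2) e := by
    intro e he
    have := mkH2 (q := q) hR hL hq (x := 1) (y := 0) (by omega) (e := e) (by rw [e1]; exact he)
    rwa [e1] at this
  have r2 : ∀ e : ℂ, ℘[L] (Ω * I / 2) = e → H2 L q (Ω * I / 2) e := by
    intro e he
    have := mkH2 (q := q) hR hL hq (x := 0) (y := 1) (by omega) (e := e) (by rw [e2]; exact he)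
    rwa [e2] at this
  have r3 : ∀ e : ℂ, ℘[L] (Ω * (1 + I) / 2) = e → H2 L q (Ω * (1 + I) / 2) e := by
    intro e he
    have := mkH2 (q := q) hR hL hq (x := 1) (y := 1) (by omega) (e := e) (by rw [e3]; exact he)
    rwa [e3] at this
  refine ⟨2 * ℘[L] (Ω / 2), r1 _ (by ring), r2 _ (by rw [p2]; ring), r3 _ p3, ?_⟩
  have h1 := (r1 _ rfl).rel hCM g2
  have h2 : ℘[L] (Ω / 2) ≠ 0 := by
    intro h
    have h3 := (wp_eq_iff L n1 n3).mp (by rw [h, p3])
    rcases h3 with h3 | h3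
    · have := half_notMem hR hL (x := 2) (y := 1) (by omega)
      apply this
      convert h3 using 1
      push_cast
      ring
    · have := half_notMem hR hL (x := 0) (y := -1) (by omega)
      apply this
      convert h3 using 1
      push_cast
      ring
  have h3 := (mul_eq_zero.mp h1).resolve_left h2
  linear_combination h3

section near

variable {Γ : Type*} [LinearOrderedCommGroupWithZero Γ] {v : Valuation ℂ Γ} {ρ : ℂ}
  (hρ : ρ ^ 4 = 2) (hr : v ρ < 1)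

include hρ hr in
/-- the points `T + Q` -/
theorem near_add (hCM : CM L) (g2 : L.g₂ = -1)
    (hq : ∀ l ∈ L.lattice, eta L l = 0 * l + q * (starRingEnd ℂ) l) {T Q : ℂ} (hT : TP L q 1 T)
    (hQ : OT L Q) : v (ρ ^ 2 * (℘[L] (T + Q) - 1 / 2)) < 1 ∧ N1 v (2 * E1 L 0 q (T + Q)) := by
  have hp := rho_pos (v := v) hρ
  have hp0 := hp.ne'
  have h2 := two_lt hρ hr
  have hT' := two_mul_notMem_of L hT.nm
  have h1 := hT.add hQ
  have h2' := hT.sub hQ
  have hξ := Xi_sub (v := v) hCM g2 hρ hr hQ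
  have hξ1 := Xi_eq (v := v) hCM g2 hρ hr hQ
  have hη := Et_eq (v := v) hCM g2 hρ hr hQ
  have hε := E1_le (v := v) hCM g2 hρ hr hq hQ
  have hc := curve hCM g2 hQ.1
  have hne : Xi L Q - 1 ≠ 0 := by
    intro h
    rw [h, map_zero] at hξ
    exact pow_ne_zero 3 hp0 hξ.symm
  have hx : ℘[L] Q = Xi L Q / 2 := by unfold Xi; ring
  have eX : ℘[L] (T + Q) - 1 / 2 = 2 * (Xi L Q + ℘'[L] Q) / (Xi L Q - 1) ^ 2 := by
    rw [wp_add L hT.nm hQ.1 h1 h2', hT.x, hT.y, hx, g2]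
    have h5 : (1 - Xi L Q) ≠ 0 := fun h => hne (by linear_combination -h)
    have h6 : (1 / 2 - Xi L Q / 2) ≠ 0 := fun h => h5 (by linear_combination 2 * h)
    field_simp
    ring
  have eE : E1 L 0 q (T + Q) = 1 / 2 + E1 L 0 q Q + (1 + ℘'[L] Q) / (Xi L Q - 1) := by
    rw [E1_add hT' hQ.1 h1 h2', hT.x, hT.y, hT.e, hx]
    have h5 : (1 - Xi L Q) ≠ 0 := fun h => hne (by linear_combination -h)
    have h6 : (1 / 2 - Xi L Q / 2) ≠ 0 := fun h => h5 (by linear_combination 2 * h)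
    field_simp
    ring
  generalize Xi L Q = ξ at *
  generalize ℘'[L] Q = η at *
  generalize E1 L 0 q Q = ε at *
  refine ⟨?_, ?_⟩
  · have hs : v (ξ + η) < 1 := by
      by_contra hcon
      push Not at hcon
      have e : ((ξ + η) + -(2 * ξ)) * (ξ + η) = ξ * (ξ - 1) ^ 2 / 2 := by
        linear_combination (1 / 2) * hc
      have h3 := congrArg v e
      have h4 : v (-(2 * ξ)) < v (ξ + η) := by
        rw [Valuation.map_neg, map_mul, hξ1, mul_one]
        exact h2.trans_le hcon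
      rw [map_mul, Valuation.map_add_eq_of_lt_left v h4, map_div₀, map_mul, map_pow, hξ1, hξ,
        v_two hρ, one_mul, ← pow_mul] at h3
      have h5 : v ρ ^ (3 * 2) / v ρ ^ 4 = v ρ ^ 2 := by
        rw [div_eq_iff (pow_ne_zero _ hp0), ← pow_add]
      rw [h5] at h3
      have h6 := one_le_mul hcon hcon
      rw [h3] at h6
      exact absurd (pow_lt_one' hr (by norm_num : 2 ≠ 0)) (not_lt.mpr h6)
    rw [eX, map_mul, map_div₀, map_mul, map_pow, map_pow, hξ, v_two hρ, ← pow_mul]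
    have h5 : v ρ ^ 2 * (v ρ ^ 4 * v (ξ + η) / v ρ ^ (3 * 2)) = v (ξ + η) := by
      field_simp
      rw [mul_comm]
    rw [h5]
    exact hs
  · unfold N1
    rw [eE]
    have e : 2 * (1 / 2 + ε + (1 + η) / (ξ - 1)) - 1 = 2 * ε + 2 * (1 + η) / (ξ - 1) := by
      ring
    rw [e]
    refine (v.map_add _ _).trans_lt (max_lt ?_ ?_)
    · have e2 : 2 * ε = ρ ^ 2 * (ρ ^ 2 * ε) := by rw [← hρ]; ring
      rw [e2, map_mul, map_pow]
      exact mul_lt_one_of_lt_of_le (pow_lt_one' hr (by norm_num)) hε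
    · rw [map_div₀, map_mul, hξ, v_two hρ]
      have h5 : v ρ ^ 4 * v (1 + η) / v ρ ^ 3 = v ρ * v (1 + η) := by
        field_simp
      rw [h5]
      refine mul_lt_one_of_lt_of_le hr ?_
      refine (v.map_add _ _).trans (max_le ?_ hη.le)
      rw [map_one]

lemma near_zero {T : ℂ} (hT : TP L q 1 T) :
    v (ρ ^ 2 * (℘[L] T - 1 / 2)) < 1 ∧ N1 v (2 * E1 L 0 q T) := by
  rw [hT.x, hT.e, sub_self, mul_zero, map_zero]
  refine ⟨zero_lt_one, ?_⟩
  rw [show 2 * ((1 : ℂ) / 2) = 1 by norm_num]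
  exact N1.one

end near

end Pool.Agent.Y690.AW
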