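import Pool.Agent.Y690.W.Par

/-!
# The distribution of the normalised values
-/

set_option autoImplicit false
set_option linter.unusedSectionVars false
set_option linter.unusedSimpArgs false

open scoped PeriodPair

namespace Pool.Agent.Y690.AW

open H667R3 Pool.Agent.TH936.CW Pool.Agent.Y690.NV Pool.Agent.W192.HK
open Pool.Agent.TH936.CM (IsLat out_sub)
open Complex (I)

variable {L : PeriodPair} {q Ω : ℂ} {R : Subring ℂ}
  (hR : ∀ z : ℂ, z ∈ R ↔ ∃ x y : ℤ, z = x + y * I)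

include hR in
lemma Pri.coe {p : R} (h : Pri p) : ∃ a b : ℤ, (p : ℂ) = 1 + (2 + 2 * I) * ((a : ℂ) + b * I) := by
  obtain ⟨d, hd⟩ := h
  obtain ⟨a, b, rfl⟩ := exists_xy hR d
  exact ⟨a, b, by rw [hd, mkz_coe]⟩

include hR in
lemma Pri.ff {p : R} (h : Pri p) : p - 1 ∈ sp (ff hR) := by
  obtain ⟨d, hd⟩ := h.form hR
  rw [Ideal.mem_span_singleton']
  exact ⟨d, by rw [hd]; ring⟩

include hR in
/-- data attached to a prime -/
lemma prime_data1 (hbasic : H_BASIC) {π : R} (hp : Prime π) : (sp π).IsMaximal ∧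
    Finite (R ⧸ sp π) := by
  have := pid hR
  obtain ⟨b1, -⟩ := hbasic R I (qr hR)
  have h0 := hp.ne_zero
  have hne : sp π ≠ ⊥ := by rwa [Ne, Ideal.span_singleton_eq_bot]
  have hprime : (sp π).IsPrime := (Ideal.span_singleton_prime h0).mpr hp
  exact ⟨hprime.isMaximal hne, b1 _ hne⟩

include hR in
lemma mkQC (hbasic : H_BASIC) {p : R} (hp : Prime p) (h : Pri p) : QC p := by
  obtain ⟨hmax, hfin⟩ := prime_data1 hR hbasic hp
  have := Fintype.ofFinite (R ⧸ sp p)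
  refine ⟨h, hmax, qs_mul p, qs_one p, fun α β hαβ => qs_per p hαβ, qs_zero_iff p,
    fun α hα => qs_pm p hα, ?_⟩
  rw [← ii_sq hR, qs_mul]
  have h1 : ii hR ∉ sp p := by
    intro h1
    apply hmax.ne_top
    rw [Ideal.eq_top_iff_one]
    have := (sp p).mul_mem_left (-ii hR) h1
    convert this using 1
    linear_combination (1 : R) * ii_sq hR
  rcases qs_pm p h1 with h2 | h2 <;> rw [h2] <;> norm_num

section val

variable {Γ : Type*} [LinearOrderedCommGroupWithZero Γ] {v : Valuation ℂ Γ} {ρ : ℂ}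
  (hρ : ρ ^ 4 = 2) (hr : v ρ < 1)

lemma pow_one_sub {c s : ℂ} (hc : v c ≤ 1) (hs : v s ≤ 1) (n : ℕ) :
    v ((1 + c * s) ^ n - 1) ≤ v c := by
  induction n with
  | zero => rw [pow_zero, sub_self, map_zero]; exact zero_le
  | succ n ih =>
    have e : (1 + c * s) ^ (n + 1) - 1 = ((1 + c * s) ^ n - 1) * (1 + c * s) + c * s := by
      rw [pow_succ]; ring
    rw [e]
    refine (v.map_add _ _).trans (max_le ?_ ?_)
    · rw [map_mul]
      calc v ((1 + c * s) ^ n - 1) * v (1 + c * s) ≤ v c * 1 := by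
            refine mul_le_mul' ih ((v.map_add _ _).trans (max_le ?_ ?_))
            · rw [map_one]
            · rw [map_mul]; exact mul_le_one' hc hs
        _ = v c := mul_one _
    · rw [map_mul]
      exact mul_le_of_le_one_right' hs

include hρ hr hR in
lemma gm_one {p : R} (h : Pri p) (n : ℕ) : v (gm n (p : ℂ) - 1) < v 2 := by
  have h2 := two_lt hρ hr
  have hI : v (1 + I) < 1 := v_one_add_j h2 Complex.I_sq
  have hc : v (2 + 2 * I) < v 2 := by
    rw [show (2 + 2 * I : ℂ) = 2 * (1 + I) by ring, map_mul]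
    calc v 2 * v (1 + I) < v 2 * 1 := mul_lt_mul_of_pos_left hI v2_pos
      _ = _ := mul_one _
  have hc1' : v (2 + 2 * I) ≤ 1 := (hc.trans h2).le
  obtain ⟨a, b, hab⟩ := h.coe hR
  have hs' : v ((-I) * ((a : ℂ) + (-b : ℤ) * I)) ≤ 1 := by
    rw [map_mul, Valuation.map_neg, v_I, one_mul]
    exact v_gauss a (-b)
  have hcj : (starRingEnd ℂ) (p : ℂ) = 1 + (2 + 2 * I) * ((-I) * ((a : ℂ) + (-b : ℤ) * I)) := by
    rw [hab]
    simp only [map_add, map_mul, map_one, map_ofNat, map_intCast, Complex.conj_I]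
    push_cast
    linear_combination (2 * ((a : ℂ) - b * I)) * Complex.I_sq
  have hvc : v ((starRingEnd ℂ) (p : ℂ)) = 1 := by
    have h1 : (starRingEnd ℂ) (p : ℂ) = ((1 + 2 * a - 2 * b : ℤ) : ℂ) +
        ((-(2 * a + 2 * b) : ℤ) : ℂ) * I := by
      rw [hab]
      simp only [map_add, map_mul, map_one, map_ofNat, map_intCast, Complex.conj_I]
      push_cast
      linear_combination (2 * (b : ℂ)) * Complex.I_sq
    rw [h1]
    exact v_gauss_odd h2 (by omega)
  have hc1 : (starRingEnd ℂ) (p : ℂ) ≠ 0 := by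
    intro h
    rw [h, map_zero] at hvc
    exact zero_ne_one hvc
  have e : gm n (p : ℂ) - 1 = (((p : ℂ) ^ (n + 1) - 1) - ((starRingEnd ℂ) (p : ℂ) ^ n - 1)) /
      (starRingEnd ℂ) (p : ℂ) ^ n := by
    rw [gm_eq]
    field_simp
    ring
  rw [e, map_div₀, map_pow, hvc, one_pow, div_one]
  refine lt_of_le_of_lt ((v.map_sub _ _).trans (max_le ?_ ?_)) hc
  · rw [hab]
    exact pow_one_sub hc1' (v_gauss a b) _
  · rw [hcj]
    exact pow_one_sub hc1' hs' _

open Classical in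
/-- the sign in additive form -/
noncomputable def tt (hR : ∀ z : ℂ, z ∈ R ↔ ∃ x y : ℤ, z = x + y * I) (p : R) : ZMod 2 :=
  if sg hR p = -1 then 1 else 0

/-- the factor -/
noncomputable def cc (hR : ∀ z : ℂ, z ∈ R ↔ ∃ x y : ℤ, z = x + y * I) (n : ℕ) (p : R) : ℂ :=
  gm n (p : ℂ) * ((sg hR p : ℤ) : ℂ)

include hρ hr in
lemma cc_par {p : R} (h : Pri p) (n : ℕ) : Pm v 1 (1 - cc hR n p) (tt hR p) := by
  have h2 := two_lt hρ hr
  have h1 := gm_one (v := v) hR hρ hr h n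
  have hsg : sg hR p = 1 ∨ sg hR p = -1 := by
    unfold sg
    split_ifs
    · exact Or.inl rfl
    · exact Or.inr rfl
  unfold cc tt
  rcases hsg with h3 | h3
  · rw [h3, if_neg (by norm_num), Int.cast_one, mul_one]
    refine Pm.zero ?_
    rw [Valuation.map_sub_swap, pow_one]
    exact h1
  · rw [h3, if_pos rfl]
    refine ⟨1, by simp, ?_⟩
    have e : 1 - gm n (p : ℂ) * (((-1 : ℤ)) : ℂ) - 2 ^ 1 * ((1 : ℤ) : ℂ) = gm n (p : ℂ) - 1 := by
      push_cast
      ring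
    rw [e, pow_one]
    exact h1

end val

variable (hL : IsLat L R Ω) (hCM : H667R3.CM L) (g2 : L.g₂ = -1)
  (hq : ∀ l ∈ L.lattice, eta L l = 0 * l + q * (starRingEnd ℂ) l)
  (hT : TP L q 1 (Ω / (2 + 2 * I)))

include hL hCM g2 hq hT in
theorem ds_Gf (hbasic : H_BASIC) {ρ : ℂ} (n : ℕ) :
    DS (fun D r : R => Gf L q Ω ρ n D r) (cc hR n) := by
  obtain ⟨b1, -⟩ := hbasic R I (qr hR)
  have hfin : ∀ D : R, Pri D → Finite (R ⧸ sp D) := fun D hD =>
    b1 _ (by rw [Ne, Ideal.span_singleton_eq_bot]; exact hD.ne hR)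
  refine ⟨hfin, fun D hD => hD.ne hR, fun D r s hD h => Gf_per hR hL hCM g2 hq hT n hD h,
    fun D p r hD hp => Gf_mul hR n hD hp r, fun D p w hD hp => ?_⟩
  have := hfin p hp
  have := Fintype.ofFinite (R ⧸ sp p)
  rw [rs_eq]
  exact Gf_dist hR hL hCM g2 hq hT n hD hp w

include hL hCM g2 hq hT in
open Classical in
/-- the character sum is not zero -/
theorem sum_ne (hbasic : H_BASIC) (n : ℕ) {S : Finset R} (hS : ∀ p ∈ S, Prime p ∧ Pri p)
    (hd : Dst S) (hdet : (Mx (tt hR) aa S).det = 1) :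
    rs (dd S) (fun r => ((ch S r : ℤ) : ℂ) * Fx L q Ω n (Ω / (4 + 4 * I) + Ω * r / dd S)) ≠ 0 := by
  obtain ⟨V, hV⟩ := exists_V
  obtain ⟨ρ, hρ, hr⟩ := exists_rho hV
  have hQ : ∀ p ∈ S, QC p := fun p hp => mkQC hR hbasic (hS p hp).1 (hS p hp).2
  have h1 := Ts_par hV (ds_Gf hR hL hCM g2 hq hT hbasic (ρ := ρ) n)
    (fun D r hD => Gf_one hR hL hCM g2 hq hT hρ hr n hD r) hR S hQ hd
    (fun p hp => cc_par hR hρ hr (hQ p hp).od n)
  rw [hdet] at h1
  have h3 := h1.ne_zero hV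
  intro h4
  apply h3
  have hod := dd_od hR hQ
  obtain ⟨b1, -⟩ := hbasic R I (qr hR)
  have := b1 (sp (dd S)) (by rw [Ne, Ideal.span_singleton_eq_bot]; exact hod.ne hR)
  have := Fintype.ofFinite (R ⧸ sp (dd S))
  unfold Ts
  rw [rs_eq] at h4 ⊢
  have e : ∑ w : R ⧸ sp (dd S), ((ch S w.out : ℤ) : ℂ) * Gf L q Ω ρ n (dd S) w.out =
      ρ * ((ρ ^ 6) ^ n * (n.factorial : ℂ)) / 2 * ∑ w : R ⧸ sp (dd S),
        ((ch S w.out : ℤ) : ℂ) * Fx L q Ω n (Ω / (4 + 4 * I) + Ω * w.out / dd S) := by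
    rw [Finset.mul_sum]
    refine Finset.sum_congr rfl fun w _ => ?_
    unfold Gf
    ring
  beta_reduce
  rw [e, h4, mul_zero]

end Pool.Agent.Y690.AW
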