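import Pool.Agent.Y690.W.Hc1

/-!
# The nonvanishing of the central values
-/

set_option autoImplicit false
set_option linter.unusedSectionVars false

open Filter
open scoped Topology PeriodPair

namespace Pool.Agent.Y690.AW

open H667R3 Pool.Agent.TH936.CW Pool.Agent.W192.HK Pool.Agent.Y690.NV
open Pool.Agent.TH936.CM (IsLat out_sub)

open Complex (I)

variable {R : Subring ℂ} (hR : ∀ z : ℂ, z ∈ R ↔ ∃ x y : ℤ, z = x + y * I)

/-- the sum over the residue classes -/
lemma sum_four' {M c0 : R} (hc0 : c0 - 1 ∈ sp (ff hR)) [Fintype (R ⧸ sp M)]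
    [Fintype (R ⧸ sp (ff hR * M))] (g : R → ℂ)
    (hper : ∀ a b : R, a - b ∈ sp (ff hR * M) → g a = g b) (hii : ∀ r, g (ii hR * r) = g r)
    (h0 : ∀ r, ¬ IsCoprime (sp r) (sp (ff hR)) → g r = 0) :
    ∑ x : R ⧸ sp (ff hR * M), g x.out = 4 * ∑ w : R ⧸ sp M, g (c0 + ff hR * w.out) := by
  have hpow : ∀ (j : ℕ) (r : R), g (ii hR ^ j * r) = g r := by
    intro j r
    induction j with
    | zero => rw [pow_zero, one_mul]
    | succ j ih => rw [pow_succ', mul_assoc, hii, ih]
  set e4 : Fin 4 × (R ⧸ sp M) → R ⧸ sp (ff hR * M) := fun p =>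
    Ideal.Quotient.mk _ (ii hR ^ (p.1 : ℕ) * (c0 + ff hR * p.2.out)) with he4
  have hff : ∀ r : R, ff hR * r ∈ sp (ff hR) := fun r =>
    (sp (ff hR)).mul_mem_right r (Ideal.mem_span_singleton_self _)
  have hsub : sp (ff hR * M) ≤ sp (ff hR) := by
    rw [Ideal.span_singleton_le_iff_mem]
    exact hff M
  have key : ∑ p : Fin 4 × (R ⧸ sp M), g (ii hR ^ (p.1 : ℕ) * (c0 + ff hR * p.2.out)) =
      ∑ x : R ⧸ sp (ff hR * M), g x.out := by
    refine Finset.sum_of_injOn e4 ?_ (fun _ _ => Finset.mem_coe.mpr (Finset.mem_univ _)) ?_ ?_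
    · rintro ⟨j, w⟩ _ ⟨j', w'⟩ _ h
      have h1 : ii hR ^ (j : ℕ) * (c0 + ff hR * w.out) - ii hR ^ (j' : ℕ) * (c0 + ff hR * w'.out) ∈
          sp (ff hR * M) := (Ideal.Quotient.mk_eq_mk_iff_sub_mem _ _).mp h
      have hj : j = j' := by
        have h2 : ii hR ^ (j : ℕ) - ii hR ^ (j' : ℕ) ∈ sp (ff hR) := by
          have h3 := (sp (ff hR)).sub_mem (hsub h1) ((sp (ff hR)).sub_mem
            ((sp (ff hR)).add_mem ((sp (ff hR)).mul_mem_left (ii hR ^ (j : ℕ)) hc0)
              ((sp (ff hR)).mul_mem_left (ii hR ^ (j : ℕ)) (hff w.out)))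
            ((sp (ff hR)).add_mem ((sp (ff hR)).mul_mem_left (ii hR ^ (j' : ℕ)) hc0)
              ((sp (ff hR)).mul_mem_left (ii hR ^ (j' : ℕ)) (hff w'.out))))
          convert h3 using 1
          ring
        have h4 : ii hR ^ (((j : ℕ) + (4 - (j' : ℕ))) % 4) - 1 ∈ sp (ff hR) := by
          have h5 := (sp (ff hR)).mul_mem_left (ii hR ^ (4 - (j' : ℕ))) h2
          rw [← ii_pow_mod]
          convert h5 using 1
          rw [mul_sub, ← pow_add, ← pow_add, add_comm, show 4 - (j' : ℕ) + (j' : ℕ) = 4 by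
            have := j'.2; omega, ii4]
        have h5 := ii_pow_eq hR (Nat.mod_lt _ (by norm_num)) h4
        apply Fin.ext
        have := j.2
        have := j'.2
        omega
      subst hj
      have hw : w = w' := by
        have h2 := (sp (ff hR * M)).mul_mem_left (ii hR ^ (4 - (j : ℕ))) h1
        have h3 : ii hR ^ (4 - (j : ℕ)) * (ii hR ^ (j : ℕ) * (c0 + ff hR * w.out) -
            ii hR ^ (j : ℕ) * (c0 + ff hR * w'.out)) = ff hR * (w.out - w'.out) := by
          have h4 : ii hR ^ (4 - (j : ℕ)) * ii hR ^ (j : ℕ) = 1 := by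
            rw [← pow_add, show 4 - (j : ℕ) + (j : ℕ) = 4 by have := j.2; omega, ii4]
          linear_combination (ff hR * (w.out - w'.out)) * h4
        rw [h3] at h2
        exact eq_of_out (of_mul_mem_sp (ff_ne hR) h2)
      rw [hw]
    · intro x _ hx
      by_contra hg
      have hc : IsCoprime (sp (x.out : R)) (sp (ff hR)) := by
        by_contra h
        exact hg (h0 _ h)
      apply hx
      obtain ⟨j, hj, hj2⟩ := cop_unit hR hc
      rw [Ideal.mem_span_singleton'] at hj2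
      obtain ⟨c, hc2⟩ := hj2
      rw [Ideal.mem_span_singleton'] at hc0
      obtain ⟨d, hd⟩ := hc0
      refine ⟨(⟨(4 - j) % 4, Nat.mod_lt _ (by norm_num)⟩, Ideal.Quotient.mk _ (c - d)), by simp, ?_⟩
      simp only [he4]
      have h1 : Ideal.Quotient.mk (sp (ff hR * M)) x.out = x := Ideal.Quotient.mk_out x
      rw [← h1, Ideal.Quotient.mk_eq_mk_iff_sub_mem, ← ii_pow_mod]
      have h2 := out_sub (sp M) (c - d)
      rw [Ideal.mem_span_singleton'] at h2
      obtain ⟨r, hr⟩ := h2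
      rw [Ideal.mem_span_singleton']
      refine ⟨ii hR ^ (4 - j) * r, ?_⟩
      have h4 : ii hR ^ (4 - j) * ii hR ^ j = 1 := by
        rw [← pow_add, show 4 - j + j = 4 by omega, ii4]
      linear_combination (ii hR ^ (4 - j) * ff hR) * hr + ii hR ^ (4 - j) * hd -
        ii hR ^ (4 - j) * hc2 - x.out * h4
    · rintro ⟨j, w⟩ _
      refine hper _ _ ?_
      have h1 := out_sub (sp (ff hR * M)) (ii hR ^ (j : ℕ) * (c0 + ff hR * w.out))
      have h2 := (sp (ff hR * M)).neg_mem h1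
      rwa [neg_sub] at h2
  rw [← key, Fintype.sum_prod_type]
  simp only [hpow]
  rw [Finset.sum_const, Finset.card_univ, Fintype.card_fin, nsmul_eq_mul]
  push_cast
  ring

/-- the residues modulo two -/
lemma sum_two (h : R → ℂ) [Fintype (R ⧸ sp (2 : R))]
    (hper : ∀ a b : R, a - b ∈ sp (2 : R) → h a = h b) :
    ∑ u : R ⧸ sp (2 : R), h u.out = h 0 + h 1 + h (ii hR) + h (1 + ii hR) := by
  set uu : Fin 4 → R := ![0, 1, ii hR, 1 + ii hR] with huu
  have key : ∑ p : Fin 4, h (uu p) = ∑ x : R ⧸ sp (2 : R), h x.out := by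
    have mem2 : ∀ x y : ℤ, mkz hR x y ∈ sp (2 : R) → 2 ∣ x ∧ 2 ∣ y := by
      intro x y hxy
      rw [Ideal.mem_span_singleton'] at hxy
      obtain ⟨c, hc⟩ := hxy
      obtain ⟨a, b, rfl⟩ := exists_xy hR c
      have h1 : mkz hR (2 * a) (2 * b) = mkz hR x y := by
        rw [← hc]; unfold mkz; push_cast; ring
      have h2 := congrArg Subtype.val h1
      rw [mkz_coe, mkz_coe] at h2
      obtain ⟨h3, h4⟩ := mkz_inj h2
      exact ⟨⟨a, h3.symm⟩, ⟨b, h4.symm⟩⟩
    have u0 : uu 0 = mkz hR 0 0 := by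
      have : uu 0 = 0 := rfl
      rw [this]; unfold mkz; push_cast; ring
    have u1 : uu 1 = mkz hR 1 0 := by
      have : uu 1 = 1 := rfl
      rw [this]; unfold mkz; push_cast; ring
    have u2 : uu 2 = mkz hR 0 1 := by
      have : uu 2 = ii hR := rfl
      rw [this]; unfold mkz; push_cast; ring
    have u3 : uu 3 = mkz hR 1 1 := by
      have : uu 3 = 1 + ii hR := rfl
      rw [this]; unfold mkz; push_cast; ring
    refine Fintype.sum_bijective (fun p : Fin 4 => Ideal.Quotient.mk (sp (2 : R)) (uu p)) ⟨?_, ?_⟩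
      _ _ ?_
    · intro p p' hpp
      have h1 : uu p - uu p' ∈ sp (2 : R) := (Ideal.Quotient.mk_eq_mk_iff_sub_mem _ _).mp hpp
      fin_cases p <;> fin_cases p' <;> simp only [Fin.zero_eta, Fin.mk_one, Fin.reduceFinMk, u0, u1,
        u2, u3, mkz_sub] at h1 ⊢ <;> have h2 := mem2 _ _ h1 <;> omega
    · intro x
      obtain ⟨a, b, hab⟩ := exists_xy hR x.out
      have h1 : Ideal.Quotient.mk (sp (2 : R)) x.out = x := Ideal.Quotient.mk_out x
      have key2 : ∀ x' y' : ℤ, 2 ∣ x' → 2 ∣ y' → mkz hR x' y' ∈ sp (2 : R) := by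
        rintro x' y' ⟨c, rfl⟩ ⟨d, rfl⟩
        rw [Ideal.mem_span_singleton']
        exact ⟨mkz hR c d, by unfold mkz; push_cast; ring⟩
      rcases Int.emod_two_eq_zero_or_one a with ha | ha <;>
        rcases Int.emod_two_eq_zero_or_one b with hb | hb
      · refine ⟨0, ?_⟩
        simp only
        rw [← h1, Ideal.Quotient.mk_eq_mk_iff_sub_mem, u0, hab, mkz_sub]
        exact key2 _ _ (by omega) (by omega)
      · refine ⟨2, ?_⟩
        simp only
        rw [← h1, Ideal.Quotient.mk_eq_mk_iff_sub_mem, u2, hab, mkz_sub]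
        exact key2 _ _ (by omega) (by omega)
      · refine ⟨1, ?_⟩
        simp only
        rw [← h1, Ideal.Quotient.mk_eq_mk_iff_sub_mem, u1, hab, mkz_sub]
        exact key2 _ _ (by omega) (by omega)
      · refine ⟨3, ?_⟩
        simp only
        rw [← h1, Ideal.Quotient.mk_eq_mk_iff_sub_mem, u3, hab, mkz_sub]
        exact key2 _ _ (by omega) (by omega)
    · intro p
      refine hper _ _ ?_
      have := (sp (2 : R)).neg_mem (mk_out_sub (2 : R) (uu p))
      rwa [neg_sub] at this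
  rw [← key, Fin.sum_univ_four]
  rfl

include hR in
/-- the classes modulo `2 D` -/
lemma sum_crt {D : R} (hD : Pri D) [Fintype (R ⧸ sp D)] [Fintype (R ⧸ sp (2 : R))]
    [Fintype (R ⧸ sp (2 * D))] (h : R → ℂ)
    (hper : ∀ a b : R, a - b ∈ sp (2 * D) → h a = h b) :
    ∑ x : R ⧸ sp (2 * D), h x.out =
      ∑ u : R ⧸ sp (2 : R), ∑ w : R ⧸ sp D, h (D * u.out + 2 * w.out) := by
  obtain ⟨d0, hd0⟩ := hD.form hR
  obtain ⟨d, hd⟩ : ∃ d, D = 1 + 2 * d := ⟨(1 + ii hR) * d0, by rw [hd0]; unfold ff; ring⟩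
  rw [← Fintype.sum_prod_type
    (f := fun z : (R ⧸ sp (2 : R)) × (R ⧸ sp D) => h (D * z.1.out + 2 * z.2.out))]
  symm
  refine Fintype.sum_bijective (fun z : (R ⧸ sp (2 : R)) × (R ⧸ sp D) =>
    Ideal.Quotient.mk (sp (2 * D)) (D * z.1.out + 2 * z.2.out)) ⟨?_, ?_⟩ _ _ ?_
  · rintro ⟨u, w⟩ ⟨u', w'⟩ h1
    have h2 : (D * u.out + 2 * w.out) - (D * u'.out + 2 * w'.out) ∈ sp (2 * D) :=
      (Ideal.Quotient.mk_eq_mk_iff_sub_mem _ _).mp h1
    have hu : u = u' := by
      refine eq_of_out ?_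
      have h3 := (sp (2 : R)).sub_mem (mem_sp_mul_left h2)
        ((sp (2 : R)).mul_mem_right (w.out - w'.out + d * (u.out - u'.out))
          (Ideal.mem_span_singleton_self (2 : R)))
      convert h3 using 1
      linear_combination (-(u.out - u'.out)) * hd
    have hw : w = w' := by
      refine eq_of_out ?_
      have h3 := (sp D).sub_mem ((sp D).mul_mem_right (w.out - w'.out + d * (u.out - u'.out))
          (Ideal.mem_span_singleton_self D))
        ((sp D).mul_mem_left d (mem_sp_mul_right h2))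
      convert h3 using 1
      linear_combination (-(w.out - w'.out)) * hd
    rw [hu, hw]
  · intro x
    set y := x.out with hy
    have h1 := mk_out_sub (2 : R) y
    have h2 := mk_out_sub D (-d * y)
    rw [Ideal.mem_span_singleton'] at h1 h2
    obtain ⟨a, ha⟩ := h1
    obtain ⟨b, hb⟩ := h2
    refine ⟨(Ideal.Quotient.mk (sp (2 : R)) y, Ideal.Quotient.mk (sp D) (-d * y)), ?_⟩
    simp only
    have h3 : Ideal.Quotient.mk (sp (2 * D)) x.out = x := Ideal.Quotient.mk_out x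
    conv_rhs => rw [← h3]
    rw [Ideal.Quotient.mk_eq_mk_iff_sub_mem, Ideal.mem_span_singleton', ← hy]
    refine ⟨a + b, ?_⟩
    linear_combination D * ha + 2 * hb - y * hd
  · rintro ⟨u, w⟩
    refine hper _ _ ?_
    have := (sp (2 * D)).neg_mem (mk_out_sub (2 * D) (D * u.out + 2 * w.out))
    rwa [neg_sub] at this

/-- the value of the combination as a sum over the classes modulo two -/
lemma Fx_four {L : PeriodPair} {q Ω : ℂ} (n : ℕ) (z : ℂ) :
    Fx L q Ω n z = ek L 0 q n z - ek L 0 q n (z + Ω / 2) + ek L 0 q n (z + Ω * I / 2) -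
      ek L 0 q n (z + Ω * (1 + I) / 2) := rfl

/-- the nonvanishing of the central value follows from that of the finite sum -/
theorem nonvan1 (hbasic : H_BASIC) (hfp : H_FP) (hcnt : H_CNT) (hdec : H_DEC) (hafe : H_AFE)
    {L : PeriodPair} {Ω q : ℂ} (hL : IsLat L R Ω) (hCM : H667R3.CM L)
    (hq : ∀ l ∈ L.lattice, eta L l = 0 * l + q * (starRingEnd ℂ) l)
    {D : R} (hD : Pri D) {e : ℕ}
    {θ : Ideal R → ℂ} (hθ : HC (2 * e + 1) (sp (f2 hR * D)) θ) {χ : R → ℤ}
    (hχ : ∀ r : R, r - 1 ∈ sp (ff hR) → θ (sp r) = (kp hR r * ((χ r : ℤ) : ℂ)) * (r : ℂ) ^ (2 * e + 1))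
    (hper : ∀ r s : R, r - s ∈ sp D → χ r = χ s) (hmul : ∀ r s : R, χ (r * s) = χ r * χ s)
    (hf2 : χ (f2 hR) ≠ 0)
    (hne : rs D (fun r => ((χ r : ℤ) : ℂ) *
      Fx L q Ω e (Ω / (4 + 4 * I) + Ω * r / D)) ≠ 0) :
    ∃ F : ℂ → ℂ, Differentiable ℂ F ∧
      (∀ z : ℂ, ((e + 1 : ℕ) : ℝ) + 1 / 2 < z.re →
        HasSum (fun J : Ideal R => θ J * (nm J : ℂ) ^ (-z)) (F z)) ∧
      F ((e + 1 : ℕ) : ℂ) ≠ 0 := by
  classical
  have hD0 := hD.ne hR
  have hDC := coe_ne hD0
  set μ : R := f2 hR * D with hμdef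
  have hμ : μ ≠ 0 := mul_ne_zero (f2_ne hR) hD0
  have hμC := coe_ne hμ
  have hQR := qr hR
  obtain ⟨b1, b2, b3, b4, b5, b6, b7, -, -⟩ := hbasic R I hQR
  have hspne : sp μ ≠ ⊥ := by rwa [Ne, Ideal.span_singleton_eq_bot]
  have := b1 (sp μ) hspne
  have := Fintype.ofFinite (R ⧸ sp μ)
  have := b1 (sp D) (by rwa [Ne, Ideal.span_singleton_eq_bot])
  have := Fintype.ofFinite (R ⧸ sp D)
  have := b1 (sp (2 : R)) (by rw [Ne, Ideal.span_singleton_eq_bot]; exact two_ne_zero)
  have := Fintype.ofFinite (R ⧸ sp (2 : R))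
  have := b1 (sp (2 * D)) (by
    rw [Ne, Ideal.span_singleton_eq_bot]; exact mul_ne_zero two_ne_zero hD0)
  have := Fintype.ofFinite (R ⧸ sp (2 * D))
  obtain ⟨T, hS⟩ := sys_one hR hμ
  obtain ⟨F, hF1, hF2, hF3⟩ := lim_LK hbasic hfp hcnt hdec hafe hQR hθ hS
  refine ⟨F, hF1, hF2, fun hF0 => ?_⟩
  have hffμ : ∀ {a : R}, a ∈ sp μ → a ∈ sp (ff hR) := fun h => mem_f2_ff hR (mem_sp_mul_left h)
  have hqt : sp μ ≠ ⊤ := by
    intro h
    refine one_notMem hR (hffμ ?_)
    rw [h]
    exact Submodule.mem_top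
  obtain ⟨f1, f2', f3, f4, f5⟩ := hfp R I hQR (2 * e + 1) (sp μ) θ hθ hqt
  have hθ1 : θ ⊤ = 1 := by
    have h1 := hθ.princ 1 one_ne_zero (by rw [sub_self]; exact (sp _).zero_mem)
    have h2 : sp (1 : R) = ⊤ := Ideal.span_singleton_one
    rw [h2] at h1
    rw [h1]
    have h3 : ((1 : R) : ℂ) = 1 := rfl
    rw [h3, one_pow]
  have hnm : nm (⊤ : Ideal R) = 1 := (b7 ⊤).mpr rfl
  rw [hF0, map_zero, mul_zero] at hF3
  have hlim : Tendsto (fun δ : ℝ => SK e (ck e θ ⊤) δ) (𝓝[>] 0) (𝓝 0) := by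
    refine hF3.congr fun δ => ?_
    rw [Finset.sum_singleton, hθ1, hnm]
    simp
  set c : R → ℂ := ck e θ ⊤ with hc
  have hcv : ∀ r : R, c r = (starRingEnd ℂ) (fp (2 * e + 1) θ r) := by
    intro r
    rw [hc]
    unfold ck
    rw [if_pos Submodule.mem_top]
  have hcper : ∀ a b : R, a - b ∈ sp μ → c a = c b := by
    intro a b h
    rw [hcv, hcv, f5 a b h]
  have hc0' : ∀ r : R, ¬ IsCoprime (sp r) (sp μ) → c r = 0 := by
    intro r h
    rw [hcv, (f3 r).mpr h, map_zero]
  have hc0 : ∀ a ∈ sp μ, c a = 0 := by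
    intro a ha
    refine hc0' a fun h => hqt ?_
    have h1 : sp a ≤ sp μ := (Ideal.span_singleton_le_iff_mem _).mpr ha
    have h2 := Ideal.isCoprime_iff_sup_eq.mp h
    rwa [sup_eq_right.mpr h1] at h2
  have hc1 : ∀ a : R, ‖c a‖ ≤ 1 := by
    intro a
    by_cases h : IsCoprime (sp a) (sp μ)
    · rw [hcv, RCLike.norm_conj, f4 a h]
    · rw [hc0' a h, norm_zero]
      exact zero_le_one
  have hval := value hCM hq hbasic hQR hL e μ hμ c hcper hc0 hc1 hlim
  have hΩ := hL.ne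
  have hκ : gg e ((starRingEnd ℂ) ((μ : ℂ) / Ω)) ((μ : ℂ) / Ω) ≠ 0 := by
    have h : (μ : ℂ) / Ω ≠ 0 := div_ne_zero hμC hΩ
    unfold gg
    exact mul_ne_zero (pow_ne_zero _ ((map_ne_zero _).2 h)) (pow_ne_zero _ (inv_ne_zero h))
  have hqe : (q ^ e)⁻¹ ≠ 0 := inv_ne_zero (pow_ne_zero _ (q_ne hq))
  have hs : ∑ x : R ⧸ sp μ, c x.out * ek L 0 q e (Ω * x.out / μ) = 0 := by
    have h1 := (mul_eq_zero.1 hval.symm).resolve_left hκ
    exact (mul_eq_zero.1 h1).resolve_left hqe
  -- the invariance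
  have hinv : ∀ r, c (ii hR * r) * ek L 0 q e (Ω * ((ii hR * r : R) : ℂ) / μ) =
      c r * ek L 0 q e (Ω * r / μ) := by
    intro r
    by_cases hr : r ∈ sp μ
    · rw [hc0 r hr, hc0 _ ((sp μ).mul_mem_left _ hr), zero_mul, zero_mul]
    · have hz : Ω * r / μ ∉ L.lattice := fun h => hr ((lat_dm_iff hL μ hμ _).1 h)
      have e1 : Ω * ((ii hR * r : R) : ℂ) / μ = I * (Ω * r / μ) := by
        push_cast
        rw [ii_coe]
        ring
      have e2 : θ (sp (ii hR)) = 1 := by
        have h1 : sp (ii hR) = ⊤ := by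
          have := sp_ii hR 1 (1 : R)
          rw [pow_one, mul_one] at this
          rw [this]
          exact Ideal.span_singleton_one
        rw [h1, hθ1]
      rw [e1, ek_I hCM e hz, hcv, hcv, f2', map_mul]
      have e3 : (starRingEnd ℂ) (fp (2 * e + 1) θ (ii hR)) * (-I) ^ (2 * e + 1) = 1 := by
        unfold fp
        rw [e2, ii_coe, map_div₀, map_one, map_pow, Complex.conj_I, one_div]
        exact inv_mul_cancel₀ (pow_ne_zero _ (neg_ne_zero.mpr Complex.I_ne_zero))
      linear_combination ((starRingEnd ℂ) (fp (2 * e + 1) θ r) * ek L 0 q e (Ω * r / μ)) * e3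
  set g : R → ℂ := fun r => c r * ek L 0 q e (Ω * r / μ) with hg
  have hgper : ∀ a b : R, a - b ∈ sp μ → g a = g b := by
    intro a b hab
    simp only [hg]
    by_cases hb : b ∈ sp μ
    · have ha : a ∈ sp μ := by
        have := (sp μ).add_mem hab hb
        rwa [sub_add_cancel] at this
      rw [hc0 a ha, hc0 b hb, zero_mul, zero_mul]
    · rw [hcper a b hab]
      congr 1
      have hz : Ω * b / μ ∉ L.lattice := fun h => hb ((lat_dm_iff hL μ hμ _).1 h)
      refine ek_per hq e hz ?_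
      have := (lat_dm_iff hL μ hμ (a - b)).2 hab
      convert this using 1
      push_cast
      ring
  have hμ2 : μ = ff hR * (2 * D) := by rw [hμdef]; unfold f2; ring
  have hDff := hD.ff hR
  have hself : ∀ r : R, ff hR * r ∈ sp (ff hR) := fun r =>
    (sp (ff hR)).mul_mem_right r (Ideal.mem_span_singleton_self _)
  -- the values
  have gval : ∀ (x y : ℤ) (w : R), g (D + ff hR * (D * mkz hR x y + 2 * w)) =
      kp hR D * ((χ (f2 hR) : ℤ) : ℂ) * (((χ w : ℤ) : ℂ) * ((if Even x then (1 : ℂ) else -1) *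
        ek L 0 q e (Ω / (4 + 4 * I) + Ω * w / D + Ω * ((x : ℂ) + y * I) / 2))) := by
    intro x y w
    set r : R := D + ff hR * (D * mkz hR x y + 2 * w) with hr
    have hr1 : r - 1 ∈ sp (ff hR) := by
      have := (sp (ff hR)).add_mem hDff (hself (D * mkz hR x y + 2 * w))
      convert this using 1
      rw [hr]
      ring
    have hr0 : r ≠ 0 := by
      intro h
      rw [h, zero_sub] at hr1
      have := (sp (ff hR)).neg_mem hr1
      rw [neg_neg] at this
      exact one_notMem hR this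
    have hu1 : (1 + ff hR * mkz hR x y) - 1 ∈ sp (ff hR) := by
      rw [add_sub_cancel_left]
      exact hself _
    have hDu : D * (1 + ff hR * mkz hR x y) - 1 ∈ sp (ff hR) := by
      have := (sp (ff hR)).add_mem ((sp (ff hR)).mul_mem_left D hu1) hDff
      convert this using 1
      ring
    have h7 : kp hR r = kp hR D * (if Even x then (1 : ℂ) else -1) := by
      rw [kp_per hR hr1 (β := D * (1 + ff hR * mkz hR x y)), kp_mul hR hDff hu1,
        kp_eq hR (x := x) (y := y) rfl]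
      have : r - D * (1 + ff hR * mkz hR x y) = w * f2 hR := by
        rw [hr]; unfold f2; ring
      rw [this]
      exact (sp (f2 hR)).mul_mem_left w (Ideal.mem_span_singleton_self _)
    have h8 : χ r = χ (f2 hR) * χ w := by
      rw [← hmul]
      refine hper _ _ ?_
      have : r - f2 hR * w = D * (1 + ff hR * mkz hR x y) := by
        rw [hr]; unfold f2; ring
      rw [this]
      exact (sp D).mul_mem_right _ (Ideal.mem_span_singleton_self _)
    have h9 : c r = kp hR r * ((χ r : ℤ) : ℂ) := by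
      rw [hcv]
      unfold fp
      rw [hχ _ hr1, mul_div_cancel_right₀ _ (pow_ne_zero _ (coe_ne hr0)), map_mul, kp_conj,
        map_intCast]
    have h10 : Ω * (r : ℂ) / μ = Ω / (4 + 4 * I) + Ω * w / D + Ω * ((x : ℂ) + y * I) / 2 := by
      have e5 : ∀ f p w m : ℂ, f ≠ 0 → p ≠ 0 → Ω * (p + f * (p * m + 2 * w)) / (2 * f * p) =
          Ω / (2 * f) + Ω * w / p + Ω * m / 2 := by
        intro f p w m hf hp
        field_simp
        ring
      have h2 : ((2 : R) : ℂ) = 2 := rfl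
      have h3 : (4 + 4 * I : ℂ) = 2 * (2 + 2 * I) := by ring
      rw [hr, hμdef]
      unfold f2
      push_cast
      rw [ff_coe, mkz_coe, h2, e5 _ _ _ _ one_ne hDC, h3]
    simp only [hg]
    rw [h9, h7, h8, h10]
    push_cast
    ring
  have hs' : rs μ g = 0 := by rw [rs_eq]; exact hs
  rw [hμ2] at hs'
  rw [hμ2] at hgper
  have := b1 (sp (ff hR * (2 * D))) (by rw [← hμ2]; exact hspne)
  have := Fintype.ofFinite (R ⧸ sp (ff hR * (2 * D)))
  rw [rs_eq, sum_four' hR hDff g hgper hinv] at hs'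
  · have h4 : (4 : ℂ) ≠ 0 := by norm_num
    have h5 := (mul_eq_zero.1 hs').resolve_left h4
    rw [sum_crt hR hD (fun y => g (D + ff hR * y)) (fun a b hab => hgper _ _ (by
      have := mul_mem_sp (D := ff hR) hab
      convert this using 1
      ring)), Finset.sum_comm] at h5
    have h6 : ∀ w : R ⧸ sp D, ∑ u : R ⧸ sp (2 : R), g (D + ff hR * (D * u.out + 2 * w.out)) =
        kp hR D * ((χ (f2 hR) : ℤ) : ℂ) * (((χ w.out : ℤ) : ℂ) *
          Fx L q Ω e (Ω / (4 + 4 * I) + Ω * w.out / D)) := by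
      intro w
      rw [sum_two hR (fun u => g (D + ff hR * (D * u + 2 * w.out))) (fun a b hab => hgper _ _ (by
        have h7 : a - b ∈ sp (2 : R) := hab
        have h8 := mul_mem_sp (D := ff hR) (mul_mem_sp' (p := D) h7)
        convert h8 using 1
        ring))]
      have m0 : (0 : R) = mkz hR 0 0 := by unfold mkz; push_cast; ring
      have m2 : ii hR = mkz hR 0 1 := by unfold mkz; push_cast; ring
      have m3 : 1 + ii hR = mkz hR 1 1 := by unfold mkz; push_cast; ring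
      have g0 := gval 0 0 w.out
      have g1 := gval 1 0 w.out
      have g2 := gval 0 1 w.out
      have g3 := gval 1 1 w.out
      rw [← m0] at g0
      rw [← mkz_one hR] at g1
      rw [← m2] at g2
      rw [← m3] at g3
      rw [g0, g1, g2, g3, Fx_four, if_pos (by decide : Even (0 : ℤ)),
        if_neg (by decide : ¬ Even (1 : ℤ))]
      have a0 : Ω / (4 + 4 * I) + Ω * w.out / D + Ω * (((0 : ℤ) : ℂ) + ((0 : ℤ) : ℂ) * I) / 2 =
          Ω / (4 + 4 * I) + Ω * w.out / D := by push_cast; ring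
      have a1 : Ω / (4 + 4 * I) + Ω * w.out / D + Ω * (((1 : ℤ) : ℂ) + ((0 : ℤ) : ℂ) * I) / 2 =
          Ω / (4 + 4 * I) + Ω * w.out / D + Ω / 2 := by push_cast; ring
      have a2 : Ω / (4 + 4 * I) + Ω * w.out / D + Ω * (((0 : ℤ) : ℂ) + ((1 : ℤ) : ℂ) * I) / 2 =
          Ω / (4 + 4 * I) + Ω * w.out / D + Ω * I / 2 := by push_cast; ring
      have a3 : Ω / (4 + 4 * I) + Ω * w.out / D + Ω * (((1 : ℤ) : ℂ) + ((1 : ℤ) : ℂ) * I) / 2 =
          Ω / (4 + 4 * I) + Ω * w.out / D + Ω * (1 + I) / 2 := by push_cast; ring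
      rw [a0, a1, a2, a3]
      ring
    rw [Finset.sum_congr rfl (fun w _ => h6 w), ← Finset.mul_sum] at h5
    apply hne
    rw [rs_eq]
    refine (mul_eq_zero.1 h5).resolve_left (mul_ne_zero ?_ ?_)
    · exact left_ne_zero_of_mul_eq_one (kp_sq hR D)
    · exact_mod_cast hf2
  · intro r hr
    have : c r = 0 := by
      refine hc0' r fun h => hr ?_
      have h1 : sp μ = sp (f2 hR) * sp D := (Ideal.span_singleton_mul_span_singleton _ _).symm
      rw [h1] at h
      exact (cop_f2 hR _).mp h.of_mul_right_left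
    simp only [hg]
    rw [this, zero_mul]

end Pool.Agent.Y690.AW
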