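import Pool.Agent.Y690.W.Pt

/-!
# The combination of the values is a unit up to a power of the uniformiser
-/

set_option autoImplicit false
set_option linter.unusedSectionVars false
set_option linter.unusedSimpArgs false

open scoped PeriodPair

namespace Pool.Agent.Y690.AW

open H667R3 Pool.Agent.TH936.CW MvPolynomial Pool.Agent.Y690.NV

section gen

variable {Γ : Type*} [LinearOrderedCommGroupWithZero Γ] (v : Valuation ℂ Γ)

/-- congruent to one -/
def N1 (a : ℂ) : Prop := v (a - 1) < 1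

variable {v}

lemma N1.val {a : ℂ} (h : N1 v a) : v a = 1 := by
  have h1 : a = 1 + (a - 1) := by ring
  rw [h1, Valuation.map_add_eq_of_lt_left v (by rw [map_one]; exact h), map_one]

lemma N1.one : N1 v 1 := by
  unfold N1
  rw [sub_self, map_zero]
  exact zero_lt_one

lemma N1.mul {a b : ℂ} (h : N1 v a) (h' : N1 v b) : N1 v (a * b) := by
  unfold N1
  have e : a * b - 1 = a * (b - 1) + (a - 1) := by ring
  rw [e]
  refine (v.map_add _ _).trans_lt (max_lt ?_ h)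
  rw [map_mul, h.val, one_mul]
  exact h'

lemma N1.pow {a : ℂ} (h : N1 v a) (n : ℕ) : N1 v (a ^ n) := by
  induction n with
  | zero => rw [pow_zero]; exact N1.one
  | succ n ih => rw [pow_succ]; exact ih.mul h

lemma N1.add {a b : ℂ} (h : N1 v a) (h' : v b < 1) : N1 v (a + b) := by
  unfold N1
  have e : a + b - 1 = (a - 1) + b := by ring
  rw [e]
  exact (v.map_add _ _).trans_lt (max_lt h h')

lemma N1.neg {a : ℂ} (h2 : v 2 < 1) (h : N1 v a) : N1 v (-a) := by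
  unfold N1
  have e : -a - 1 = -(a - 1) + -2 := by ring
  rw [e]
  refine (v.map_add _ _).trans_lt (max_lt ?_ ?_)
  · rw [Valuation.map_neg]; exact h
  · rw [Valuation.map_neg]; exact h2

lemma N1.of_sq {a : ℂ} (h2 : v 2 < 1) (h : N1 v (a ^ 2)) : N1 v a := by
  unfold N1 at h ⊢
  by_contra hcon
  push Not at hcon
  have e : a ^ 2 - 1 = (a - 1) * ((a - 1) + 2) := by ring
  rw [e, map_mul, Valuation.map_add_eq_of_lt_left v (h2.trans_le hcon)] at h
  exact absurd h (not_lt.mpr (one_le_mul hcon hcon))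

end gen

section val

variable {Γ : Type*} [LinearOrderedCommGroupWithZero Γ] {v : Valuation ℂ Γ} {ρ : ℂ}
  (hρ : ρ ^ 4 = 2) (hr : v ρ < 1)

lemma v_j {j : ℂ} (hj : j ^ 2 = -1) : v j = 1 := by
  have h : v j ^ 2 = 1 ^ 2 := by rw [← map_pow, hj, Valuation.map_neg, map_one, one_pow]
  exact (pow_left_inj₀ zero_le zero_le (by norm_num)).mp h

lemma v_one_add_j (h2 : v 2 < 1) {j : ℂ} (hj : j ^ 2 = -1) : v (1 + j) < 1 := by
  by_contra hcon
  push Not at hcon
  have e : (1 + j) * (1 + j) = 2 * j := by linear_combination hj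
  have h := congrArg v e
  rw [map_mul, map_mul, v_j hj, mul_one] at h
  have h3 := one_le_mul hcon hcon
  rw [h] at h3
  exact absurd h2 (not_lt.mpr h3)

include hρ hr in
lemma two_lt : v 2 < 1 := by rw [v_two hρ]; exact pow_lt_one' hr (by norm_num)

include hρ hr in
/-- the square root -/
lemma root_one {j X f : ℂ} (hj : j ^ 2 = -1) (hX : v (ρ ^ 2 * (X - 1 / 2)) < 1)
    (hf : f ^ 2 = X - j / 2) : N1 v (ρ * f) := by
  have h2 := two_lt hρ hr
  refine N1.of_sq h2 ?_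
  have e : (ρ * f) ^ 2 = (1 - j) * ρ ^ 2 / 2 + ρ ^ 2 * (X - 1 / 2) := by
    rw [mul_pow, hf]; ring
  rw [e]
  refine N1.add (N1.of_sq h2 ?_) hX
  have e2 : ((1 - j) * ρ ^ 2 / 2) ^ 2 = -j := by
    linear_combination ((1 - j) ^ 2 / 4) * hρ + (1 / 2) * hj
  rw [e2]
  unfold N1
  rw [show -j - 1 = -(1 + j) by ring, Valuation.map_neg]
  exact v_one_add_j h2 hj

variable {L : PeriodPair} {q : ℂ}

lemma pt4_dbl {j u₁ u₂ u₃ z : ℂ} (h : H3 L q j u₁ u₂ u₃) (hL : CM L) (g2 : L.g₂ = -1)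
    (hz : 2 * z ∉ L.lattice) : pt4 L q j z 0 = E1 L 0 q (2 * z) ∧
    pt4 L q j z 3 ^ 2 = ℘[L] (2 * z) ∧ pt4 L q j z 1 ^ 2 = ℘[L] (2 * z) - j / 2 ∧
    pt4 L q j z 2 ^ 2 = ℘[L] (2 * z) + j / 2 := by
  obtain ⟨r1, r2, r3, r4⟩ := rels h hL g2 hz
  have hj := h.jj
  have v0 : pt4 L q j z 0 = 2 * E1 L 0 q z + (1 / 2) * (sl L (j / 2) z + sl L (-j / 2) z + sl L 0 z) :=
    rfl
  have v1 : pt4 L q j z 1 = (1 / 2) * (sl L (j / 2) z - sl L (-j / 2) z - sl L 0 z) := rfl
  have v2 : pt4 L q j z 2 = (1 / 2) * (sl L (-j / 2) z - sl L (j / 2) z - sl L 0 z) := rfl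
  have v3 : pt4 L q j z 3 = (1 / 2) * (sl L 0 z - sl L (j / 2) z - sl L (-j / 2) z) := rfl
  have hy := wp'_ne_zero L hz
  have key : (6 * ℘[L] z ^ 2 - L.g₂ / 2) / (2 * ℘'[L] z) =
      (1 / 2) * (sl L (j / 2) z + sl L (-j / 2) z + sl L 0 z) := by
    rw [div_eq_iff (mul_ne_zero two_ne_zero hy), g2]
    have e : ℘'[L] z = 2 * (sl L (j / 2) z * sl L (-j / 2) z * sl L 0 z) := by rw [r4]; ring
    rw [e]
    generalize sl L (j / 2) z = p1 at *
    generalize sl L (-j / 2) z = p2 at *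
    generalize sl L 0 z = p3 at *
    generalize ℘[L] z = x at *
    have e1 : (1 / 2) * (p1 + p2 + p3) * (2 * (2 * (p1 * p2 * p3))) =
        2 * ((p1 * p2) * (p1 * p3) + (p1 * p2) * (p2 * p3) + (p1 * p3) * (p2 * p3)) := by ring
    rw [e1, r1, r2, r3]
    linear_combination (1 / 2) * hj
  have h3 : pt4 L q j z 3 ^ 2 = ℘[L] (2 * z) := by
    have e : (6 * ℘[L] z ^ 2 - L.g₂ / 2) ^ 2 / (4 * ℘'[L] z ^ 2) =
        ((6 * ℘[L] z ^ 2 - L.g₂ / 2) / (2 * ℘'[L] z)) ^ 2 := by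
      rw [div_pow, mul_pow]; norm_num
    rw [wp_two L hz, e, key, v3]
    linear_combination -r2 - r3
  refine ⟨?_, h3, ?_, ?_⟩
  · rw [E1_dup hz, key, v0]
  · rw [← h3, v1, v3]
    linear_combination r3 - r1
  · rw [← h3, v2, v3]
    linear_combination r2 - r1

/-- the evaluation of the scaled polynomials -/
noncomputable def ev8 (ρ : ℂ) (w : Fin 4 → ℂ) : Q8 →+* ℂ := (eval w).comp (κ8 ρ)

include hρ hr in
lemma ev8_le {w : Fin 4 → ℂ} (h0 : v (2 * w 0) ≤ 1) (h1 : v (ρ * w 1) ≤ 1) (h2 : v (ρ * w 2) ≤ 1)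
    (h3 : v (ρ ^ 2 * w 3) ≤ 1) (hX : v (2 * eval w bX) ≤ 1) (hG : v (4 * eval w bG) ≤ 1)
    (hK : v (8 * eval w bK) ≤ 1) (p : Q8) : v (ev8 ρ w p) ≤ 1 := by
  have e8 : ρ ^ 8 = 4 := by
    have : ρ ^ 8 = (ρ ^ 4) ^ 2 := by ring
    rw [this, hρ]; norm_num
  have e12 : ρ ^ 12 = 8 := by
    have : ρ ^ 12 = (ρ ^ 4) ^ 3 := by ring
    rw [this, hρ]; norm_num
  induction p using MvPolynomial.induction_on with
  | C a =>
    have : ev8 ρ w (C a) = (a : ℂ) := by
      unfold ev8 κ8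
      rw [RingHom.comp_apply, eval₂Hom_C]
      simp
    rw [this]
    exact v_int v a
  | add p q hp hq =>
    rw [map_add]
    exact (v.map_add _ _).trans (max_le hp hq)
  | mul_X p i hp =>
    rw [map_mul, map_mul]
    refine mul_le_one' hp ?_
    unfold ev8
    rw [RingHom.comp_apply]
    fin_cases i
    · show v (eval w (κ8 ρ qR)) ≤ 1
      rw [κ_R, eval_C]
      exact hr.le
    · show v (eval w (κ8 ρ qe)) ≤ 1
      rw [κ_e, map_mul, eval_C, hρ, ev4_E]
      exact h0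
    · show v (eval w (κ8 ρ q1)) ≤ 1
      rw [κ_1, map_mul, eval_C, ev4_1]
      exact h1
    · show v (eval w (κ8 ρ q2)) ≤ 1
      rw [κ_2, map_mul, eval_C, ev4_2]
      exact h2
    · show v (eval w (κ8 ρ q3)) ≤ 1
      rw [κ_3, map_mul, eval_C, ev4_3]
      exact h3
    · show v (eval w (κ8 ρ qx)) ≤ 1
      rw [κ_x, map_mul, eval_C, hρ]
      exact hX
    · show v (eval w (κ8 ρ qg)) ≤ 1
      rw [κ_g, map_mul, eval_C, e8]
      exact hG
    · show v (eval w (κ8 ρ qk)) ≤ 1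
      rw [κ_k, map_mul, eval_C, e12]
      exact hK

include hρ hr in
/-- **the value** -/
theorem W_near {j u₁ u₂ u₃ z : ℂ} (h : H3 L q j u₁ u₂ u₃) (hL : CM L) (g2 : L.g₂ = -1)
    (hz : 2 * z ∉ L.lattice) (hX : v (ρ ^ 2 * (℘[L] (2 * z) - 1 / 2)) < 1)
    (hE : N1 v (2 * E1 L 0 q (2 * z))) (n : ℕ) :
    ∃ w : ℂ, N1 v w ∧ ρ * ((ρ ^ 6) ^ n * ((n.factorial : ℂ) * FF L q u₁ u₂ u₃ n z)) = 2 * w := by
  have h2 := two_lt hρ hr
  have hj := h.jj
  obtain ⟨d0, d3, d1, d2⟩ := pt4_dbl h hL g2 hz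
  set w := pt4 L q j z with hw
  refine ⟨ev8 ρ w (Gs n), ?_, ?_⟩
  · have n1 : N1 v (ρ * w 1) := root_one hρ hr hj hX d1
    have n2 : N1 v (ρ * w 2) := root_one hρ hr (j := -j) (by rw [neg_sq, hj]) hX
      (by rw [d2]; ring)
    have n0 : N1 v (2 * w 0) := by rw [d0]; exact hE
    have nX : N1 v (2 * ℘[L] (2 * z)) := by
      have e : 2 * ℘[L] (2 * z) = 1 + ρ ^ 2 * (ρ ^ 2 * (℘[L] (2 * z) - 1 / 2)) := by
        linear_combination (-(℘[L] (2 * z) - 1 / 2)) * hρ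
      rw [e]
      refine N1.one.add ?_
      rw [map_mul, mul_comm]
      refine mul_lt_one_of_lt_of_le hX ?_
      rw [map_pow]
      exact pow_le_one' hr.le 2
    have n3 : N1 v (ρ ^ 2 * w 3) := by
      refine N1.of_sq h2 ?_
      rw [mul_pow, d3]
      have : (ρ ^ 2) ^ 2 = 2 := by rw [← hρ]; ring
      rw [this]
      exact nX
    have hbX : eval w bX = ℘[L] (2 * z) := by
      rw [ev4_X, d1, d2, d3]; ring
    have hbG : eval w bG = -1 / 12 := by
      have e1 : w 1 ^ 4 = (℘[L] (2 * z) - j / 2) ^ 2 := by rw [← d1]; ring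
      have e2 : w 2 ^ 4 = (℘[L] (2 * z) + j / 2) ^ 2 := by rw [← d2]; ring
      have e3 : w 3 ^ 4 = ℘[L] (2 * z) ^ 2 := by rw [← d3]; ring
      rw [ev4_G, e1, e2, e3, d1, d2, d3]
      linear_combination (1 / 12) * hj
    have hbK : eval w bK = 0 := by
      unfold bK
      rw [map_sub, map_sub, map_pow, map_pow, map_mul, map_mul, map_mul, map_mul, hbX, hbG, ev4_1,
        ev4_2, ev4_3]
      have e : (w 1 * w 2 * w 3) ^ 2 = w 1 ^ 2 * w 2 ^ 2 * w 3 ^ 2 := by ring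
      rw [e, d1, d2, d3, map_ofNat]
      linear_combination (℘[L] (2 * z) / 4) * hj
    have hle : ∀ p : Q8, v (ev8 ρ w p) ≤ 1 := by
      refine ev8_le hρ hr n0.val.le n1.val.le n2.val.le n3.val.le ?_ ?_ ?_
      · rw [hbX]; exact nX.val.le
      · rw [hbG]
        have e : (4 : ℂ) * (-1 / 12) = -(1 / 3) := by norm_num
        have v3 : v (3 : ℂ) = 1 := by
          have := v_odd v h2 (n := 3) (by decide)
          exact_mod_cast this
        rw [e, Valuation.map_neg, map_div₀, v3, map_one, div_one]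
      · rw [hbK, mul_zero, map_zero]; exact zero_le_one
    have hR : ev8 ρ w qR = ρ := by
      unfold ev8
      rw [RingHom.comp_apply, κ_R, eval_C]
    have m0 : N1 v (ev8 ρ w qe) := by
      unfold ev8
      rw [RingHom.comp_apply, κ_e, map_mul, eval_C, hρ, ev4_E]
      exact n0
    have m1 : N1 v (ev8 ρ w q1) := by
      unfold ev8
      rw [RingHom.comp_apply, κ_1, map_mul, eval_C, ev4_1]
      exact n1
    have m2 : N1 v (ev8 ρ w q2) := by
      unfold ev8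
      rw [RingHom.comp_apply, κ_2, map_mul, eval_C, ev4_2]
      exact n2
    have m3 : N1 v (ev8 ρ w q3) := by
      unfold ev8
      rw [RingHom.comp_apply, κ_3, map_mul, eval_C, ev4_3]
      exact n3
    have hsm : ∀ u : Q8, v (ev8 ρ w (qR ^ 2 * u)) < 1 := by
      intro u
      rw [map_mul, map_pow, hR, map_mul, map_pow]
      exact mul_lt_one_of_lt_of_le (pow_lt_one' hr (by norm_num)) (hle u)
    rcases Nat.even_or_odd' n with ⟨m, hm | hm⟩
    · obtain ⟨⟨u, hu⟩, -⟩ := Gs_struct m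
      rw [hm, hu, map_add]
      refine N1.add ?_ (hsm u)
      rw [map_mul, map_pow, map_mul]
      exact ((m0.mul m3).pow _).mul m2
    · obtain ⟨-, u, hu⟩ := Gs_struct m
      rw [hm, hu, map_add]
      refine N1.add ?_ (hsm u)
      rw [map_neg, map_mul, map_pow, map_mul]
      exact (((m0.mul m3).pow _).mul m1).neg h2
  · have h5 := congrArg (eval w) (Kn_scale ρ n).1
    rw [map_mul, map_mul, map_mul, map_pow, eval_C, eval_C, ← FF_eval h hL g2 hz, map_ofNat] at h5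
    exact h5

end val

end Pool.Agent.Y690.AW
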