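import Pool.Agent.Y690.W.Sieve
import Pool.Agent.Y690.W.Det

/-!
# Parities and the exact valuation of the twisted sums
-/

set_option autoImplicit false
set_option linter.unusedSectionVars false
set_option linter.unusedSimpArgs false

namespace Pool.Agent.Y690.AW

open Pool.Agent.Y690.NV Pool.Agent.W192.HK
open Pool.Agent.TH936.CM (IsLat out_sub)
open Complex (I)

section par

variable {Γ : Type*} [LinearOrderedCommGroupWithZero Γ] (v : Valuation ℂ Γ)

/-- `x / 2 ^ k` has residue `a` -/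
def Pm (k : ℕ) (x : ℂ) (a : ZMod 2) : Prop :=
  ∃ m : ℤ, ((m : ℤ) : ZMod 2) = a ∧ v (x - 2 ^ k * m) < v 2 ^ k

variable {v}
variable (h2 : v 2 < 1)

lemma v2_pos : 0 < v 2 := by
  rw [zero_lt_iff, Ne, map_eq_zero]
  norm_num

lemma Pm.le {k : ℕ} {x : ℂ} {a : ZMod 2} (h : Pm v k x a) : v x ≤ v 2 ^ k := by
  obtain ⟨m, -, hm⟩ := h
  have e : x = (x - 2 ^ k * m) + 2 ^ k * m := by ring
  rw [e]
  refine (v.map_add _ _).trans (max_le hm.le ?_)
  rw [map_mul, map_pow]
  exact mul_le_of_le_one_right' (v_int v m)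

lemma Pm.add {k : ℕ} {x y : ℂ} {a b : ZMod 2} (h : Pm v k x a) (h' : Pm v k y b) :
    Pm v k (x + y) (a + b) := by
  obtain ⟨m, hm1, hm2⟩ := h
  obtain ⟨n, hn1, hn2⟩ := h'
  refine ⟨m + n, by rw [Int.cast_add, hm1, hn1], ?_⟩
  have e : x + y - 2 ^ k * ((m + n : ℤ) : ℂ) = (x - 2 ^ k * m) + (y - 2 ^ k * n) := by
    push_cast; ring
  rw [e]
  exact (v.map_add _ _).trans_lt (max_lt hm2 hn2)

lemma Pm.neg {k : ℕ} {x : ℂ} {a : ZMod 2} (h : Pm v k x a) : Pm v k (-x) a := by
  obtain ⟨m, hm1, hm2⟩ := h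
  refine ⟨-m, ?_, ?_⟩
  · rw [Int.cast_neg, hm1]
    exact ZModModule.neg_eq_self a
  · have e : -x - 2 ^ k * ((-m : ℤ) : ℂ) = -(x - 2 ^ k * m) := by push_cast; ring
    rw [e, Valuation.map_neg]
    exact hm2

lemma Pm.sub {k : ℕ} {x y : ℂ} {a b : ZMod 2} (h : Pm v k x a) (h' : Pm v k y b) :
    Pm v k (x - y) (a + b) := by
  rw [sub_eq_add_neg]
  exact h.add h'.neg

lemma Pm.mul {k l : ℕ} {x y : ℂ} {a b : ZMod 2} (h : Pm v k x a) (h' : Pm v l y b) :
    Pm v (k + l) (x * y) (a * b) := by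
  have hx := h.le
  obtain ⟨m, hm1, hm2⟩ := h
  obtain ⟨n, hn1, hn2⟩ := h'
  refine ⟨m * n, by rw [Int.cast_mul, hm1, hn1], ?_⟩
  have e : x * y - 2 ^ (k + l) * ((m * n : ℤ) : ℂ) = x * (y - 2 ^ l * n) +
      (x - 2 ^ k * m) * (2 ^ l * n) := by
    push_cast; ring
  rw [e]
  refine (v.map_add _ _).trans_lt (max_lt ?_ ?_)
  · rw [map_mul, pow_add]
    calc v x * v (y - 2 ^ l * n) ≤ v 2 ^ k * v (y - 2 ^ l * n) := mul_le_mul_left hx _
      _ < v 2 ^ k * v 2 ^ l := mul_lt_mul_of_pos_left hn2 (pow_pos v2_pos k)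
  · rw [map_mul, pow_add, map_mul, map_pow]
    calc v (x - 2 ^ k * m) * (v 2 ^ l * v (n : ℂ)) ≤ v (x - 2 ^ k * m) * v 2 ^ l :=
          mul_le_mul_right (mul_le_of_le_one_right' (v_int v n)) _
      _ < v 2 ^ k * v 2 ^ l := mul_lt_mul_of_pos_right hm2 (pow_pos v2_pos l)

lemma Pm.zero {k : ℕ} {x : ℂ} (h : v x < v 2 ^ k) : Pm v k x 0 :=
  ⟨0, by simp, by simpa using h⟩

lemma Pm.one : Pm v 0 (1 : ℂ) 1 := ⟨1, by simp, by simp⟩

lemma Pm.of_N1 {x : ℂ} (h : N1 v x) : Pm v 0 x 1 := ⟨1, by simp, by simpa [N1] using h⟩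

lemma Pm.sum {ι : Type*} {k : ℕ} (s : Finset ι) {x : ι → ℂ} {a : ι → ZMod 2}
    (h : ∀ i ∈ s, Pm v k (x i) (a i)) : Pm v k (∑ i ∈ s, x i) (∑ i ∈ s, a i) := by
  classical
  induction s using Finset.induction_on with
  | empty =>
    rw [Finset.sum_empty, Finset.sum_empty]
    refine Pm.zero ?_
    rw [map_zero]
    exact pow_pos v2_pos k
  | insert i s hi ih =>
    rw [Finset.sum_insert hi, Finset.sum_insert hi]
    exact (h i (Finset.mem_insert_self _ _)).add
      (ih fun j hj => h j (Finset.mem_insert_of_mem hj))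

lemma Pm.prod {ι : Type*} (s : Finset ι) {x : ι → ℂ} {a : ι → ZMod 2}
    (h : ∀ i ∈ s, Pm v 1 (x i) (a i)) : Pm v s.card (∏ i ∈ s, x i) (∏ i ∈ s, a i) := by
  classical
  induction s using Finset.induction_on with
  | empty =>
    rw [Finset.prod_empty, Finset.prod_empty, Finset.card_empty]
    exact Pm.one
  | insert i s hi ih =>
    rw [Finset.prod_insert hi, Finset.prod_insert hi, Finset.card_insert_of_notMem hi, add_comm]
    exact (h i (Finset.mem_insert_self _ _)).mul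
      (ih fun j hj => h j (Finset.mem_insert_of_mem hj))

include h2 in
lemma Pm.val_one {k : ℕ} {x : ℂ} (h : Pm v k x 1) : v x = v 2 ^ k := by
  obtain ⟨m, hm1, hm2⟩ := h
  have h3 : v (m : ℂ) = 1 := by
    have h4 : Odd m := by
      rw [← Int.not_even_iff_odd]
      intro h5
      have := (ZMod.intCast_zmod_eq_zero_iff_dvd m 2).mpr (by
        obtain ⟨c, hc⟩ := h5
        exact ⟨c, by push_cast; omega⟩)
      rw [this] at hm1
      exact zero_ne_one hm1
    have h6 := v_gauss_odd h2 (a := m) (b := 0) (by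
      rw [add_zero]
      intro h7
      obtain ⟨c, hc⟩ := h4
      omega)
    simpa using h6
  have e : x = 2 ^ k * m + (x - 2 ^ k * m) := by ring
  rw [e, Valuation.map_add_eq_of_lt_left v (by rwa [map_mul, map_pow, h3, mul_one]), map_mul,
    map_pow, h3, mul_one]

include h2 in
lemma Pm.ne_zero {k : ℕ} {x : ℂ} (h : Pm v k x 1) : x ≠ 0 := by
  rintro rfl
  have := h.val_one h2
  rw [map_zero] at this
  exact (pow_pos (v2_pos (v := v)) k).ne this

include h2 in
/-- the product of two numbers congruent to one modulo two -/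
lemma Pm.mul_one_sub {x y : ℂ} {a b : ZMod 2} (h : Pm v 1 (1 - x) a) (h' : Pm v 1 (1 - y) b) :
    Pm v 1 (1 - x * y) (a + b) := by
  have e : 1 - x * y = (1 - x) + (1 - y) - (1 - x) * (1 - y) := by ring
  rw [e, ← add_zero (a + b)]
  refine (h.add h').sub (Pm.zero ?_)
  rw [map_mul]
  calc v (1 - x) * v (1 - y) ≤ v 2 ^ 1 * v 2 ^ 1 := mul_le_mul' h.le h'.le
    _ < v 2 ^ 1 * 1 := by
        refine mul_lt_mul_of_pos_left ?_ (pow_pos v2_pos 1)
        rw [pow_one]
        exact h2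
    _ = v 2 ^ 1 := mul_one _

include h2 in
lemma Pm.prod_one_sub {ι : Type*} (s : Finset ι) {x : ι → ℂ} {a : ι → ZMod 2}
    (h : ∀ i ∈ s, Pm v 1 (1 - x i) (a i)) : Pm v 1 (1 - ∏ i ∈ s, x i) (∑ i ∈ s, a i) := by
  classical
  induction s using Finset.induction_on with
  | empty =>
    rw [Finset.sum_empty, Finset.prod_empty, sub_self]
    refine Pm.zero ?_
    rw [map_zero]
    exact pow_pos v2_pos 1
  | insert i s hi ih =>
    rw [Finset.sum_insert hi, Finset.prod_insert hi]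
    exact (h i (Finset.mem_insert_self _ _)).mul_one_sub h2
      (ih fun j hj => h j (Finset.mem_insert_of_mem hj))

end par

variable {R : Subring ℂ}

open Classical in
/-- the symbols in additive form -/
noncomputable def aa (p l : R) : ZMod 2 := if qs l p = -1 then 1 else 0

section main

variable {Γ : Type*} [LinearOrderedCommGroupWithZero Γ] {v : Valuation ℂ Γ}
  (h2 : v 2 < 1) {G : R → R → ℂ} {c : R → ℂ} (h : DS G c) {t : R → ZMod 2}
  (hG : ∀ D r : R, Pri D → N1 v (G D r))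
  (hR : ∀ z : ℂ, z ∈ R ↔ ∃ x y : ℤ, z = x + y * I)

lemma qs_par {p l : R} (hl : QC l) (hp : p ∉ sp l) : Pm v 1 (1 - ((qs l p : ℤ) : ℂ)) (aa p l) := by
  rcases hl.pm p hp with h1 | h1
  · rw [h1]
    have : aa p l = 0 := by
      unfold aa
      rw [if_neg]
      rw [h1]
      norm_num
    rw [this, Int.cast_one, sub_self]
    refine Pm.zero ?_
    rw [map_zero]
    exact pow_pos v2_pos 1
  · rw [h1]
    have : aa p l = 1 := by
      unfold aa
      rw [if_pos h1]
    rw [this]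
    refine ⟨1, by simp, ?_⟩
    have : (1 : ℂ) - ((-1 : ℤ) : ℂ) - 2 ^ 1 * ((1 : ℤ) : ℂ) = 0 := by push_cast; ring
    rw [this, map_zero]
    exact pow_pos v2_pos 1

include h2 in
lemma fac_par {U V : Finset R} (hU : ∀ p ∈ U, QC p) (hd : Dst U) (hV : V ⊆ U) {p : R}
    (hp : p ∈ U \ V) (hc : Pm v 1 (1 - c p) (t p)) :
    Pm v 1 (c p - ((ch V p : ℤ) : ℂ)) (t p + ∑ l ∈ V, aa p l) := by
  rw [Finset.mem_sdiff] at hp
  have h1 : Pm v 1 (1 - ((ch V p : ℤ) : ℂ)) (∑ l ∈ V, aa p l) := by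
    unfold ch
    push_cast
    exact Pm.prod_one_sub h2 V fun l hl => qs_par (hU l (hV hl))
      (hd p hp.1 l (hV hl) fun hpl => hp.2 (hpl ▸ hl))
  have e : c p - ((ch V p : ℤ) : ℂ) = (1 - ((ch V p : ℤ) : ℂ)) - (1 - c p) := by ring
  rw [e, add_comm]
  exact h1.sub hc

include hR in
lemma Pri.two_cancel {D : R} (hD : Pri D) (w : R ⧸ sp D) (hw : -w = w) : w = 0 := by
  obtain ⟨N, D', ⟨k, hk⟩, hN⟩ := hD.nat hR
  have h1 : (N : R) ∈ sp D := by
    rw [Ideal.mem_span_singleton']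
    refine ⟨D', Subtype.ext ?_⟩
    push_cast
    rw [hN]
    ring
  have h3 : (N : R ⧸ sp D) = 0 := by
    rw [← map_natCast (Ideal.Quotient.mk (sp D)), Ideal.Quotient.eq_zero_iff_mem]
    exact h1
  have h4 : w + w = 0 := by
    nth_rw 1 [← hw]
    exact neg_add_cancel w
  have h5 : w = (N : R ⧸ sp D) * w - (k : R ⧸ sp D) * (w + w) := by
    rw [hk]
    push_cast
    ring
  rw [h5, h3, h4, zero_mul, mul_zero, sub_zero]

/-- the weight of the sieve -/
noncomputable def kap (U : Finset R) (r : R) : ℂ := ∏ p ∈ U, (((qs p r : ℤ) : ℂ) + cpI p r)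

lemma kap_neg {U : Finset R} (hU : ∀ p ∈ U, QC p) (r : R) : kap U (-r) = kap U r := by
  unfold kap
  refine Finset.prod_congr rfl fun p hp => ?_
  have h1 := (hU p hp).mul (-1) r
  rw [(hU p hp).neg, one_mul, neg_one_mul] at h1
  rw [h1]
  congr 1
  unfold cpI
  by_cases hr : r ∈ sp p
  · rw [if_pos hr, if_pos ((sp p).neg_mem hr)]
  · rw [if_neg hr, if_neg fun h3 => hr (by
      have := (sp p).neg_mem h3
      rwa [neg_neg] at this)]

lemma kap_per {U : Finset R} (hU : ∀ p ∈ U, QC p) {r s : R} (h : r - s ∈ sp (dd U)) :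
    kap U r = kap U s :=
  Finset.prod_congr rfl fun p hp => by
    rw [(hU p hp).per r s (mem_dd hp h), cpI_per (mem_dd hp h)]

lemma kap_zero {U : Finset R} (hU : ∀ p ∈ U, QC p) {p : R} (hp : p ∈ U) {r : R} (hr : r ∈ sp p) :
    kap U r = 0 := by
  refine Finset.prod_eq_zero hp ?_
  rw [((hU p hp).zero r).mpr hr]
  unfold cpI
  rw [if_pos hr, Int.cast_zero, add_zero]

lemma kap_le {U : Finset R} (hU : ∀ p ∈ U, QC p) (r : R) : v (kap U r) ≤ v 2 ^ U.card := by
  have key : ∀ p ∈ U, Pm v 1 (((qs p r : ℤ) : ℂ) + cpI p r)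
      (if qs p r = 1 then 1 else 0) := by
    intro p hp
    unfold cpI
    by_cases hr : r ∈ sp p
    · rw [if_pos hr, ((hU p hp).zero r).mpr hr, if_neg (by norm_num), Int.cast_zero, add_zero]
      refine Pm.zero ?_
      rw [map_zero]
      exact pow_pos v2_pos 1
    · rw [if_neg hr]
      rcases (hU p hp).pm r hr with h1 | h1
      · rw [h1, if_pos rfl]
        refine ⟨1, by simp, ?_⟩
        have : ((1 : ℤ) : ℂ) + 1 - 2 ^ 1 * ((1 : ℤ) : ℂ) = 0 := by push_cast; ring
        rw [this, map_zero]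
        exact pow_pos v2_pos 1
      · rw [h1, if_neg (by norm_num)]
        refine Pm.zero ?_
        have : ((-1 : ℤ) : ℂ) + 1 = 0 := by push_cast; ring
        rw [this, map_zero]
        exact pow_pos v2_pos 1
  exact (Pm.prod U key).le

include h2 h hG hR in
/-- the estimate -/
lemma est_all {U : Finset R} (hU : ∀ p ∈ U, QC p) (hne : U.Nonempty) :
    v (Ts G (dd U) (kap U)) < v 2 ^ U.card := by
  have hod := dd_od hR hU
  have := h.fin _ hod
  have := Fintype.ofFinite (R ⧸ sp (dd U))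
  have hpos : 0 < v 2 ^ U.card := pow_pos v2_pos _
  unfold Ts
  rw [rs_eq]
  have e1 : ∑ w : R ⧸ sp (dd U), kap U w.out * G (dd U) w.out =
      ∑ w : R ⧸ sp (dd U), kap U w.out +
      ∑ w : R ⧸ sp (dd U), kap U w.out * (G (dd U) w.out - 1) := by
    rw [← Finset.sum_add_distrib]
    exact Finset.sum_congr rfl fun w _ => by ring
  rw [e1]
  refine (v.map_add _ _).trans_lt (max_lt ?_ ?_)
  · have h3 : v (∑ w : R ⧸ sp (dd U), kap U w.out) ≤ v 2 * v 2 ^ U.card := by
      refine sum_pairs _ (fun w => ?_) (fun w hw => ?_) (fun w => kap_le hU _)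
      · rw [← kap_neg hU w.out]
        refine kap_per hU ?_
        have := out_sub (sp (dd U)) (-w.out)
        rwa [map_neg, Ideal.Quotient.mk_out] at this
      · obtain ⟨p, hp⟩ := hne
        refine kap_zero hU hp (mem_dd hp ?_)
        rw [← Ideal.Quotient.eq_zero_iff_mem, Ideal.Quotient.mk_out]
        exact Pri.two_cancel hR hod w hw
    refine h3.trans_lt ?_
    calc v 2 * v 2 ^ U.card < 1 * v 2 ^ U.card := mul_lt_mul_of_pos_right h2 hpos
      _ = _ := one_mul _
  · refine Valuation.map_sum_lt v hpos.ne' fun w _ => ?_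
    rw [map_mul]
    calc v (kap U w.out) * v (G (dd U) w.out - 1) ≤ v 2 ^ U.card * v (G (dd U) w.out - 1) :=
          mul_le_mul_left (kap_le hU _) _
      _ < v 2 ^ U.card * 1 := mul_lt_mul_of_pos_left (hG _ _ hod) hpos
      _ = _ := mul_one _

include h2 h hG hR in
open Classical in
/-- **the parity of the twisted sum** -/
theorem Ts_par (U : Finset R) (hU : ∀ p ∈ U, QC p) (hd : Dst U)
    (hc : ∀ p ∈ U, Pm v 1 (1 - c p) (t p)) :
    Pm v U.card (Ts G (dd U) (fun r => ((ch U r : ℤ) : ℂ))) (Mx t aa U).det := by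
  induction U using Finset.strongInduction with
  | _ U ih =>
    rcases U.eq_empty_or_nonempty with rfl | hne
    · rw [det_empty, Finset.card_empty]
      have hod : Pri (dd (∅ : Finset R)) := dd_od hR hU
      have := h.fin _ hod
      have := Fintype.ofFinite (R ⧸ sp (dd (∅ : Finset R)))
      have hsub : ∀ w : R ⧸ sp (dd (∅ : Finset R)), w = 0 := by
        intro w
        refine eq_of_out ?_
        have h1 : sp (dd (∅ : Finset R)) = ⊤ := by
          unfold dd
          rw [Finset.prod_empty]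
          exact Ideal.span_singleton_one
        generalize w.out - (0 : R ⧸ sp (dd (∅ : Finset R))).out = x
        rw [h1]
        exact Submodule.mem_top
      unfold Ts
      rw [rs_eq, Fintype.sum_eq_single (0 : R ⧸ sp (dd (∅ : Finset R)))
        (fun w hw => absurd (hsub w) hw)]
      have e1 : ((ch (∅ : Finset R) (0 : R ⧸ sp (dd (∅ : Finset R))).out : ℤ) : ℂ) = 1 := by
        unfold ch
        rw [Finset.prod_empty, Int.cast_one]
      beta_reduce
      rw [e1, one_mul]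
      exact Pm.of_N1 (hG _ _ hod)
    · have h1 := sieve_all hR h hU hd
      have h3 := est_all h2 h hG hR hU hne
      have h4 : Pm v U.card (∑ V ∈ U.powerset, (∏ p ∈ U \ V, (c p - ((ch V p : ℤ) : ℂ))) *
          Ts G (dd V) (fun r => ((ch V r : ℤ) : ℂ))) 0 := by
        rw [← h1]
        exact Pm.zero h3
      have hmem : U ∈ U.powerset := Finset.mem_powerset.mpr (Finset.Subset.refl U)
      rw [← Finset.add_sum_erase _ _ hmem] at h4
      have hdet := det_rec t aa hne
      rw [← Finset.add_sum_erase _ _ hmem] at hdet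
      rw [Finset.sdiff_self, Finset.prod_empty, one_mul] at h4 hdet
      have h5 : Pm v U.card (∑ V ∈ U.powerset.erase U, (∏ p ∈ U \ V, (c p - ((ch V p : ℤ) : ℂ))) *
          Ts G (dd V) (fun r => ((ch V r : ℤ) : ℂ)))
          (∑ V ∈ U.powerset.erase U, (∏ p ∈ U \ V, (t p + ∑ l ∈ V, aa p l)) * (Mx t aa V).det) := by
        refine Pm.sum _ fun V hV => ?_
        rw [Finset.mem_erase, Finset.mem_powerset] at hV
        have hlt : V ⊂ U := ⟨hV.2, fun h6 => hV.1 (Finset.Subset.antisymm hV.2 h6)⟩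
        have h7 := ih V hlt (fun p hp => hU p (hV.2 hp))
          (fun p hp s hs => hd p (hV.2 hp) s (hV.2 hs)) (fun p hp => hc p (hV.2 hp))
        have h8 : Pm v (U \ V).card (∏ p ∈ U \ V, (c p - ((ch V p : ℤ) : ℂ)))
            (∏ p ∈ U \ V, (t p + ∑ l ∈ V, aa p l)) :=
          Pm.prod _ fun p hp => fac_par h2 hU hd hV.2 hp (hc p (Finset.sdiff_subset hp))
        have h9 := h8.mul h7
        rwa [Finset.card_sdiff_add_card_eq_card hV.2] at h9
      have h6 := h4.sub h5
      rw [add_sub_cancel_right, zero_add] at h6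
      have e : (Mx t aa U).det = ∑ V ∈ U.powerset.erase U,
          (∏ p ∈ U \ V, (t p + ∑ l ∈ V, aa p l)) * (Mx t aa V).det := by
        have := CharTwo.add_eq_zero.mp hdet
        exact this
      rw [e]
      exact h6

end main

end Pool.Agent.Y690.AW
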