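import Pool.Agent.Y690.W.Alg
import Pool.Agent.Y690.X.Val2

/-!
# The values at a point and its translates by the points of order two
-/

set_option autoImplicit false
set_option linter.unusedSectionVars false
set_option linter.unusedSimpArgs false

open scoped PeriodPair

namespace Pool.Agent.Y690.AW

open H667R3 Pool.Agent.TH936.CW MvPolynomial Pool.Agent.Y690.NV

variable {L : PeriodPair} {q : ℂ}

/-- a point of order two -/
structure H2 (L : PeriodPair) (q u e : ℂ) : Prop where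
  nm : u ∉ L.lattice
  two : 2 * u ∈ L.lattice
  x : ℘[L] u = e
  y : ℘'[L] u = 0
  e : E1 L 0 q u = 0

lemma H2.add {u e z : ℂ} (h : H2 L q u e) (hz : 2 * z ∉ L.lattice) : z + u ∉ L.lattice := by
  intro h1
  apply hz
  have h2 := sub_mem (add_mem h1 h1) h.two
  convert h2 using 1
  ring

lemma H2.sub {u e z : ℂ} (h : H2 L q u e) (hz : 2 * z ∉ L.lattice) : z - u ∉ L.lattice := by
  intro h1
  apply hz
  have h2 := add_mem (add_mem h1 h1) h.two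
  convert h2 using 1
  ring

lemma H2.ne {u e z : ℂ} (h : H2 L q u e) (hz : 2 * z ∉ L.lattice) : ℘[L] z - e ≠ 0 := by
  rw [← h.x, sub_ne_zero, Ne, wp_eq_iff L (two_mul_notMem_of L hz) h.nm]
  have := h.add hz
  have := h.sub hz
  tauto

lemma H2.rel {u e : ℂ} (h : H2 L q u e) (hL : CM L) (g2 : L.g₂ = -1) : e * (4 * e ^ 2 + 1) = 0 := by
  have h1 := curve hL g2 h.nm
  unfold Xi at h1
  rw [h.x, h.y] at h1
  linear_combination -(1 / 2) * h1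

/-- the slope -/
noncomputable def sl (L : PeriodPair) (e z : ℂ) : ℂ := ℘'[L] z / 2 / (℘[L] z - e)

lemma H2.sl_mul {u e z : ℂ} (h : H2 L q u e) (hz : 2 * z ∉ L.lattice) :
    sl L e z * (℘[L] z - e) = ℘'[L] z / 2 := by
  unfold sl
  exact div_mul_cancel₀ _ (h.ne hz)

lemma H2.sl_sq {u e z : ℂ} (h : H2 L q u e) (hL : CM L) (g2 : L.g₂ = -1)
    (hz : 2 * z ∉ L.lattice) : sl L e z ^ 2 * (℘[L] z - e) =
      ℘[L] z ^ 2 + ℘[L] z * e + e ^ 2 + 1 / 4 := by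
  have h1 := h.sl_mul hz
  have h2 := h.ne hz
  have h3 := curve hL g2 (two_mul_notMem_of L hz)
  unfold Xi at h3
  have h4 := h.rel hL g2
  refine mul_left_cancel₀ h2 ?_
  have h5 : (℘'[L] z / 2) ^ 2 = ℘[L] z ^ 3 + ℘[L] z / 4 := by linear_combination (1 / 8) * h3
  rw [← h1] at h5
  linear_combination h5 + (1 / 4) * h4

theorem tr {u e z : ℂ} (h : H2 L q u e) (hL : CM L) (g2 : L.g₂ = -1) (hz : 2 * z ∉ L.lattice) :
    E1 L 0 q (z + u) = E1 L 0 q z + sl L e z ∧ ℘[L] (z + u) = -℘[L] z - e + sl L e z ^ 2 ∧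
    ℘'[L] (z + u) / 2 = -(sl L e z * (sl L e z ^ 2 - ℘[L] z - 2 * e)) := by
  have h1 := h.sl_mul hz
  have h2 := h.ne hz
  have h3 := h.sl_sq hL g2 hz
  have hz' := two_mul_notMem_of L hz
  have hy : ℘'[L] z = 2 * (sl L e z * (℘[L] z - e)) := by rw [h1]; ring
  have h4 := h.rel hL g2
  refine ⟨?_, ?_, ?_⟩
  · rw [E1_add hz' h.nm (h.add hz) (h.sub hz), h.x, h.y, h.e]
    unfold sl
    field_simp
    ring
  · rw [wp_add L hz h.nm (h.add hz) (h.sub hz), h.x, h.y, g2, hy]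
    generalize sl L e z = p at h3
    generalize ℘[L] z = x at h2 h3
    have h5 : x - ((6 * x ^ 2 - -1 / 2) * (x - e) - (2 * (p * (x - e)) - 0) * (2 * (p * (x - e)))) /
        (2 * (x - e) ^ 2) = x + 2 * p ^ 2 - (6 * x ^ 2 + 1 / 2) / (2 * (x - e)) := by
      field_simp
      ring
    rw [h5]
    have h6 : (6 * x ^ 2 + 1 / 2) / (2 * (x - e)) = p ^ 2 + 2 * x + e := by
      rw [div_eq_iff (mul_ne_zero two_ne_zero h2)]
      linear_combination -2 * h3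
    rw [h6]
    ring
  · rw [wp'_add L hz h.nm (h.add hz) (h.sub hz), h.x, h.y, g2, hy]
    generalize sl L e z = p at h3
    generalize ℘[L] z = x at h2 h3
    obtain ⟨c, hc⟩ : ∃ c : ℂ, c * (x - e) = 1 := ⟨(x - e)⁻¹, inv_mul_cancel₀ h2⟩
    have h6 : (6 * x ^ 2 + 1 / 2) = (p ^ 2 + 2 * x + e) * (2 * (x - e)) := by
      linear_combination -2 * h3
    have h7 : (6 * x ^ 2 - -1 / 2) = (p ^ 2 + 2 * x + e) * (2 * (x - e)) := by
      rw [← h6]; ring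
    rw [h7]
    field_simp
    ring

/-- the points of order two -/
structure H3 (L : PeriodPair) (q j u₁ u₂ u₃ : ℂ) : Prop where
  a1 : H2 L q u₁ (j / 2)
  a2 : H2 L q u₂ (-j / 2)
  a3 : H2 L q u₃ 0
  jj : j ^ 2 = -1

/-- the evaluation point -/
noncomputable def pt4 (L : PeriodPair) (q j z : ℂ) : Fin 4 → ℂ :=
  ![2 * E1 L 0 q z + (1 / 2) * (sl L (j / 2) z + sl L (-j / 2) z + sl L 0 z),
    (1 / 2) * (sl L (j / 2) z - sl L (-j / 2) z - sl L 0 z),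
    (1 / 2) * (sl L (-j / 2) z - sl L (j / 2) z - sl L 0 z),
    (1 / 2) * (sl L 0 z - sl L (j / 2) z - sl L (-j / 2) z)]

/-- the relations between the slopes -/
theorem rels {j u₁ u₂ u₃ z : ℂ} (h : H3 L q j u₁ u₂ u₃) (hL : CM L) (g2 : L.g₂ = -1)
    (hz : 2 * z ∉ L.lattice) :
    sl L (j / 2) z * sl L (-j / 2) z = ℘[L] z ∧ sl L (j / 2) z * sl L 0 z = ℘[L] z + j / 2 ∧
    sl L (-j / 2) z * sl L 0 z = ℘[L] z - j / 2 ∧
    sl L (j / 2) z * sl L (-j / 2) z * sl L 0 z = ℘'[L] z / 2 := by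
  have n1 := h.a1.ne hz
  have n2 := h.a2.ne hz
  have n3 := h.a3.ne hz
  have m1 := h.a1.sl_mul hz
  have m2 := h.a2.sl_mul hz
  have m3 := h.a3.sl_mul hz
  have h3 := curve hL g2 (two_mul_notMem_of L hz)
  unfold Xi at h3
  have h5 : (℘'[L] z / 2) ^ 2 = ℘[L] z ^ 3 + ℘[L] z / 4 := by linear_combination (1 / 8) * h3
  have hj := h.jj
  generalize sl L (j / 2) z = p1 at *
  generalize sl L (-j / 2) z = p2 at *
  generalize sl L 0 z = p3 at *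
  generalize ℘'[L] z / 2 = y at *
  generalize ℘[L] z = x at *
  have e1 : p1 * p2 = x := by
    have : (x - j / 2) * (x - -j / 2) ≠ 0 := mul_ne_zero n1 n2
    refine mul_left_cancel₀ this ?_
    linear_combination p2 * (x - -j / 2) * m1 + y * m2 + h5 + (x / 4) * hj
  have e2 : p1 * p3 = x + j / 2 := by
    have : (x - j / 2) * (x - 0) ≠ 0 := mul_ne_zero n1 n3
    refine mul_left_cancel₀ this ?_
    linear_combination p3 * (x - 0) * m1 + y * m3 + h5 + (x / 4) * hj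
  have e3 : p2 * p3 = x - j / 2 := by
    have : (x - -j / 2) * (x - 0) ≠ 0 := mul_ne_zero n2 n3
    refine mul_left_cancel₀ this ?_
    linear_combination p3 * (x - 0) * m2 + y * m3 + h5 + (x / 4) * hj
  refine ⟨e1, e2, e3, ?_⟩
  rw [e1]
  linear_combination m3

lemma ev4_E (v : Fin 4 → ℂ) : eval v bE = v 0 := by unfold bE; rw [eval_X]
lemma ev4_1 (v : Fin 4 → ℂ) : eval v b1 = v 1 := by unfold b1; rw [eval_X]
lemma ev4_2 (v : Fin 4 → ℂ) : eval v b2 = v 2 := by unfold b2; rw [eval_X]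
lemma ev4_3 (v : Fin 4 → ℂ) : eval v b3 = v 3 := by unfold b3; rw [eval_X]
lemma ev4_X (v : Fin 4 → ℂ) : eval v bX = 1 / 3 * (v 1 ^ 2 + v 2 ^ 2 + v 3 ^ 2) := by
  unfold bX
  simp only [map_mul, map_add, map_pow, eval_C, ev4_1, ev4_2, ev4_3]
lemma ev4_G (v : Fin 4 → ℂ) : eval v bG = 1 / 6 * (v 1 ^ 4 + v 2 ^ 4 + v 3 ^ 4) -
    1 / 2 * (1 / 3 * (v 1 ^ 2 + v 2 ^ 2 + v 3 ^ 2)) ^ 2 := by
  unfold bG
  simp only [map_sub, map_mul, map_add, map_pow, eval_C, ev4_1, ev4_2, ev4_3, ev4_X]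

/-- the comparison is made on the variables -/
lemma hs_ext {w : ℂ} {v : Fin 4 → ℂ} {s₁ s₂ s₃ : ℂ}
    (hE : E1 L 0 q w = 1 / 2 * (v 0 + s₁ * v 1 + s₂ * v 2 + s₃ * v 3))
    (hX : ℘[L] w = 1 / 3 * (v 1 ^ 2 + v 2 ^ 2 + v 3 ^ 2) + s₃ * (v 1 * v 2) + s₂ * (v 1 * v 3) +
      s₁ * (v 2 * v 3))
    (hY : ℘'[L] w / 2 = -((s₁ * v 1 + s₂ * v 2) * (s₁ * v 1 + s₃ * v 3) * (s₂ * v 2 + s₃ * v 3)))
    (hG : L.g₂ / 12 = 1 / 6 * (v 1 ^ 4 + v 2 ^ 4 + v 3 ^ 4) -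
      1 / 2 * (1 / 3 * (v 1 ^ 2 + v 2 ^ 2 + v 3 ^ 2)) ^ 2) (u : U) :
    evU L q ((starRingEnd ℂ) w) w u = eval v (hs s₁ s₂ s₃ u) := by
  have h : evU L q ((starRingEnd ℂ) w) w = (aeval v).comp (hs s₁ s₂ s₃) := by
    refine MvPolynomial.algHom_ext fun i => ?_
    fin_cases i
    · show evU L q _ _ vE = aeval _ (hs s₁ s₂ s₃ vE)
      have : Xx L 0 q ((starRingEnd ℂ) w) w = E1 L 0 q w := rfl
      rw [evU_E, hs_E, this, hE, aeval_eq_eval]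
      simp only [coe_eval₂Hom, map_mul, map_add, eval_C, ev4_E, ev4_1, ev4_2, ev4_3]
    · show evU L q _ _ vX = aeval _ (hs s₁ s₂ s₃ vX)
      rw [evU_X, hs_X, hX, aeval_eq_eval]
      simp only [coe_eval₂Hom, map_mul, map_add, eval_C, ev4_E, ev4_1, ev4_2, ev4_3, ev4_X]
    · show evU L q _ _ vY = aeval _ (hs s₁ s₂ s₃ vY)
      rw [evU_Y, hs_Y, hY, aeval_eq_eval]
      simp only [coe_eval₂Hom, map_neg, map_mul, map_add, eval_C, ev4_E, ev4_1, ev4_2, ev4_3]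
    · show evU L q _ _ vG = aeval _ (hs s₁ s₂ s₃ vG)
      rw [evU_G, hs_G, hG, aeval_eq_eval]
      exact (ev4_G v).symm
  rw [h, AlgHom.comp_apply, aeval_eq_eval]

/-- the combination of the values -/
noncomputable def FF (L : PeriodPair) (q u₁ u₂ u₃ : ℂ) (n : ℕ) (z : ℂ) : ℂ :=
  ek L 0 q n z - ek L 0 q n (z + u₁) + ek L 0 q n (z + u₂) - ek L 0 q n (z + u₃)

theorem FF_eval {j u₁ u₂ u₃ z : ℂ} (h : H3 L q j u₁ u₂ u₃) (hL : CM L) (g2 : L.g₂ = -1)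
    (hz : 2 * z ∉ L.lattice) (n : ℕ) :
    (n.factorial : ℂ) * FF L q u₁ u₂ u₃ n z = eval (pt4 L q j z) (Kn n) := by
  obtain ⟨r1, r2, r3, r4⟩ := rels h hL g2 hz
  obtain ⟨a1, a2, a3⟩ := tr h.a1 hL g2 hz
  obtain ⟨b1, b2, b3⟩ := tr h.a2 hL g2 hz
  obtain ⟨c1, c2, c3⟩ := tr h.a3 hL g2 hz
  have hj := h.jj
  have v0 : pt4 L q j z 0 = 2 * E1 L 0 q z + (1 / 2) * (sl L (j / 2) z + sl L (-j / 2) z + sl L 0 z) :=
    rfl
  have v1 : pt4 L q j z 1 = (1 / 2) * (sl L (j / 2) z - sl L (-j / 2) z - sl L 0 z) := rfl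
  have v2 : pt4 L q j z 2 = (1 / 2) * (sl L (-j / 2) z - sl L (j / 2) z - sl L 0 z) := rfl
  have v3 : pt4 L q j z 3 = (1 / 2) * (sl L 0 z - sl L (j / 2) z - sl L (-j / 2) z) := rfl
  have hf1 : pt4 L q j z 1 ^ 2 = pt4 L q j z 3 ^ 2 - j / 2 := by
    rw [v1, v3]
    linear_combination r3 - r1
  have hf2 : pt4 L q j z 2 ^ 2 = pt4 L q j z 3 ^ 2 + j / 2 := by
    rw [v2, v3]
    linear_combination r2 - r1
  have hG : L.g₂ / 12 = 1 / 6 * (pt4 L q j z 1 ^ 4 + pt4 L q j z 2 ^ 4 + pt4 L q j z 3 ^ 4) -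
      1 / 2 * (1 / 3 * (pt4 L q j z 1 ^ 2 + pt4 L q j z 2 ^ 2 + pt4 L q j z 3 ^ 2)) ^ 2 := by
    have e1 : pt4 L q j z 1 ^ 4 = (pt4 L q j z 3 ^ 2 - j / 2) ^ 2 := by rw [← hf1]; ring
    have e2 : pt4 L q j z 2 ^ 4 = (pt4 L q j z 3 ^ 2 + j / 2) ^ 2 := by rw [← hf2]; ring
    rw [e1, e2, hf1, hf2, g2]
    linear_combination (-1 / 12) * hj
  have w0 := hs_ext (q := q) (w := z) (v := pt4 L q j z) (s₁ := 1) (s₂ := 1) (s₃ := 1)
    (by rw [v0, v1, v2, v3]; ring)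
    (by rw [v1, v2, v3]; linear_combination (-1 / 3) * (r1 + r2 + r3))
    (by rw [v1, v2, v3, ← r4]; ring) hG
  have w1 := hs_ext (q := q) (w := z + u₁) (v := pt4 L q j z) (s₁ := 1) (s₂ := -1) (s₃ := -1)
    (by rw [v0, v1, v2, v3, a1]; ring)
    (by rw [v1, v2, v3, a2]; linear_combination (2 / 3) * r1 + (2 / 3) * r2 - (1 / 3) * r3)
    (by rw [v1, v2, v3, a3]; linear_combination (-sl L (j / 2) z) * (r1 + r2 - r3)) hG
  have w2 := hs_ext (q := q) (w := z + u₂) (v := pt4 L q j z) (s₁ := -1) (s₂ := 1) (s₃ := -1)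
    (by rw [v0, v1, v2, v3, b1]; ring)
    (by rw [v1, v2, v3, b2]; linear_combination (2 / 3) * r1 + (2 / 3) * r3 - (1 / 3) * r2)
    (by rw [v1, v2, v3, b3]; linear_combination (-sl L (-j / 2) z) * (r1 + r3 - r2)) hG
  have w3 := hs_ext (q := q) (w := z + u₃) (v := pt4 L q j z) (s₁ := -1) (s₂ := -1) (s₃ := 1)
    (by rw [v0, v1, v2, v3, c1]; ring)
    (by rw [v1, v2, v3, c2]; linear_combination (2 / 3) * r2 + (2 / 3) * r3 - (1 / 3) * r1)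
    (by rw [v1, v2, v3, c3]; linear_combination (-sl L 0 z) * (r2 + r3 - r1)) hG
  unfold FF Kn
  rw [map_sub, map_add, map_sub, ← w0, ← w1, ← w2, ← w3, ← ek_eq n (two_mul_notMem_of L hz),
    ← ek_eq n (h.a1.add hz), ← ek_eq n (h.a2.add hz), ← ek_eq n (h.a3.add hz)]
  ring

end Pool.Agent.Y690.AW
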