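import Pool.Agent.Y690.W.Dist
import Pool.Agent.Y690.X.Thm

/-!
# Sums over residue classes and the sieve
-/

set_option autoImplicit false
set_option linter.unusedSectionVars false
set_option linter.unusedSimpArgs false

namespace Pool.Agent.Y690.AW

open Pool.Agent.Y690.NV Pool.Agent.W192.HK
open Pool.Agent.TH936.CM (IsLat out_sub)
open Complex (I)

variable {R : Subring ℂ} (hR : ∀ z : ℂ, z ∈ R ↔ ∃ x y : ℤ, z = x + y * I)

/-- the sum over the residue classes modulo `D` -/
noncomputable def rs (D : R) (h : R → ℂ) : ℂ := ∑ᶠ w : R ⧸ sp D, h w.out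

lemma rs_eq (D : R) [Fintype (R ⧸ sp D)] (h : R → ℂ) : rs D h = ∑ w : R ⧸ sp D, h w.out :=
  finsum_eq_sum_of_fintype _

lemma mk_out_sub (D r : R) : (Ideal.Quotient.mk (sp D) r).out - r ∈ sp D := by
  rw [← Ideal.Quotient.mk_eq_mk_iff_sub_mem, Ideal.Quotient.mk_out]

lemma eq_of_out {D : R} {x y : R ⧸ sp D} (h : x.out - y.out ∈ sp D) : x = y := by
  rw [← Ideal.Quotient.mk_eq_mk_iff_sub_mem, Ideal.Quotient.mk_out, Ideal.Quotient.mk_out] at h
  exact h

lemma mem_sp_mul_left {D p a : R} (h : a ∈ sp (D * p)) : a ∈ sp D := by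
  rw [Ideal.mem_span_singleton] at h ⊢
  exact (dvd_mul_right D p).trans h

lemma mem_sp_mul_right {D p a : R} (h : a ∈ sp (D * p)) : a ∈ sp p := by
  rw [Ideal.mem_span_singleton] at h ⊢
  exact (dvd_mul_left p D).trans h

lemma mul_mem_sp {D p a : R} (h : a ∈ sp p) : D * a ∈ sp (D * p) := by
  rw [Ideal.mem_span_singleton] at h ⊢
  exact mul_dvd_mul_left D h

lemma mul_mem_sp' {D p a : R} (h : a ∈ sp D) : p * a ∈ sp (D * p) := by
  rw [Ideal.mem_span_singleton] at h ⊢
  rw [mul_comm D p]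
  exact mul_dvd_mul_left p h

lemma of_mul_mem_sp {D p a : R} (hD : D ≠ 0) (h : D * a ∈ sp (D * p)) : a ∈ sp p := by
  rw [Ideal.mem_span_singleton] at h ⊢
  exact (mul_dvd_mul_iff_left hD).mp h

lemma of_mul_mem_sp' {D p a : R} (hp : p ≠ 0) (h : p * a ∈ sp (D * p)) : a ∈ sp D := by
  rw [Ideal.mem_span_singleton] at h ⊢
  rw [mul_comm D p] at h
  exact (mul_dvd_mul_iff_left hp).mp h

/-- the fibres of `R / D p → R / D` -/
theorem rs_fib {D p : R} (hD : D ≠ 0) [Fintype (R ⧸ sp D)] [Fintype (R ⧸ sp p)]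
    [Fintype (R ⧸ sp (D * p))] (h : R → ℂ) (hper : ∀ r s : R, r - s ∈ sp (D * p) → h r = h s) :
    ∑ x : R ⧸ sp (D * p), h x.out =
      ∑ w : R ⧸ sp D, ∑ y : R ⧸ sp p, h (w.out + D * y.out) := by
  rw [← Fintype.sum_prod_type (f := fun z : (R ⧸ sp D) × (R ⧸ sp p) => h (z.1.out + D * z.2.out))]
  symm
  refine Fintype.sum_bijective
    (fun z : (R ⧸ sp D) × (R ⧸ sp p) => Ideal.Quotient.mk (sp (D * p)) (z.1.out + D * z.2.out))
    ⟨?_, ?_⟩ _ _ ?_
  · rintro ⟨w, y⟩ ⟨w', y'⟩ h1
    have h2 : (w.out + D * y.out) - (w'.out + D * y'.out) ∈ sp (D * p) :=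
      (Ideal.Quotient.mk_eq_mk_iff_sub_mem _ _).mp h1
    have hw : w = w' := by
      refine eq_of_out ?_
      have h3 := (sp D).sub_mem (mem_sp_mul_left h2)
        ((sp D).mul_mem_right (y.out - y'.out) (Ideal.mem_span_singleton_self D))
      convert h3 using 1
      ring
    subst hw
    have hy : y = y' := by
      refine eq_of_out (of_mul_mem_sp hD ?_)
      convert h2 using 1
      ring
    rw [hy]
  · intro x
    have h1 := mk_out_sub D x.out
    rw [Ideal.mem_span_singleton'] at h1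
    obtain ⟨c, hc⟩ := h1
    refine ⟨(Ideal.Quotient.mk (sp D) x.out, Ideal.Quotient.mk (sp p) (-c)), ?_⟩
    simp only
    have h2 : Ideal.Quotient.mk (sp (D * p)) x.out = x := Ideal.Quotient.mk_out x
    conv_rhs => rw [← h2]
    rw [Ideal.Quotient.mk_eq_mk_iff_sub_mem]
    have h3 := mul_mem_sp (D := D) (mk_out_sub p (-c))
    convert h3 using 1
    linear_combination -hc
  · rintro ⟨w, y⟩
    refine hper _ _ ?_
    have := (sp (D * p)).neg_mem (mk_out_sub (D * p) (w.out + D * y.out))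
    rwa [neg_sub] at this

open Classical in
/-- the classes divisible by `p` -/
theorem rs_mul {D p : R} (hp : p ≠ 0) [Fintype (R ⧸ sp D)]
    [Fintype (R ⧸ sp (D * p))] (h : R → ℂ) (hper : ∀ r s : R, r - s ∈ sp (D * p) → h r = h s) :
    ∑ x : R ⧸ sp (D * p), (if x.out ∈ sp p then h x.out else 0) =
      ∑ w : R ⧸ sp D, h (p * w.out) := by
  symm
  refine Finset.sum_of_injOn
    (fun w : R ⧸ sp D => Ideal.Quotient.mk (sp (D * p)) (p * w.out)) ?_
    (fun _ _ => Finset.mem_coe.mpr (Finset.mem_univ _)) ?_ ?_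
  · rintro w _ w' _ h1
    have h2 : p * w.out - p * w'.out ∈ sp (D * p) :=
      (Ideal.Quotient.mk_eq_mk_iff_sub_mem _ _).mp h1
    refine eq_of_out (of_mul_mem_sp' hp ?_)
    convert h2 using 1
    ring
  · intro x _ hx
    rw [if_neg]
    intro hxp
    apply hx
    rw [Ideal.mem_span_singleton'] at hxp
    obtain ⟨c, hc⟩ := hxp
    refine ⟨Ideal.Quotient.mk (sp D) c, by simp, ?_⟩
    simp only
    have h2 : Ideal.Quotient.mk (sp (D * p)) x.out = x := Ideal.Quotient.mk_out x
    conv_rhs => rw [← h2]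
    rw [Ideal.Quotient.mk_eq_mk_iff_sub_mem]
    have h3 := mul_mem_sp' (p := p) (mk_out_sub D c)
    convert h3 using 1
    linear_combination hc
  · intro w _
    have h1 := mk_out_sub (D * p) (p * w.out)
    have h2 : (Ideal.Quotient.mk (sp (D * p)) (p * w.out)).out ∈ sp p := by
      have h3 := (sp p).add_mem (mem_sp_mul_right h1)
        ((sp p).mul_mem_right w.out (Ideal.mem_span_singleton_self p))
      convert h3 using 1
      ring
    rw [if_pos h2]
    refine hper _ _ ?_
    have := (sp (D * p)).neg_mem h1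
    rwa [neg_sub] at this

open Classical in
/-- the indicator of the numbers prime to `p` -/
noncomputable def cpI (p r : R) : ℂ := if r ∈ sp p then 0 else 1

/-- an abstract distribution -/
structure DS (G : R → R → ℂ) (c : R → ℂ) : Prop where
  fin : ∀ D : R, Pri D → Finite (R ⧸ sp D)
  ne : ∀ D : R, Pri D → D ≠ 0
  per : ∀ D r s : R, Pri D → r - s ∈ sp D → G D r = G D s
  mul : ∀ D p r : R, Pri D → Pri p → G (D * p) (p * r) = G D r
  dist : ∀ D p w : R, Pri D → Pri p → rs p (fun y => G (D * p) (w + D * y)) = c p * G D w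

/-- the twisted sum -/
noncomputable def Ts (G : R → R → ℂ) (D : R) (g : R → ℂ) : ℂ := rs D (fun r => g r * G D r)

include hR in
/-- the sieve -/
theorem sieve {G : R → R → ℂ} {c : R → ℂ} (h : DS G c) {D p : R} (hD : Pri D) (hp : Pri p)
    {g : R → ℂ} (hg : ∀ r s : R, r - s ∈ sp D → g r = g s) (hgp : ∀ r, g (p * r) = g p * g r) :
    Ts G (D * p) (fun r => g r * cpI p r) = (c p - g p) * Ts G D g := by
  classical
  have := h.fin D hD
  have := h.fin p hp
  have := h.fin (D * p) (hD.mul hR hp)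
  have := Fintype.ofFinite (R ⧸ sp D)
  have := Fintype.ofFinite (R ⧸ sp p)
  have := Fintype.ofFinite (R ⧸ sp (D * p))
  have hper : ∀ r s : R, r - s ∈ sp (D * p) → g r * G (D * p) r = g s * G (D * p) s := by
    intro r s hrs
    rw [hg r s (mem_sp_mul_left hrs), h.per _ r s (hD.mul hR hp) hrs]
  unfold Ts
  rw [rs_eq, rs_eq]
  have e1 : ∑ x : R ⧸ sp (D * p), g x.out * cpI p x.out * G (D * p) x.out =
      ∑ x : R ⧸ sp (D * p), g x.out * G (D * p) x.out -
      ∑ x : R ⧸ sp (D * p), (if x.out ∈ sp p then g x.out * G (D * p) x.out else 0) := by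
    rw [← Finset.sum_sub_distrib]
    refine Finset.sum_congr rfl fun x _ => ?_
    unfold cpI
    split_ifs <;> ring
  rw [e1, rs_mul (h.ne p hp) _ hper, rs_fib (h.ne D hD) _ hper, sub_mul, Finset.mul_sum,
    Finset.mul_sum]
  congr 1
  · refine Finset.sum_congr rfl fun w _ => ?_
    have h2 := h.dist D p w.out hD hp
    rw [rs_eq] at h2
    have h3 : ∀ y : R ⧸ sp p, g (w.out + D * y.out) * G (D * p) (w.out + D * y.out) =
        g w.out * G (D * p) (w.out + D * y.out) := by
      intro y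
      congr 1
      refine hg _ _ ?_
      rw [add_sub_cancel_left]
      exact (sp D).mul_mem_right _ (Ideal.mem_span_singleton_self D)
    rw [Finset.sum_congr rfl (fun y _ => h3 y), ← Finset.mul_sum, h2]
    ring
  · refine Finset.sum_congr rfl fun w _ => ?_
    rw [hgp, h.mul D p _ hD hp]
    ring

/-- a good prime with its symbol -/
structure QC (p : R) : Prop where
  od : Pri p
  max : (sp p).IsMaximal
  mul : ∀ α β : R, qs p (α * β) = qs p α * qs p β
  one : qs p 1 = 1
  per : ∀ α β : R, α - β ∈ sp p → qs p α = qs p β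
  zero : ∀ α : R, qs p α = 0 ↔ α ∈ sp p
  pm : ∀ α : R, α ∉ sp p → qs p α = 1 ∨ qs p α = -1
  neg : qs p (-1) = 1

/-- the product of the symbols -/
noncomputable def ch (V : Finset R) (r : R) : ℤ := ∏ p ∈ V, qs p r

/-- the indicator of the numbers prime to a set -/
noncomputable def cpS (W : Finset R) (r : R) : ℂ := ∏ p ∈ W, cpI p r

/-- the product -/
noncomputable def dd (V : Finset R) : R := ∏ p ∈ V, p

include hR in
lemma dd_od {V : Finset R} (h : ∀ p ∈ V, QC p) : Pri (dd V) :=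
  Pri.prod hR fun p hp => (h p hp).od

lemma mem_dd {V : Finset R} {p r : R} (hp : p ∈ V) (h : r ∈ sp (dd V)) : r ∈ sp p := by
  rw [Ideal.mem_span_singleton] at h ⊢
  exact (Finset.dvd_prod_of_mem _ hp).trans h

lemma cpI_per {p r s : R} (h : r - s ∈ sp p) : cpI p r = cpI p s := by
  unfold cpI
  have : r ∈ sp p ↔ s ∈ sp p := by
    constructor
    · intro h1
      have := (sp p).sub_mem h1 h
      rwa [sub_sub_cancel] at this
    · intro h1
      have := (sp p).add_mem h h1
      rwa [sub_add_cancel] at this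
  by_cases h1 : s ∈ sp p
  · rw [if_pos (this.mpr h1), if_pos h1]
  · rw [if_neg (fun h2 => h1 (this.mp h2)), if_neg h1]

lemma cpI_mul {p : R} (h : QC p) (r s : R) : cpI p (r * s) = cpI p r * cpI p s := by
  have := h.max.isPrime
  unfold cpI
  have : r * s ∈ sp p ↔ r ∈ sp p ∨ s ∈ sp p :=
    ⟨fun h1 => Ideal.IsPrime.mem_or_mem this h1, fun h1 => h1.elim
      (fun h2 => (sp p).mul_mem_right _ h2) (fun h2 => (sp p).mul_mem_left _ h2)⟩
  by_cases h1 : r ∈ sp p
  · rw [if_pos (this.mpr (Or.inl h1)), if_pos h1, zero_mul]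
  · by_cases h2 : s ∈ sp p
    · rw [if_pos (this.mpr (Or.inr h2)), if_pos h2, mul_zero]
    · rw [if_neg (fun h3 => (this.mp h3).elim h1 h2), if_neg h1, if_neg h2, mul_one]

lemma ch_mul {V : Finset R} (h : ∀ p ∈ V, QC p) (r s : R) : ch V (r * s) = ch V r * ch V s := by
  unfold ch
  rw [← Finset.prod_mul_distrib]
  exact Finset.prod_congr rfl fun p hp => (h p hp).mul r s

lemma ch_per {V : Finset R} (h : ∀ p ∈ V, QC p) {r s : R} (hrs : r - s ∈ sp (dd V)) :
    ch V r = ch V s :=
  Finset.prod_congr rfl fun p hp => (h p hp).per r s (mem_dd hp hrs)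

lemma cpS_mul {V : Finset R} (h : ∀ p ∈ V, QC p) (r s : R) : cpS V (r * s) = cpS V r * cpS V s := by
  unfold cpS
  rw [← Finset.prod_mul_distrib]
  exact Finset.prod_congr rfl fun p hp => cpI_mul (h p hp) r s

lemma cpS_per {V : Finset R} {r s : R} (hrs : r - s ∈ sp (dd V)) :
    cpS V r = cpS V s :=
  Finset.prod_congr rfl fun _ hp => cpI_per (mem_dd hp hrs)

/-- distinct primes -/
def Dst (U : Finset R) : Prop := ∀ p ∈ U, ∀ s ∈ U, p ≠ s → p ∉ sp s

include hR in
theorem sieve_set {G : R → R → ℂ} {c : R → ℂ} (h : DS G c) {U V : Finset R} (hU : ∀ p ∈ U, QC p)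
    (hd : Dst U) (hV : V ⊆ U) (W : Finset R) (hW : W ⊆ U) (hVW : Disjoint V W) :
    Ts G (dd V * dd W) (fun r => (ch V r : ℂ) * cpS W r) =
      (∏ p ∈ W, (c p - (ch V p : ℂ))) * Ts G (dd V) (fun r => (ch V r : ℂ)) := by
  classical
  induction W using Finset.induction_on with
  | empty =>
    have e1 : dd (∅ : Finset R) = 1 := Finset.prod_empty
    have e2 : ∀ r : R, cpS (∅ : Finset R) r = 1 := fun r => Finset.prod_empty
    rw [e1, mul_one, Finset.prod_empty, one_mul]
    simp only [e2, mul_one]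
  | insert p W hpW ih =>
    have hp : p ∈ U := hW (Finset.mem_insert_self _ _)
    have hW' : W ⊆ U := fun x hx => hW (Finset.mem_insert_of_mem hx)
    have hVW' : Disjoint V W := (Finset.disjoint_insert_right.mp hVW).2
    have hpV : p ∉ V := (Finset.disjoint_insert_right.mp hVW).1
    have e1 : dd V * dd (insert p W) = (dd V * dd W) * p := by
      unfold dd
      rw [Finset.prod_insert hpW]
      ring
    have e2 : (fun r => (ch V r : ℂ) * cpS (insert p W) r) =
        fun r => ((ch V r : ℂ) * cpS W r) * cpI p r := by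
      funext r
      unfold cpS
      rw [Finset.prod_insert hpW]
      ring
    have hVQ : ∀ x ∈ V, QC x := fun x hx => hU x (hV hx)
    have hWQ : ∀ x ∈ W, QC x := fun x hx => hU x (hW' hx)
    have e3 : cpS W p = 1 := by
      unfold cpS
      refine Finset.prod_eq_one fun s hs => ?_
      unfold cpI
      rw [if_neg (hd p hp s (hW' hs) (fun h => hpW (h ▸ hs)))]
    rw [e1, e2, sieve hR h ((dd_od hR hVQ).mul hR (dd_od hR hWQ)) (hU p hp).od
      (g := fun r => (ch V r : ℂ) * cpS W r), ih hW' hVW', Finset.prod_insert hpW, e3, mul_one,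
      mul_assoc]
    · intro r s hrs
      rw [ch_per hVQ (mem_sp_mul_left hrs), cpS_per (mem_sp_mul_right hrs)]
    · intro r
      rw [ch_mul hVQ, cpS_mul hWQ]
      push_cast
      ring

include hR in
open Classical in
theorem sieve_all {G : R → R → ℂ} {c : R → ℂ} (h : DS G c) {U : Finset R} (hU : ∀ p ∈ U, QC p)
    (hd : Dst U) :
    Ts G (dd U) (fun r => ∏ p ∈ U, ((qs p r : ℂ) + cpI p r)) =
      ∑ V ∈ U.powerset, (∏ p ∈ U \ V, (c p - (ch V p : ℂ))) *
        Ts G (dd V) (fun r => (ch V r : ℂ)) := by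
  have e1 : ∀ V ∈ U.powerset, (∏ p ∈ U \ V, (c p - (ch V p : ℂ))) *
      Ts G (dd V) (fun r => (ch V r : ℂ)) =
      Ts G (dd U) (fun r => (ch V r : ℂ) * cpS (U \ V) r) := by
    intro V hV
    rw [Finset.mem_powerset] at hV
    rw [← sieve_set hR h hU hd hV (U \ V) Finset.sdiff_subset Finset.disjoint_sdiff]
    congr 1
    unfold dd
    rw [mul_comm]
    exact Finset.prod_sdiff hV
  rw [Finset.sum_congr rfl e1]
  have := h.fin _ (dd_od hR hU)
  have := Fintype.ofFinite (R ⧸ sp (dd U))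
  unfold Ts
  simp only [rs_eq]
  rw [Finset.sum_comm]
  refine Finset.sum_congr rfl fun w _ => ?_
  rw [← Finset.sum_mul]
  congr 1
  rw [Finset.prod_add]
  refine Finset.sum_congr rfl fun V hV => ?_
  unfold ch cpS
  push_cast
  rfl

end Pool.Agent.Y690.AW
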